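import Mathlib

set_option autoImplicit false

open scoped commutatorElement

namespace Pool.Agent.Helper638.CDB.BC

section pure

variable {M : Type} [Group M]

/-- `m` at `i` and `m⁻¹` at `j` -/
def E (i j : ZMod 11) (m : M) : ZMod 11 → M := Pi.mulSingle i m * Pi.mulSingle j m⁻¹

theorem E_mul (i j k : ZMod 11) (m : M) : E i j m * E j k m = E i k m := by
  unfold E
  have h : (Pi.mulSingle j m⁻¹ : ZMod 11 → M) * Pi.mulSingle j m = 1 := by
    rw [← Pi.mulSingle_mul, inv_mul_cancel, Pi.mulSingle_one]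
  calc (Pi.mulSingle i m : ZMod 11 → M) * Pi.mulSingle j m⁻¹ * (Pi.mulSingle j m * Pi.mulSingle k m⁻¹)
      = Pi.mulSingle i m * (Pi.mulSingle j m⁻¹ * Pi.mulSingle j m) * Pi.mulSingle k m⁻¹ := by
        simp only [mul_assoc]
    _ = _ := by rw [h, mul_one]

theorem E_self (i : ZMod 11) (m : M) : E i i m = 1 := by
  unfold E
  rw [← Pi.mulSingle_mul, mul_inv_cancel, Pi.mulSingle_one]

theorem E_pow (m : M) (n : ℕ) : (E 0 1 m) ^ n = E 0 1 (m ^ n) := by
  unfold E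
  rw [Commute.mul_pow, ← Pi.mulSingle_pow, ← Pi.mulSingle_pow, inv_pow]
  exact Pi.mulSingle_commute (show (0 : ZMod 11) ≠ 1 by decide) _ _

/-- the base group -/
def B0 (M : Type) [Group M] : Subgroup (ZMod 11 → M) :=
  Subgroup.closure {β | ∃ i j m, β = E i j m}

theorem E_mem (i j : ZMod 11) (m : M) : E i j m ∈ B0 M := Subgroup.subset_closure ⟨i, j, m, rfl⟩

theorem core (hM : ∀ m : M, ∃ m', m' ^ 11 = m) (sh : ℕ → (ZMod 11 → M) → (ZMod 11 → M))
    (hsh : ∀ k i j m, sh k (E i j m) = E (i + k) (j + k) m) (D : Subgroup (ZMod 11 → M))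
    (h1 : ∀ β ∈ B0 M, ∀ k : ℕ, β * (sh k β)⁻¹ ∈ D)
    (h2 : ∀ β ∈ B0 M, ∀ δ ∈ D, β * δ * β⁻¹ ∈ D) : B0 M ≤ D := by
  have hA : ∀ (i : ZMod 11) (m : M), E i (i + 1) m * (E 0 1 m)⁻¹ ∈ D := by
    intro i m
    have h3 := h1 (E 0 1 m) (E_mem _ _ _) i.val
    rw [hsh, ZMod.natCast_zmod_val, zero_add] at h3
    have h4 := D.inv_mem h3
    rw [mul_inv_rev, inv_inv] at h4
    rwa [add_comm i 1]
  have hr : ∀ (r : ℕ) (i : ZMod 11) (m : M), E i (i + r) m * ((E 0 1 m) ^ r)⁻¹ ∈ D := by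
    intro r
    induction r with
    | zero =>
      intro i m
      rw [Nat.cast_zero, add_zero, E_self, pow_zero, inv_one, one_mul]
      exact D.one_mem
    | succ r ih =>
      intro i m
      have e1 : E i (i + (r + 1 : ℕ)) m = E i (i + r) m * E (i + r) (i + r + 1) m := by
        rw [E_mul]; push_cast; rw [add_assoc]
      have e2 : E i (i + (r + 1 : ℕ)) m * ((E 0 1 m) ^ (r + 1))⁻¹ =
          (E i (i + r) m * (E (i + r) (i + r + 1) m * (E 0 1 m)⁻¹) * (E i (i + r) m)⁻¹) *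
          (E i (i + r) m * ((E 0 1 m) ^ r)⁻¹) := by
        rw [e1, pow_succ]
        group
      rw [e2]
      exact D.mul_mem (h2 _ (E_mem _ _ _) _ (hA _ _)) (ih i m)
  have hx : ∀ m : M, E 0 1 m ∈ D := by
    intro m
    obtain ⟨m', rfl⟩ := hM m
    have h3 := hr 11 0 m'
    have h4 : ((11 : ℕ) : ZMod 11) = 0 := by decide
    rw [h4, add_zero, E_self, one_mul] at h3
    have h5 := D.inv_mem h3
    rwa [inv_inv, E_pow] at h5
  unfold B0
  rw [Subgroup.closure_le]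
  rintro _ ⟨i, j, m, rfl⟩
  have h3 := hr (j - i).val i m
  rw [ZMod.natCast_zmod_val, add_sub_cancel] at h3
  have h4 := D.mul_mem h3 (D.pow_mem (hx m) (j - i).val)
  rwa [inv_mul_cancel_right] at h4


theorem pi_solv [hs : Group.IsSolvable M] : Group.IsSolvable (ZMod 11 → M) := by
  obtain ⟨n, hn⟩ := hs.solvable
  refine ⟨n, ?_⟩
  rw [eq_bot_iff]
  intro β hβ
  rw [Subgroup.mem_bot]
  funext i
  have h1 := map_derivedSeries_le_derivedSeries (Pi.evalMonoidHom (fun _ : ZMod 11 => M) i) n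
    (Subgroup.mem_map_of_mem _ hβ)
  rw [hn, Subgroup.mem_bot] at h1
  exact h1

/-- the permutation action on functions -/
def ph (M : Type) [Group M] : Equiv.Perm (ZMod 11) →* MulAut (ZMod 11 → M) := mulAutArrow

theorem ph_E (σ : Equiv.Perm (ZMod 11)) (i j : ZMod 11) (m : M) :
    ph M σ (E i j m) = E (σ i) (σ j) m := by
  funext k
  show E i j m (σ⁻¹ k) = _
  unfold E
  simp only [Pi.mul_apply, Pi.mulSingle_apply]
  have h1 : ∀ a, (σ⁻¹ k = a) = (k = σ a) := by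
    intro a
    rw [Equiv.Perm.inv_eq_iff_eq]
  simp only [h1]

theorem ph_B0 (σ : Equiv.Perm (ZMod 11)) {β : ZMod 11 → M} (h : β ∈ B0 M) : ph M σ β ∈ B0 M := by
  have h1 : B0 M ≤ (B0 M).comap (ph M σ).toMonoidHom := by
    conv_lhs => unfold B0
    rw [Subgroup.closure_le]
    rintro _ ⟨i, j, m, rfl⟩
    show ph M σ (E i j m) ∈ B0 M
    rw [ph_E]
    exact E_mem _ _ _
  exact h1 h

end pure

/-- `i ↦ i + 1` -/
def sc : Equiv.Perm (ZMod 11) := Equiv.addRight 1

/-- `i ↦ 3 i` -/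
def st : Equiv.Perm (ZMod 11) where
  toFun i := 3 * i
  invFun i := 4 * i
  left_inv := by decide
  right_inv := by decide

theorem sc_pow (k : ℕ) (i : ZMod 11) : (sc ^ k) i = i + k := by
  induction k with
  | zero => simp
  | succ k ih =>
    rw [pow_succ', Equiv.Perm.mul_apply, ih]
    show i + k + 1 = _
    push_cast
    ring

theorem exists_BC (M : Type) [Group M] [Finite M] (hM : (Nat.card M).Coprime 11) (hs : IsSolvable M) :
    ∃ (H : Type) (_ : Group H) (_ : Finite H) (c τ : H) (B : Subgroup H) (π : B →* M),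
      c ^ 11 = 1 ∧ τ ^ 5 = 1 ∧ τ * c * τ⁻¹ = c ^ 3 ∧
      (∀ b ∈ B, c * b * c⁻¹ ∈ B) ∧ (∀ b ∈ B, τ * b * τ⁻¹ ∈ B) ∧
      (∀ b ∈ B, b ∈ Subgroup.closure {g : H | ∃ b' ∈ B, ∃ k : ℕ, g = ⁅b', c ^ k⁆}) ∧
      IsSolvable B ∧ Function.Surjective π := by
  let H := (ZMod 11 → M) ⋊[ph M] Equiv.Perm (ZMod 11)
  have hfin : Finite H := Finite.of_equiv _ (SemidirectProduct.equivProd).symm
  let il : (ZMod 11 → M) →* H := SemidirectProduct.inl
  let ir : Equiv.Perm (ZMod 11) →* H := SemidirectProduct.inr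
  have hil : Function.Injective il := SemidirectProduct.inl_injective
  have hconj : ∀ σ β, ir σ * il β * (ir σ)⁻¹ = il (ph M σ β) := by
    intro σ β
    rw [← map_inv]
    exact (SemidirectProduct.inl_aut σ β).symm
  let B : Subgroup H := (B0 M).map il
  have hsurj : ∀ m : M, ∃ m', m' ^ 11 = m := fun m =>
    ⟨(powCoprime hM).symm m, by rw [← powCoprime_apply hM, Equiv.apply_symm_apply]⟩
  let eB : B0 M ≃* B := (B0 M).equivMapOfInjective il hil
  let π : B →* M := ((Pi.evalMonoidHom (fun _ : ZMod 11 => M) 0).comp (B0 M).subtype).comp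
    eB.symm.toMonoidHom
  refine ⟨H, inferInstance, hfin, ir sc, ir st, B, π, ?_, ?_, ?_, ?_, ?_, ?_, ?_, ?_⟩
  · rw [← map_pow]
    have : sc ^ 11 = 1 := by
      ext1 i
      rw [sc_pow, Equiv.Perm.one_apply]
      have : ((11 : ℕ) : ZMod 11) = 0 := by decide
      rw [this, add_zero]
    rw [this, map_one]
  · rw [← map_pow]
    have : st ^ 5 = 1 := by
      ext1 i
      show 3 * (3 * (3 * (3 * (3 * i)))) = i
      revert i
      decide
    rw [this, map_one]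
  · rw [← map_inv, ← map_mul, ← map_mul, ← map_pow]
    congr 1
    ext1 i
    rw [sc_pow]
    show 3 * (4 * i + 1) = i + (3 : ℕ)
    revert i
    decide
  · rintro _ ⟨β, hβ, rfl⟩
    rw [hconj]
    exact ⟨_, ph_B0 _ hβ, rfl⟩
  · rintro _ ⟨β, hβ, rfl⟩
    rw [hconj]
    exact ⟨_, ph_B0 _ hβ, rfl⟩
  · set D := Subgroup.closure {g : H | ∃ b' ∈ B, ∃ k : ℕ, g = ⁅b', ir sc ^ k⁆} with hD
    have hcom : ∀ (β : ZMod 11 → M) (k : ℕ), ⁅il β, ir sc ^ k⁆ = il (β * (ph M (sc ^ k) β)⁻¹) := by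
      intro β k
      have h1 := hconj (sc ^ k) β⁻¹
      rw [map_mul, ← map_inv (ph M (sc ^ k)), ← h1, commutatorElement_def, map_inv, map_pow]
      group
    have hnorm : ∀ b ∈ B, ∀ d ∈ D, b * d * b⁻¹ ∈ D := by
      intro b hb d hd
      have h1 : D ≤ D.comap (MulAut.conj b).toMonoidHom := by
        conv_lhs => rw [hD]
        rw [Subgroup.closure_le]
        rintro _ ⟨b', hb', k, rfl⟩
        show b * ⁅b', ir sc ^ k⁆ * b⁻¹ ∈ D
        have h2 : b * ⁅b', ir sc ^ k⁆ * b⁻¹ = ⁅b * b', ir sc ^ k⁆ * ⁅b, ir sc ^ k⁆⁻¹ := by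
          simp only [commutatorElement_def]
          group
        rw [h2]
        exact D.mul_mem (Subgroup.subset_closure ⟨_, B.mul_mem hb hb', k, rfl⟩)
          (D.inv_mem (Subgroup.subset_closure ⟨_, hb, k, rfl⟩))
      exact h1 hd
    have hcore := core hsurj (fun k => ph M (sc ^ k)) (fun k i j m => by
      rw [ph_E, sc_pow, sc_pow]) (D.comap il) (fun β hβ k => by
        show il (β * (ph M (sc ^ k) β)⁻¹) ∈ D
        rw [← hcom]
        exact Subgroup.subset_closure ⟨_, ⟨β, hβ, rfl⟩, k, rfl⟩) (fun β hβ δ hδ => by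
        show il (β * δ * β⁻¹) ∈ D
        rw [map_mul, map_mul, map_inv]
        exact hnorm _ ⟨β, hβ, rfl⟩ _ hδ)
    rintro _ ⟨β, hβ, rfl⟩
    exact hcore hβ
  · have : Group.IsSolvable M := hs
    have := pi_solv (M := M)
    exact Group.isSolvable_of_surjective (f := eB.toMonoidHom) eB.surjective
  · intro m
    refine ⟨eB ⟨E 0 1 m, E_mem _ _ _⟩, ?_⟩
    show (eB.symm (eB ⟨E 0 1 m, E_mem _ _ _⟩)).1 0 = m
    rw [MulEquiv.symm_apply_apply]
    show E 0 1 m 0 = m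
    have h01 : ¬ ((0 : ZMod 11) = 1) := by decide
    simp [E, Pi.mulSingle_apply, h01]

end Pool.Agent.Helper638.CDB.BC
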