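import Pool.Agent.Helper638.CDB.Union

set_option autoImplicit false

open scoped commutatorElement

namespace Pool.Agent.Helper638.CDB

lemma pow_val_add {H : Type} [Group H] {n : ℕ} [NeZero n] {x : H} (hx : x ^ n = 1) (a b : ZMod n) :
    x ^ (a + b).val = x ^ a.val * x ^ b.val := by
  rw [ZMod.val_add, ← pow_add]
  exact (pow_eq_pow_mod _ hx).symm

section base
variable {Ω : Type} {H : Type} [Group H]

/-- phases -/
def ph (τ : H) (φ : Ω → F) : Ω → H := fun x => τ ^ (φ x).val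
/-- powers of `c` -/
def cx (c : H) (f : Ω → R) : Ω → H := fun x => c ^ (f x).val
/-- constants -/
def cst (Ω : Type) (H : Type) [Group H] : H →* (Ω → H) where
  toFun h := fun _ => h
  map_one' := rfl
  map_mul' _ _ := rfl

lemma ph_add {τ : H} (hτ : τ ^ 5 = 1) (φ ψ : Ω → F) : ph τ (φ + ψ) = ph τ φ * ph τ ψ := by
  funext x; exact pow_val_add hτ _ _

lemma cx_add {c : H} (hc : c ^ 11 = 1) (f g : Ω → R) : cx c (f + g) = cx c f * cx c g := by
  funext x; exact pow_val_add hc _ _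

lemma cx_one (c : H) : cx c (1 : Ω → R) = cst Ω H c := by
  funext x
  show c ^ ((1 : R)).val = c
  have : (1 : R).val = 1 := by decide
  rw [this, pow_one]

lemma tau_c {c τ : H} (hc : c ^ 11 = 1) (hτc : τ * c * τ⁻¹ = c ^ 3) (s : F) (r : R) :
    τ ^ s.val * c ^ r.val * (τ ^ s.val)⁻¹ = c ^ (ze s * r).val := by
  have h1 : ∀ n : ℕ, τ ^ n * c * (τ ^ n)⁻¹ = c ^ (3 ^ n) := by
    intro n
    induction n with
    | zero => simp
    | succ n ih =>
      have e : τ ^ (n + 1) * c * (τ ^ (n + 1))⁻¹ = τ ^ n * (τ * c * τ⁻¹) * (τ ^ n)⁻¹ := by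
        rw [pow_succ]; group
      rw [e, hτc]
      have e2 : τ ^ n * c ^ 3 * (τ ^ n)⁻¹ = (τ ^ n * c * (τ ^ n)⁻¹) ^ 3 := by
        rw [conj_pow]
      rw [e2, ih, ← pow_mul, pow_succ]
  have e2 : τ ^ s.val * c ^ r.val * (τ ^ s.val)⁻¹ = (τ ^ s.val * c * (τ ^ s.val)⁻¹) ^ r.val := by
    rw [conj_pow]
  rw [e2, h1, ← pow_mul]
  apply pow_eq_pow_iff_modEq.2
  have h2 : (3 ^ s.val * r.val) ≡ (ze s * r).val [MOD 11] := by
    rw [← ZMod.natCast_eq_natCast_iff]
    rw [ZMod.natCast_zmod_val]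
    push_cast
    rw [ZMod.natCast_zmod_val]
    rfl
  exact h2.of_dvd (orderOf_dvd_of_pow_eq_one hc)

/-- the concrete data satisfies the axioms -/
theorem good_base {c τ : H} {B : Subgroup H} (hc : c ^ 11 = 1) (hτ : τ ^ 5 = 1)
    (hτc : τ * c * τ⁻¹ = c ^ 3) (V : Submodule F (Ω → F)) :
    Good (B.map (cst Ω H)) (cst Ω H c) V (ph τ) (cx c) where
  Z_add φ _ ψ _ := ph_add hτ φ ψ
  P_add f g _ _ := cx_add hc f g
  P_one := cx_one c
  act φ _ f _ := by funext x; exact tau_c hc hτc _ _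
  loc := by
    rintro f g - - h0 _ ⟨b, hb, rfl⟩
    funext x
    show (cx c g x) * ⁅b, cx c f x⁆ = ⁅b, cx c f x⁆ * cx c g x
    rcases h0 x with h | h
    · have : cx c f x = 1 := by
        show c ^ (f x).val = 1
        rw [h, ZMod.val_zero, pow_zero]
      rw [this, commutatorElement_one_right, mul_one, one_mul]
    · have : cx c g x = 1 := by
        show c ^ (g x).val = 1
        rw [h, ZMod.val_zero, pow_zero]
      rw [this, mul_one, one_mul]
  ltp := by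
    rintro u - v - f - h0 _ ⟨b, hb, rfl⟩
    funext x
    show (ph τ (u * v) x) * ⁅b, cx c f x⁆ = ⁅b, cx c f x⁆ * ph τ (u * v) x
    rcases h0 x with h | h
    · have : cx c f x = 1 := by
        show c ^ (f x).val = 1
        rw [h, ZMod.val_zero, pow_zero]
      rw [this, commutatorElement_one_right, mul_one, one_mul]
    · have : ph τ (u * v) x = 1 := by
        show τ ^ (u x * v x).val = 1
        rw [h, zero_mul, ZMod.val_zero, pow_zero]
      rw [this, mul_one, one_mul]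

/-- the finite group -/
def Gam (c τ : H) (B : Subgroup H) (V : Submodule F (Ω → F)) : Subgroup (Ω → H) :=
  Subgroup.closure ((B.map (cst Ω H) : Set (Ω → H)) ∪ {cst Ω H c} ∪
    {x | ∃ φ ∈ V * V, x = ph τ φ})

variable {c τ : H} {B : Subgroup H} {V : Submodule F (Ω → F)}

lemma cst_mem {b : H} (hb : b ∈ B) : cst Ω H b ∈ Gam c τ B V :=
  Subgroup.subset_closure (Or.inl (Or.inl ⟨b, hb, rfl⟩))

lemma c_mem : cst Ω H c ∈ Gam c τ B V := Subgroup.subset_closure (Or.inl (Or.inr rfl))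

lemma ph_mem {φ : Ω → F} (hφ : φ ∈ V * V) : ph τ φ ∈ Gam c τ B V :=
  Subgroup.subset_closure (Or.inr ⟨φ, hφ, rfl⟩)

lemma cx_mem (hc : c ^ 11 = 1) (hτc : τ * c * τ⁻¹ = c ^ 3) (hV : (V : Set (Ω → F)).Finite)
    (h1 : (1 : Ω → F) ∈ V) {f : Ω → R} (hf : Dep V f) : cx c f ∈ Gam c τ B V := by
  refine dep_induction V hV (fun f => cx c f ∈ Gam c τ B V) ?_ ?_ ?_ f hf
  · have : cx c (0 : Ω → R) = 1 := by
      funext x
      show c ^ ((0 : R)).val = 1
      rw [ZMod.val_zero, pow_zero]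
    show cx c (0 : Ω → R) ∈ _
    rw [this]; exact Subgroup.one_mem _
  · intro f g _ _ hf hg
    show cx c (f + g) ∈ _
    rw [cx_add hc]
    exact Subgroup.mul_mem _ hf hg
  · intro v hv r
    have hv' : v ∈ V * V := by
      have := Submodule.mul_mem_mul hv h1
      rwa [mul_one] at this
    have e : cx c (fun x => r * ze (v x)) = ph τ v * (cst Ω H c) ^ r.val * (ph τ v)⁻¹ := by
      funext x
      show c ^ (r * ze (v x)).val = τ ^ (v x).val * c ^ r.val * (τ ^ (v x).val)⁻¹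
      rw [tau_c hc hτc, mul_comm]
    show cx c (fun x => r * ze (v x)) ∈ _
    rw [e]
    exact Subgroup.mul_mem _ (Subgroup.mul_mem _ (ph_mem hv') (Subgroup.pow_mem _ c_mem _))
      (Subgroup.inv_mem _ (ph_mem hv'))

lemma Gam_dep : ∀ x ∈ Gam c τ B V, Dep V x := by
  intro x hx
  induction hx using Subgroup.closure_induction with
  | mem x hx =>
    rcases hx with (⟨b, hb, rfl⟩ | hx) | ⟨φ, hφ, rfl⟩
    · exact Dep.const V b
    · rw [Set.mem_singleton_iff] at hx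
      rw [hx]; exact Dep.const V c
    · exact (Dep.of_quad hφ).comp (fun s => τ ^ s.val)
  | one => exact Dep.const V 1
  | mul x y _ _ hx hy => exact hx.comp₂ hy (· * ·)
  | inv x _ hx => exact hx.comp (·⁻¹)

lemma dep_finite [Finite H] (hV : (V : Set (Ω → F)).Finite) : {x : Ω → H | Dep V x}.Finite := by
  classical
  have : Fintype V := hV.fintype
  let e : Ω → (V → F) := fun x v => v.1 x
  have ex : ∀ p : Set.range e, ∃ x, e x = p.1 := fun p => p.2
  choose q hp using ex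
  have hfin : Finite (Set.range e) := (Set.toFinite _).to_subtype
  have hfin2 : Finite (Set.range e → H) := inferInstance
  refine Set.Finite.of_finite_image (f := fun x : Ω → H => fun p : Set.range e => x (q p))
    (Set.toFinite _) ?_
  intro x hx y hy hxy
  funext z
  have hz : e z ∈ Set.range e := ⟨z, rfl⟩
  have h1 : ∀ u ∈ V, u z = u (q ⟨e z, hz⟩) := by
    intro u hu
    have := congrFun (hp ⟨e z, hz⟩) ⟨u, hu⟩
    exact this.symm
  have h2 := congrFun hxy ⟨e z, hz⟩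
  rw [hx z _ h1, hy z _ h1]
  exact h2

lemma Gam_finite [Finite H] (hV : (V : Set (Ω → F)).Finite) : Finite (Gam c τ B V) := by
  have : ((Gam c τ B V : Subgroup (Ω → H)) : Set (Ω → H)).Finite :=
    (dep_finite hV).subset (fun x hx => Gam_dep x hx)
  exact this.to_subtype

end base

/-- pushing the data forward -/
theorem Good.push {Ω G1 G2 : Type} [Group G1] [Group G2] {B : Subgroup G1} {c : G1}
    {V : Submodule F (Ω → F)} {Z : (Ω → F) → G1} {P : (Ω → R) → G1} (hG : Good B c V Z P)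
    (Γ : Subgroup G1) (e : G1 → G2) (he : ∀ x ∈ Γ, ∀ y ∈ Γ, e (x * y) = e x * e y)
    (B' : Subgroup G2) (hB' : ∀ b' ∈ B', ∃ b ∈ B, b' = e b) (hBΓ : B ≤ Γ)
    (hZΓ : ∀ φ ∈ V * V, Z φ ∈ Γ) (hPΓ : ∀ f, Dep V f → P f ∈ Γ) :
    Good B' (e c) V (fun φ => e (Z φ)) (fun f => e (P f)) := by
  have e1 : e 1 = 1 := by
    have := he 1 Γ.one_mem 1 Γ.one_mem
    rw [mul_one] at this
    exact left_eq_mul.mp this
  have einv : ∀ x ∈ Γ, e x⁻¹ = (e x)⁻¹ := by
    intro x hx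
    have := he x hx x⁻¹ (Γ.inv_mem hx)
    rw [mul_inv_cancel, e1] at this
    exact eq_inv_of_mul_eq_one_right this.symm
  have econj : ∀ x ∈ Γ, ∀ y ∈ Γ, e (x * y * x⁻¹) = e x * e y * (e x)⁻¹ := by
    intro x hx y hy
    rw [he _ (Γ.mul_mem hx hy) _ (Γ.inv_mem hx), he x hx y hy, einv x hx]
  have ecomm : ∀ x ∈ Γ, ∀ y ∈ Γ, e ⁅x, y⁆ = ⁅e x, e y⁆ := by
    intro x hx y hy
    rw [commutatorElement_def, commutatorElement_def, he _ (Γ.mul_mem (Γ.mul_mem hx hy) (Γ.inv_mem hx)) _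
      (Γ.inv_mem hy), econj x hx y hy, einv y hy]
  have mcomm : ∀ x ∈ Γ, ∀ y ∈ Γ, ⁅x, y⁆ ∈ Γ := by
    intro x hx y hy
    rw [commutatorElement_def]
    exact Γ.mul_mem (Γ.mul_mem (Γ.mul_mem hx hy) (Γ.inv_mem hx)) (Γ.inv_mem hy)
  have eCm : ∀ x ∈ Γ, ∀ y ∈ Γ, Commute x y → Commute (e x) (e y) := by
    intro x hx y hy h
    show e x * e y = e y * e x
    rw [← he x hx y hy, ← he y hy x hx, h.eq]
  refine ⟨?_, ?_, ?_, ?_, ?_, ?_⟩
  · intro φ hφ ψ hψ
    show e (Z (φ + ψ)) = _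
    rw [hG.Z_add φ hφ ψ hψ, he _ (hZΓ φ hφ) _ (hZΓ ψ hψ)]
  · intro f g hf hg
    show e (P (f + g)) = _
    rw [hG.P_add f g hf hg, he _ (hPΓ f hf) _ (hPΓ g hg)]
  · show e (P 1) = e c
    rw [hG.P_one]
  · intro φ hφ f hf
    show e (Z φ) * e (P f) * (e (Z φ))⁻¹ = e (P _)
    rw [← hG.act φ hφ f hf, econj _ (hZΓ φ hφ) _ (hPΓ f hf)]
  · intro f g hf hg h0 b' hb'
    obtain ⟨b, hb, rfl⟩ := hB' b' hb'
    show Commute (e (P g)) ⁅e b, e (P f)⁆
    rw [← ecomm b (hBΓ hb) _ (hPΓ f hf)]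
    exact eCm _ (hPΓ g hg) _ (mcomm _ (hBΓ hb) _ (hPΓ f hf)) (hG.loc f g hf hg h0 b hb)
  · intro u hu v hv f hf h0 b' hb'
    obtain ⟨b, hb, rfl⟩ := hB' b' hb'
    show Commute (e (Z (u * v))) ⁅e b, e (P f)⁆
    rw [← ecomm b (hBΓ hb) _ (hPΓ f hf)]
    exact eCm _ (hZΓ _ (Submodule.mul_mem_mul hu hv)) _ (mcomm _ (hBΓ hb) _ (hPΓ f hf))
      (hG.ltp u hu v hv f hf h0 b hb)

end Pool.Agent.Helper638.CDB
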