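import Mathlib

set_option autoImplicit false

namespace Pool.Agent.Helper638.CDB

abbrev F := ZMod 5
abbrev R := ZMod 11

instance : Fact (Nat.Prime 5) := ⟨by norm_num⟩
instance : Fact (Nat.Prime 11) := ⟨by norm_num⟩

/-- the character F → R of order 5 -/
def ze (s : F) : R := 3 ^ s.val

lemma ze_add : ∀ s t : F, ze (s + t) = ze s * ze t := by decide
@[simp] lemma ze_zero : ze 0 = 1 := by decide
lemma ze_ne_one : ∀ s : F, s ≠ 0 → ze s ≠ 1 := by decide
lemma ze_ne_zero : ∀ s : F, ze s ≠ 0 := by decide
lemma ze_sum : ∀ s : F, ∑ t : F, ze (t * s) = if s = 0 then 5 else 0 := by decide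
lemma ze_neg_mul : ∀ s : F, ze (-s) * ze s = 1 := by decide
lemma nine_five : (9 : R) * 5 = 1 := by decide

variable {Ω : Type}

/-- functions which only depend on the values of the members of `V` -/
def Dep (V : Submodule F (Ω → F)) {T : Type} (f : Ω → T) : Prop :=
  ∀ x y, (∀ u ∈ V, u x = u y) → f x = f y

namespace Dep
variable {V W : Submodule F (Ω → F)} {T T' : Type}

lemma mono (h : W ≤ V) {f : Ω → T} (hf : Dep W f) : Dep V f :=
  fun x y hxy => hf x y fun u hu => hxy u (h hu)

lemma const (V : Submodule F (Ω → F)) (r : T) : Dep V (fun _ : Ω => r) := fun _ _ _ => rfl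

lemma of_mem {u : Ω → F} (hu : u ∈ V) : Dep V u := fun _ _ h => h u hu

lemma comp {f : Ω → T} (hf : Dep V f) (a : T → T') : Dep V (fun x => a (f x)) :=
  fun x y h => by simp only [hf x y h]

lemma comp₂ {T'' : Type} {f : Ω → T} {g : Ω → T'} (hf : Dep V f) (hg : Dep V g) (a : T → T' → T'') :
    Dep V (fun x => a (f x) (g x)) :=
  fun x y h => by simp only [hf x y h, hg x y h]

lemma add [Add T] {f g : Ω → T} (hf : Dep V f) (hg : Dep V g) : Dep V (f + g) :=
  comp₂ hf hg (· + ·)

lemma mul [Mul T] {f g : Ω → T} (hf : Dep V f) (hg : Dep V g) : Dep V (f * g) :=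
  comp₂ hf hg (· * ·)

lemma zero [Zero T] : Dep V (0 : Ω → T) := const V 0
lemma one [One T] : Dep V (1 : Ω → T) := const V 1

lemma sum {ι : Type} [AddCommMonoid T] (s : Finset ι) (f : ι → Ω → T) (h : ∀ i ∈ s, Dep V (f i)) :
    Dep V (∑ i ∈ s, f i) := by
  classical
  intro x y hxy
  simp only [Finset.sum_apply]
  exact Finset.sum_congr rfl fun i hi => h i hi x y hxy

lemma of_quad {φ : Ω → F} (hφ : φ ∈ V * V) : Dep V φ := by
  refine Submodule.mul_induction_on hφ ?_ ?_
  · intro u hu v hv
    exact (of_mem hu).mul (of_mem hv)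
  · intro f g hf hg
    exact hf.add hg

end Dep

open scoped Classical in
/-- the characters span the functions -/
lemma char_sum (V : Submodule F (Ω → F)) [Fintype V] (x y : Ω) :
    ∑ v : V, ze (v.1 x - v.1 y) = if (∀ u ∈ V, u x = u y) then (Fintype.card V : R) else 0 := by
  classical
  split_ifs with h
  · have : ∀ v : V, ze (v.1 x - v.1 y) = 1 := by
      intro v; rw [h v.1 v.2, sub_self, ze_zero]
    simp [this]
  · push Not at h
    obtain ⟨w, hw, hne⟩ := h
    set S := ∑ v : V, ze (v.1 x - v.1 y)
    have key : S = ze (w x - w y) * S := by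
      have h1 : S = ∑ v : V, ze ((v + ⟨w, hw⟩ : V).1 x - (v + ⟨w, hw⟩ : V).1 y) :=
        (Fintype.sum_equiv (Equiv.addRight (⟨w, hw⟩ : V)) _ _ (fun v => rfl)).symm
      rw [h1]
      conv_rhs => rw [← h1]
      rw [Finset.mul_sum]
      refine Finset.sum_congr rfl fun v _ => ?_
      rw [← ze_add]
      congr 1
      simp
      ring
    have h2 : (1 - ze (w x - w y)) * S = 0 := by
      rw [sub_mul, one_mul, ← key, sub_self]
    rcases mul_eq_zero.mp h2 with h3 | h3
    · exact absurd (sub_eq_zero.mp h3).symm (ze_ne_one _ (sub_ne_zero.mpr hne))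
    · exact h3

lemma card_ne_zero (V : Submodule F (Ω → F)) [Fintype V] : (Fintype.card V : R) ≠ 0 := by
  classical
  have : Module.Finite F V := Module.Finite.of_finite
  have h := Module.card_eq_pow_finrank (K := F) (V := V)
  rw [h]
  simp only [ZMod.card, Nat.cast_pow]
  exact pow_ne_zero _ (by decide)

open scoped Classical in
/-- point mass of value `r` at the `V`-cell of `y` -/
noncomputable def pt (V : Submodule F (Ω → F)) (y : Ω) (r : R) : Ω → R :=
  fun x => if (∀ u ∈ V, u x = u y) then r else 0

lemma pt_dep (V : Submodule F (Ω → F)) (y : Ω) (r : R) : Dep V (pt V y r) := by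
  intro x x' h
  have : (∀ u ∈ V, u x = u y) ↔ (∀ u ∈ V, u x' = u y) := by
    constructor
    · intro h' u hu; rw [← h u hu]; exact h' u hu
    · intro h' u hu; rw [h u hu]; exact h' u hu
  unfold pt
  by_cases hh : ∀ u ∈ V, u x = u y
  · rw [if_pos hh, if_pos (this.1 hh)]
  · rw [if_neg hh, if_neg (fun h' => hh (this.2 h'))]

/-- induction principle : every function depending only on a finite `V` is a sum of point masses -/
lemma dep_point_induction (V : Submodule F (Ω → F)) (hV : (V : Set (Ω → F)).Finite)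
    (Q : (Ω → R) → Prop) (h0 : Q 0)
    (hadd : ∀ f g, Dep V f → Dep V g → Q f → Q g → Q (f + g))
    (hpt : ∀ y r, Q (pt V y r)) (f : Ω → R) (hf : Dep V f) : Q f := by
  classical
  have : Fintype V := hV.fintype
  let e : Ω → (V → F) := fun x v => v.1 x
  have hfin : (Set.range e).Finite := Set.toFinite _
  have ex : ∀ p : Set.range e, ∃ x, e x = p.1 := fun p => p.2
  choose q hp using ex
  have : Fintype (Set.range e) := hfin.fintype
  have hdec : f = ∑ p : Set.range e, pt V (q p) (f (q p)) := by
    funext x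
    rw [Finset.sum_apply]
    have hx : e x ∈ Set.range e := ⟨x, rfl⟩
    rw [Finset.sum_eq_single (⟨e x, hx⟩ : Set.range e)]
    · have h1 : ∀ u ∈ V, u x = u (q ⟨e x, hx⟩) := by
        intro u hu
        have := congrFun (hp ⟨e x, hx⟩) ⟨u, hu⟩
        exact this.symm
      simp only [pt]
      rw [if_pos h1]
      exact hf _ _ h1
    · intro p _ hne
      simp only [pt]
      rw [if_neg]
      intro hall
      apply hne
      apply Subtype.ext
      rw [← hp p]
      funext v
      exact (hall v.1 v.2).symm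
    · intro h; exact absurd (Finset.mem_univ _) h
  rw [hdec]
  have gen : ∀ s : Finset (Set.range e), Q (∑ p ∈ s, pt V (q p) (f (q p))) := by
    intro s
    induction s using Finset.induction_on with
    | empty => simpa using h0
    | insert a s ha ih =>
      rw [Finset.sum_insert ha]
      exact hadd _ _ (pt_dep _ _ _) (Dep.sum _ _ fun i _ => pt_dep _ _ _) (hpt _ _) ih
  exact gen _

/-- induction principle : every function depending only on a finite `V` is a sum of scaled characters -/
lemma dep_induction (V : Submodule F (Ω → F)) (hV : (V : Set (Ω → F)).Finite)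
    (Q : (Ω → R) → Prop) (h0 : Q 0)
    (hadd : ∀ f g, Dep V f → Dep V g → Q f → Q g → Q (f + g))
    (hch : ∀ v ∈ V, ∀ r : R, Q (fun x => r * ze (v x))) (f : Ω → R) (hf : Dep V f) : Q f := by
  classical
  refine dep_point_induction V hV Q h0 hadd ?_ f hf
  have : Fintype V := hV.fintype
  intro y r
  have hc : ∀ v ∈ V, ∀ r : R, Dep V (fun x => r * ze (v x)) := fun v hv r =>
    (Dep.of_mem hv).comp (fun s => r * ze s)
  have e : pt V y r =
      ∑ v : V, (fun x => (r * (Fintype.card V : R)⁻¹ * ze (-(v.1 y))) * ze (v.1 x)) := by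
    funext x
    rw [Finset.sum_apply]
    have := char_sum V x y
    have h2 : ∑ v : V, (r * (Fintype.card V : R)⁻¹ * ze (-(v.1 y))) * ze (v.1 x) =
        r * (Fintype.card V : R)⁻¹ * ∑ v : V, ze (v.1 x - v.1 y) := by
      rw [Finset.mul_sum]
      refine Finset.sum_congr rfl fun v _ => ?_
      rw [sub_eq_add_neg, ze_add]
      ring
    rw [h2, this]
    simp only [pt]
    split_ifs
    · rw [mul_assoc, inv_mul_cancel₀ (card_ne_zero V)]; simp
    · simp
  rw [e]
  have gen : ∀ s : Finset V, Q (∑ v ∈ s, (fun x => (r * (Fintype.card V : R)⁻¹ * ze (-(v.1 y))) * ze (v.1 x))) := by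
    intro s
    induction s using Finset.induction_on with
    | empty => simpa using h0
    | insert a s ha ih =>
      rw [Finset.sum_insert ha]
      exact hadd _ _ (hc _ a.2 _) (Dep.sum _ _ fun i _ => hc _ i.2 _) (hch _ a.2 _) ih
  exact gen _

end Pool.Agent.Helper638.CDB
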