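import Pool.Agent.Helper638.CDB.Basics

set_option autoImplicit false

open scoped commutatorElement

namespace Pool.Agent.Helper638.CDB

variable {Ω : Type}

/-- combinatorial data of five hyperplanes `W i` in general position inside `V` -/
structure Glue (Ω : Type) where
  V : Submodule F (Ω → F)
  W : F → Submodule F (Ω → F)
  α : F → Ω → F
  σ : F → F → Ω → Ω
  fin : (V : Set (Ω → F)).Finite
  W_le : ∀ i, W i ≤ V
  one_mem : ∀ i, (1 : Ω → F) ∈ W i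
  α_mem : ∀ i, α i ∈ V
  α_W : ∀ i j, i ≠ j → α i ∈ W j
  dec : ∀ i, ∀ u ∈ V, ∃ s : F, u - s • α i ∈ W i
  σ_W : ∀ i s x, ∀ u ∈ W i, u (σ i s x) = u x
  σ_α : ∀ i s x, α i (σ i s x) = s

/-- the properties carried through the induction -/
structure Good {G : Type} [Group G] (B : Subgroup G) (c : G) (V : Submodule F (Ω → F))
    (Z : (Ω → F) → G) (P : (Ω → R) → G) : Prop where
  Z_add : ∀ φ ∈ V * V, ∀ ψ ∈ V * V, Z (φ + ψ) = Z φ * Z ψ
  P_add : ∀ f g, Dep V f → Dep V g → P (f + g) = P f * P g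
  P_one : P 1 = c
  act : ∀ φ ∈ V * V, ∀ f, Dep V f → Z φ * P f * (Z φ)⁻¹ = P (fun x => ze (φ x) * f x)
  loc : ∀ f g, Dep V f → Dep V g → (∀ x, f x = 0 ∨ g x = 0) → ∀ b ∈ B, Commute (P g) ⁅b, P f⁆
  ltp : ∀ u ∈ V, ∀ v ∈ V, ∀ f, Dep V f → (∀ x, f x = 0 ∨ u x = 0) → ∀ b ∈ B,
    Commute (Z (u * v)) ⁅b, P f⁆

end Pool.Agent.Helper638.CDB
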