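import Mathlib

set_option autoImplicit false

namespace Pool.Agent.Helper638.CDB.ExM

/-- `M` has a normal chain of length `l` with nilpotent factors -/
def NL (M : Type) [Group M] (l : ℕ) : Prop :=
  ∃ K : ℕ → Subgroup M, K 0 = ⊥ ∧ K l = ⊤ ∧ (∀ i, (K i).Normal) ∧
    ∀ i, i < l → K i ≤ K (i + 1) ∧
      ∃ c : ℕ, ∃ L : ℕ → Subgroup M, L 0 = K (i + 1) ∧
        (∀ j, L (j + 1) = ⁅L j, K (i + 1)⁆) ∧ L c ≤ K i

open RegularWreathProduct

private def J16_D {Q A : Type} [Group Q] [AddCommGroup A] (m : Q) (F : Q → A) : Q → A :=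
  fun x => F x - F (m⁻¹ * x)

private theorem J16_iter_comp {Q A B : Type} [Group Q] [AddCommGroup A] [AddCommGroup B] (m : Q)
    (φ : A →+ B) (F : Q → A) (k : ℕ) :
    (J16_D m)^[k] (fun x => φ (F x)) = fun x => φ ((J16_D m)^[k] F x) := by
  induction k with
  | zero => rfl
  | succ k ih =>
    rw [Function.iterate_succ_apply', Function.iterate_succ_apply', ih]
    funext x
    simp [J16_D]

private def J16_T {Q : Type} [Group Q] (p : ℕ) (m : Q) : Module.End ℤ (Q → ZMod p) :=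
  LinearMap.funLeft ℤ (ZMod p) (fun x => m⁻¹ * x)

private theorem J16_T_apply {Q : Type} [Group Q] (p : ℕ) (m : Q) (F : Q → ZMod p) (x : Q) :
    J16_T p m F x = F (m⁻¹ * x) := rfl

private theorem J16_T_pow {Q : Type} [Group Q] (p : ℕ) (m : Q) (k : ℕ) :
    ∀ (F : Q → ZMod p) (x : Q), ((J16_T p m) ^ k) F x = F ((m ^ k)⁻¹ * x) := by
  induction k with
  | zero => intro F x; simp
  | succ k ih =>
    intro F x
    rw [pow_succ, Module.End.mul_apply, ih, J16_T_apply]
    congr 1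
    rw [pow_succ, mul_inv_rev, mul_assoc]

private theorem J16_sub_pow {Q : Type} [Group Q] (p : ℕ) (m : Q) (k : ℕ) (F : Q → ZMod p) :
    ((1 - J16_T p m) ^ k) F = (J16_D m)^[k] F := by
  induction k with
  | zero => simp
  | succ k ih =>
    rw [pow_succ', Module.End.mul_apply, ih, Function.iterate_succ_apply']
    rfl

private theorem J16_char {Q : Type} [Group Q] (p : ℕ) [Fact p.Prime] (m : Q) (c : ℕ)
    (F : Q → ZMod p) (h : (J16_D m)^[c] F = 0) : F = fun x => F ((m ^ p ^ c)⁻¹ * x) := by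
  have hnt : Nontrivial (Module.End ℤ (Q → ZMod p)) := inferInstance
  have hch : CharP (Module.End ℤ (Q → ZMod p)) p := by
    rw [CharP.charP_iff_prime_eq_zero (Fact.out : p.Prime)]
    ext F x
    simp
  have h1 : ((1 - J16_T p m) ^ p ^ c) F = 0 := by
    have h2 : c ≤ p ^ c := (Nat.lt_pow_self (Fact.out : p.Prime).one_lt).le
    obtain ⟨d, hd⟩ := Nat.exists_eq_add_of_le h2
    rw [hd, add_comm, pow_add, Module.End.mul_apply, J16_sub_pow p m c, h, map_zero]
  have h6 : (1 - J16_T p m) ^ p ^ c = 1 ^ p ^ c - (J16_T p m) ^ p ^ c :=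
    sub_pow_char_pow_of_commute (p := p) (n := c) (Commute.one_left (J16_T p m))
  rw [h6, one_pow, LinearMap.sub_apply, Module.End.one_apply, sub_eq_zero] at h1
  funext x
  have h3 := congrFun h1 x
  rwa [J16_T_pow] at h3

private theorem J16_delta {Q : Type} [Group Q] [DecidableEq Q] (p : ℕ) [Fact p.Prime] (m : Q)
    (c : ℕ) (hp : p ∣ 6) (h : ∀ F : Q → ZMod 6, (J16_D m)^[c] F = 0) : m ^ p ^ c = 1 := by
  have h1 := J16_iter_comp m (ZMod.castHom hp (ZMod p)).toAddMonoidHom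
    (Pi.single 1 1 : Q → ZMod 6) c
  rw [h] at h1
  have h2 : (fun x => (ZMod.castHom hp (ZMod p)).toAddMonoidHom ((Pi.single 1 1 : Q → ZMod 6) x)) =
      (Pi.single 1 1 : Q → ZMod p) := by
    funext x
    by_cases hx : x = 1
    · subst hx
      show (ZMod.castHom hp (ZMod p)) ((Pi.single 1 1 : Q → ZMod 6) 1) = _
      rw [Pi.single_eq_same, Pi.single_eq_same, map_one]
    · show (ZMod.castHom hp (ZMod p)) ((Pi.single 1 1 : Q → ZMod 6) x) = _
      rw [Pi.single_eq_of_ne hx, Pi.single_eq_of_ne hx, map_zero]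
  rw [h2] at h1
  have h3 : (J16_D m)^[c] (Pi.single 1 1 : Q → ZMod p) = 0 := by
    rw [h1]; funext x; simp
  have h4 := congrFun (J16_char p m c _ h3) 1
  rw [Pi.single_eq_same, mul_one] at h4
  by_contra hne
  have h5 : (m ^ p ^ c)⁻¹ ≠ 1 := fun h => hne (inv_eq_one.1 h)
  rw [Pi.single_eq_of_ne h5] at h4
  exact one_ne_zero h4

private theorem J16_eq_one {Q : Type} [Group Q] (m : Q) (c : ℕ)
    (h : ∀ F : Q → ZMod 6, (J16_D m)^[c] F = 0) : m = 1 := by
  classical
  have : Fact (Nat.Prime 2) := ⟨Nat.prime_two⟩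
  have : Fact (Nat.Prime 3) := ⟨Nat.prime_three⟩
  have h2 := J16_delta 2 m c (by norm_num) h
  have h3 := J16_delta 3 m c (by norm_num) h
  have e2 := orderOf_dvd_of_pow_eq_one h2
  have e3 := orderOf_dvd_of_pow_eq_one h3
  have : orderOf m ∣ 1 := by
    have hc : Nat.Coprime (2 ^ c) (3 ^ c) := Nat.Coprime.pow _ _ (by norm_num)
    rw [← hc]
    exact Nat.dvd_gcd e2 e3
  exact orderOf_eq_one_iff.1 (Nat.dvd_one.1 this)

private theorem J16_comm {Q : Type} [Group Q] (f : Q → Multiplicative (ZMod 6))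
    (g : Multiplicative (ZMod 6) ≀ᵣ Q) :
    (⟨f, 1⟩ : Multiplicative (ZMod 6) ≀ᵣ Q) * g * (⟨f, 1⟩ : Multiplicative (ZMod 6) ≀ᵣ Q)⁻¹ * g⁻¹ =
      ⟨fun x => f x * (f (g.right⁻¹ * x))⁻¹, 1⟩ := by
  ext x
  · simp
    ring
  · simp

private def J16_b {Q : Type} [Group Q] (F : Q → ZMod 6) : Multiplicative (ZMod 6) ≀ᵣ Q :=
  ⟨fun x => Multiplicative.ofAdd (F x), 1⟩

private theorem J16_comm' {Q : Type} [Group Q] (F : Q → ZMod 6)
    (g : Multiplicative (ZMod 6) ≀ᵣ Q) :
    J16_b F * g * (J16_b F)⁻¹ * g⁻¹ = J16_b (J16_D g.right F) := by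
  unfold J16_b
  rw [J16_comm]
  congr 1
  funext x
  rw [J16_D, ofAdd_sub, div_eq_mul_inv]

private theorem J16_claim {Q : Type} [Group Q] (N : Subgroup (Multiplicative (ZMod 6) ≀ᵣ Q))
    (hN : N.Normal) (c : ℕ) (L : ℕ → Subgroup (Multiplicative (ZMod 6) ≀ᵣ Q)) (h0 : L 0 = N)
    (hL : ∀ j, L (j + 1) = ⁅L j, N⁆) (hc : L c ≤ ⊥) :
    N ≤ (rightHom : Multiplicative (ZMod 6) ≀ᵣ Q →* Q).ker := by
  intro g hg
  rw [MonoidHom.mem_ker]
  show g.right = 1
  apply J16_eq_one g.right (c + 1)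
  intro F
  have key : ∀ k, J16_b ((J16_D g.right)^[k + 1] F) ∈ L k := by
    intro k
    induction k with
    | zero =>
      rw [Function.iterate_succ_apply', Function.iterate_zero_apply, ← J16_comm', h0]
      exact N.mul_mem (hN.conj_mem g hg _) (N.inv_mem hg)
    | succ k ih =>
      rw [Function.iterate_succ_apply', ← J16_comm', hL]
      exact Subgroup.commutator_mem_commutator ih hg
  have h1 := hc (key c)
  rw [Subgroup.mem_bot] at h1
  have h2 := congrArg RegularWreathProduct.left h1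
  funext x
  have h3 := congrFun h2 x
  exact h3

private theorem J16_key {Q : Type} [Group Q] (l : ℕ)
    (h : NL (Multiplicative (ZMod 6) ≀ᵣ Q) (l + 1)) : NL Q l := by
  obtain ⟨K, h0, hl, hn, hK⟩ := h
  have hsurj : Function.Surjective (rightHom : Multiplicative (ZMod 6) ≀ᵣ Q →* Q) :=
    fun q => ⟨RegularWreathProduct.inl q, rfl⟩
  refine ⟨fun i => (K (i + 1)).map rightHom, ?_, ?_, fun i => (hn _).map _ hsurj, ?_⟩
  · obtain ⟨-, c, L, h1, h2, h3⟩ := hK 0 (Nat.succ_pos l)
    rw [h0] at h3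
    have h4 := J16_claim (K 1) (hn 1) c L h1 h2 h3
    rw [Subgroup.map_eq_bot_iff]
    exact h4
  · show (K (l + 1)).map rightHom = ⊤
    rw [hl]
    exact Subgroup.map_top_of_surjective _ hsurj
  · intro i hi
    obtain ⟨h1, c, L, h2, h3, h4⟩ := hK (i + 1) (by omega)
    refine ⟨Subgroup.map_mono h1, c, fun j => (L j).map rightHom, ?_, ?_, ?_⟩
    · show (L 0).map rightHom = (K (i + 1 + 1)).map rightHom
      rw [h2]
    · intro j
      show (L (j + 1)).map rightHom = ⁅(L j).map rightHom, (K (i + 1 + 1)).map rightHom⁆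
      rw [h3, Subgroup.map_commutator]
    · exact Subgroup.map_mono h4

private theorem J16_solv {Q : Type} [Group Q] [Group.IsSolvable Q] :
    Group.IsSolvable (Multiplicative (ZMod 6) ≀ᵣ Q) := by
  let ι : (Q → Multiplicative (ZMod 6)) →* Multiplicative (ZMod 6) ≀ᵣ Q :=
    { toFun := fun f => ⟨f, 1⟩
      map_one' := rfl
      map_mul' := by
        intro f g
        ext x
        · simp
        · simp }
  refine Group.isSolvable_of_ker_le_range ι rightHom ?_
  intro g hg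
  rw [MonoidHom.mem_ker] at hg
  have hg' : g.right = 1 := hg
  exact ⟨g.left, RegularWreathProduct.ext rfl hg'.symm⟩

theorem exists_M (l : ℕ) : ∃ (M : Type) (_ : Group M) (_ : Finite M),
    IsSolvable M ∧ (Nat.card M).Coprime 11 ∧ ¬ NL M l := by
  induction l with
  | zero =>
    refine ⟨Multiplicative (ZMod 2), inferInstance, inferInstance,
      (inferInstance : Group.IsSolvable (Multiplicative (ZMod 2))), ?_, ?_⟩
    · rw [Nat.card_congr Multiplicative.toAdd, Nat.card_zmod]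
      norm_num
    · rintro ⟨K, h0, h1, -⟩
      rw [h0] at h1
      exact bot_ne_top h1
  | succ l ih =>
    obtain ⟨M, hG, hF, hS, hc, hN⟩ := ih
    refine ⟨Multiplicative (ZMod 6) ≀ᵣ M, inferInstance, inferInstance, ?_, ?_, ?_⟩
    · have : Group.IsSolvable M := hS
      exact J16_solv
    · rw [RegularWreathProduct.card, Nat.card_congr Multiplicative.toAdd, Nat.card_zmod]
      exact Nat.Coprime.mul_left (Nat.Coprime.pow_left _ (by norm_num)) hc
    · exact fun h => hN (J16_key l h)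

end Pool.Agent.Helper638.CDB.ExM
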