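import Pool.Agent.Helper638.CDB.Model
import Pool.Agent.Helper638.CDB.ExM
import Pool.Agent.Helper638.CDB.BC

set_option autoImplicit false

open scoped commutatorElement

namespace Pool.Agent.Helper638.CDB

/-- transfer of a chain in a subgroup `H'` to a section of it -/
theorem NL_of_chain {G M : Type} [Group G] [Group M] (H' : Subgroup G) (l : ℕ)
    (K : ℕ → Subgroup G) (h0 : K 0 = ⊥) (hl : K l = H') (hK : ∀ i, K i ≤ H')
    (hn : ∀ i, ∀ h ∈ H', ∀ k ∈ K i, h * k * h⁻¹ ∈ K i)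
    (hs : ∀ i, i < l → K i ≤ K (i + 1) ∧
      ∃ c : ℕ, ∃ L : ℕ → Subgroup G, L 0 = K (i + 1) ∧
        (∀ j, L (j + 1) = ⁅L j, K (i + 1)⁆) ∧ L c ≤ K i)
    (U : Subgroup G) (hU : U ≤ H') (π : U →* M) (hπ : Function.Surjective π) : ExM.NL M l := by
  let Q : Subgroup G → Subgroup M := fun J => (J.subgroupOf U).map π
  have Qmono : ∀ J J' : Subgroup G, J ≤ J' → Q J ≤ Q J' := fun J J' h =>
    Subgroup.map_mono (Subgroup.comap_mono h)
  refine ⟨fun i => Q (K i), ?_, ?_, ?_, ?_⟩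
  · show Q (K 0) = ⊥
    rw [h0]
    show ((⊥ : Subgroup G).subgroupOf U).map π = ⊥
    rw [Subgroup.bot_subgroupOf, Subgroup.map_bot]
  · show Q (K l) = ⊤
    rw [hl]
    show (H'.subgroupOf U).map π = ⊤
    rw [Subgroup.subgroupOf_eq_top.2 hU]
    exact Subgroup.map_top_of_surjective π hπ
  · intro i
    have : ((K i).subgroupOf U).Normal := by
      refine ⟨fun k hk u => ?_⟩
      rw [Subgroup.mem_subgroupOf] at hk ⊢
      exact hn i u.1 (hU u.2) k.1 hk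
    exact this.map π hπ
  · intro i hi
    obtain ⟨h1, c, L, hL0, hLs, hLc⟩ := hs i hi
    refine ⟨Qmono _ _ h1, c, fun j => Nat.rec (motive := fun _ => Subgroup M) (Q (K (i + 1)))
      (fun _ X => ⁅X, Q (K (i + 1))⁆) j, rfl, fun j => rfl, ?_⟩
    have key : ∀ j, (Nat.rec (motive := fun _ => Subgroup M) (Q (K (i + 1)))
      (fun _ X => ⁅X, Q (K (i + 1))⁆) j : Subgroup M) ≤ Q (L j) := by
      intro j
      induction j with
      | zero => rw [hL0]; exact le_rfl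
      | succ j ih =>
        show ⁅(Nat.rec (motive := fun _ => Subgroup M) (Q (K (i + 1)))
          (fun _ X => ⁅X, Q (K (i + 1))⁆) j : Subgroup M), Q (K (i + 1))⁆ ≤ Q (L (j + 1))
        refine (Subgroup.commutator_mono ih le_rfl).trans ?_
        show ⁅((L j).subgroupOf U).map π, ((K (i + 1)).subgroupOf U).map π⁆ ≤
          ((L (j + 1)).subgroupOf U).map π
        rw [← Subgroup.map_commutator]
        refine Subgroup.map_mono ?_
        rw [Subgroup.commutator_le, hLs j]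
        intro x hx y hy
        rw [Subgroup.mem_subgroupOf] at hx hy ⊢
        exact Subgroup.commutator_mem_commutator hx hy
    exact (key c).trans (Qmono _ _ hLc)

namespace Pres
open Geo

variable {H : Type} [Group H] (c τ : H) (B : Subgroup H)

/-- sections of finite-index normal subgroups -/
theorem exists_section (hc : c ^ 11 = 1) (hτ : τ ^ 5 = 1) (hτc : τ * c * τ⁻¹ = c ^ 3)
    (hcB : ∀ b ∈ B, c * b * c⁻¹ ∈ B)
    (hB : ∀ b ∈ B, b ∈ Subgroup.closure {g : H | ∃ b' ∈ B, ∃ k : ℕ, g = ⁅b', c ^ k⁆})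
    (N : Subgroup (G c τ B)) [N.Normal] [N.FiniteIndex] :
    ∃ (U : Subgroup (G c τ B)) (ev : U →* B), U ≤ N ∧ Function.Surjective ev := by
  obtain ⟨y0, w, γ, hwN, hw, hγ⟩ := exists_w c τ B hc hτ hτc N
  let U : Subgroup (G c τ B) :=
    { carrier := {g | g ∈ N ∧ ∃ γ : Geo.Ω → H, rho c τ B g = mo H γ ∧ γ y0 ∈ B}
      one_mem' := ⟨N.one_mem, 1, by rw [map_one, map_one], B.one_mem⟩
      mul_mem' := by
        rintro g g' ⟨h1, γ, h2, h3⟩ ⟨h1', γ', h2', h3'⟩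
        exact ⟨N.mul_mem h1 h1', γ * γ', by rw [map_mul, map_mul, h2, h2'], B.mul_mem h3 h3'⟩
      inv_mem' := by
        rintro g ⟨h1, γ, h2, h3⟩
        exact ⟨N.inv_mem h1, γ⁻¹, by rw [map_inv, map_inv, h2], B.inv_mem h3⟩ }
  have hval : ∀ g : G c τ B, ∀ γ : Geo.Ω → H, rho c τ B g = mo H γ →
      (rho c τ B g (y0, 1)).2 = γ y0 := by
    intro g γ h
    rw [h]
    show γ y0 * 1 = γ y0
    rw [mul_one]
  have hmem : ∀ g : U, (rho c τ B g.1 (y0, 1)).2 ∈ B := by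
    rintro ⟨g, h1, γ, h2, h3⟩
    show (rho c τ B g (y0, 1)).2 ∈ B
    rw [hval g γ h2]; exact h3
  let ev : U →* B := MonoidHom.mk' (fun g => ⟨(rho c τ B g.1 (y0, 1)).2, hmem g⟩) (by
    rintro ⟨g, h1, γ, h2, h3⟩ ⟨g', h1', γ', h2', h3'⟩
    apply Subtype.ext
    show (rho c τ B (g * g') (y0, 1)).2 = (rho c τ B g (y0, 1)).2 * (rho c τ B g' (y0, 1)).2
    have h4 : rho c τ B (g * g') = mo H (γ * γ') := by rw [map_mul, map_mul, h2, h2']
    rw [hval _ _ h2, hval _ _ h2', hval _ _ h4]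
    rfl)
  refine ⟨U, ev, fun g hg => hg.1, ?_⟩
  -- the range contains the commutators
  have hcpow : ∀ k : ℕ, ∀ b ∈ B, c ^ k * b * (c ^ k)⁻¹ ∈ B := by
    intro k
    induction k with
    | zero => intro b hb; simpa using hb
    | succ k ih =>
      intro b hb
      have e : c ^ (k + 1) * b * (c ^ (k + 1))⁻¹ = c ^ k * (c * b * c⁻¹) * (c ^ k)⁻¹ := by
        rw [pow_succ]; group
      rw [e]
      exact ih _ (hcB b hb)
  have key : ∀ b ∈ B, b ∈ ev.range.map B.subtype := by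
    intro b hb
    have h1 := hB b hb
    refine (Subgroup.closure_le _).2 ?_ h1
    rintro _ ⟨b', hb', k, rfl⟩
    have hN : ⁅kB c τ B ⟨b', hb'⟩, w ^ k⁆ ∈ N := by
      rw [commutatorElement_def]
      exact N.mul_mem (Subgroup.Normal.conj_mem inferInstance _ (N.pow_mem hwN k) _)
        (N.inv_mem (N.pow_mem hwN k))
    have hr : rho c τ B ⁅kB c τ B ⟨b', hb'⟩, w ^ k⁆ = mo H ⁅cst Geo.Ω H b', γ ^ k⁆ := by
      rw [map_commutatorElement, map_commutatorElement, map_pow, map_pow, hw, kB_apply,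
        rho_em c τ B (cst_mem hb')]
    have hv : (⁅cst Geo.Ω H b', γ ^ k⁆ : Geo.Ω → H) y0 = ⁅b', c ^ k⁆ := by
      show ⁅b', (γ y0) ^ k⁆ = _
      rw [hγ]
    have hvB : ⁅b', c ^ k⁆ ∈ B := by
      rw [commutatorElement_def]
      have e : b' * c ^ k * b'⁻¹ * (c ^ k)⁻¹ = b' * (c ^ k * b'⁻¹ * (c ^ k)⁻¹) := by group
      rw [e]
      exact B.mul_mem hb' (hcpow k _ (B.inv_mem hb'))
    refine ⟨ev ⟨⁅kB c τ B ⟨b', hb'⟩, w ^ k⁆, hN, _, hr, by rw [hv]; exact hvB⟩, ⟨_, rfl⟩, ?_⟩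
    show (rho c τ B ⁅kB c τ B ⟨b', hb'⟩, w ^ k⁆ (y0, 1)).2 = _
    rw [hval _ _ hr, hv]
  intro b
  obtain ⟨b', ⟨u, rfl⟩, hb'⟩ := key b.1 b.2
  exact ⟨u, Subtype.ext hb'⟩

end Pres

/-- the main theorem -/
theorem main (l : ℕ) : ∃ (G : Type) (_ : Group G), IsSolvable G ∧
    (∃ (n : ℕ) (φ : FreeGroup (Fin n) →* G), Function.Surjective φ ∧
      ∃ S : Finset (FreeGroup (Fin n)),
        Subgroup.normalClosure (↑S : Set (FreeGroup (Fin n))) = φ.ker) ∧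
    ¬ ∃ H : Subgroup G, H.index ≠ 0 ∧
        ∃ K : ℕ → Subgroup G, K 0 = ⊥ ∧ K l = H ∧
          (∀ i, K i ≤ H) ∧
          (∀ i, ∀ h ∈ H, ∀ k ∈ K i, h * k * h⁻¹ ∈ K i) ∧
          ∀ i, i < l → K i ≤ K (i + 1) ∧
            ∃ c : ℕ, ∃ L : ℕ → Subgroup G, L 0 = K (i + 1) ∧
              (∀ j, L (j + 1) = ⁅L j, K (i + 1)⁆) ∧ L c ≤ K i := by
  obtain ⟨M, hMG, hMF, hMS, hM11, hMN⟩ := ExM.exists_M l
  obtain ⟨H, hG, hF, c, τ, B, π, hc, hτ, hτc, hcB, hτB, hB, hBS, hπ⟩ := BC.exists_BC M hM11 hMS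
  refine ⟨Pres.G c τ B, inferInstance, Pres.solvable c τ B hc hτ hτc hcB hτB hB hBS,
    Pres.fp c τ B, ?_⟩
  rintro ⟨H', hH', K, h0, hl, hK, hn, hs⟩
  apply hMN
  have : H'.FiniteIndex := ⟨hH'⟩
  obtain ⟨U, ev, hUN, hev⟩ := Pres.exists_section c τ B hc hτ hτc hcB hB H'.normalCore
  exact NL_of_chain H' l K h0 hl hK hn hs U (hUN.trans (Subgroup.normalCore_le H')) (π.comp ev)
    (hπ.comp hev)

end Pool.Agent.Helper638.CDB
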