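import Pool.Agent.Helper638.CDB.Defs

set_option autoImplicit false

namespace Pool.Agent.Helper638.CDB.Geo

/-- the field of rational functions over `ZMod 5` -/
abbrev K := RatFunc F

/-- all `F`-linear functionals on `K` -/
abbrev Ω := Module.Dual F K

/-- polynomials of degree at most `d`, inside `K` -/
def P (d : ℕ) : Submodule F K where
  carrier := {a | ∃ f : Polynomial F, f.natDegree ≤ d ∧ a = algebraMap (Polynomial F) K f}
  zero_mem' := ⟨0, by simp, by simp⟩
  add_mem' := by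
    rintro a b ⟨f, hf, rfl⟩ ⟨g, hg, rfl⟩
    exact ⟨f + g, (Polynomial.natDegree_add_le _ _).trans (max_le hf hg), by simp⟩
  smul_mem' := by
    rintro s a ⟨f, hf, rfl⟩
    exact ⟨s • f, (Polynomial.natDegree_smul_le _ _).trans hf, by
      rw [Algebra.smul_def, Algebra.smul_def, map_mul]; rfl⟩

/-- `X - i` as an element of `K` -/
noncomputable def l (i : F) : K := algebraMap (Polynomial F) K (Polynomial.X - Polynomial.C i)

/-- `(X - i) * P d` -/
noncomputable def lP (i : F) (d : ℕ) : Submodule F K := (P d).map (LinearMap.mulLeft F (l i))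

/-- affine functions `y ↦ s + y a`, `a ∈ P` -/
def Aff (P : Submodule F K) : Submodule F (Ω → F) where
  carrier := {φ | ∃ s : F, ∃ a ∈ P, φ = fun y => s + y a}
  zero_mem' := ⟨0, 0, P.zero_mem, by funext y; simp⟩
  add_mem' := by
    rintro _ _ ⟨s, a, ha, rfl⟩ ⟨t, b, hb, rfl⟩
    exact ⟨s + t, a + b, P.add_mem ha hb, by funext y; simp; ring⟩
  smul_mem' := by
    rintro r _ ⟨s, a, ha, rfl⟩
    exact ⟨r * s, r • a, P.smul_mem r ha, by funext y; simp; ring⟩

noncomputable def V (d : ℕ) : Submodule F (Ω → F) := Aff (P d)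
noncomputable def A (i : F) (d : ℕ) : Submodule F (Ω → F) := Aff (lP i d)

lemma l_ne_zero (i : F) : l i ≠ 0 := by
  unfold l
  intro h
  rw [map_eq_zero_iff _ (IsFractionRing.injective (Polynomial F) K)] at h
  exact Polynomial.X_sub_C_ne_zero i h

/-- precomposition of a functional with division by `X - i` -/
noncomputable def θ (i : F) : Ω ≃ Ω where
  toFun y := y ∘ₗ LinearMap.mulLeft F (l i)⁻¹
  invFun y := y ∘ₗ LinearMap.mulLeft F (l i)
  left_inv := by
    intro y
    ext a
    simp only [LinearMap.comp_apply, LinearMap.mulLeft_apply]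
    rw [inv_mul_cancel_left₀ (l_ne_zero i)]
  right_inv := by
    intro y
    ext a
    simp only [LinearMap.comp_apply, LinearMap.mulLeft_apply]
    rw [mul_inv_cancel_left₀ (l_ne_zero i)]

lemma θ_apply (i : F) (y : Ω) (a : K) : θ i y a = y ((l i)⁻¹ * a) := rfl

lemma θ_symm_apply (i : F) (y : Ω) (a : K) : (θ i).symm y a = y (l i * a) := rfl

lemma θ_comm (i j : F) (y : Ω) : θ i (θ j y) = θ j (θ i y) := by
  ext a
  simp only [θ_apply]
  congr 1
  ring

lemma mem_P {d : ℕ} {a : K} : a ∈ P d ↔ ∃ f : Polynomial F, f.natDegree ≤ d ∧ a = algebraMap (Polynomial F) K f :=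
  Iff.rfl

lemma mem_lP {i : F} {d : ℕ} {a : K} : a ∈ lP i d ↔ ∃ f ∈ P d, l i * f = a := Iff.rfl

lemma mem_Aff {Q : Submodule F K} {u : Ω → F} : u ∈ Aff Q ↔ ∃ s : F, ∃ a ∈ Q, u = fun y => s + y a :=
  Iff.rfl

lemma P_mono (d : ℕ) : P d ≤ P (d + 1) := by
  rintro a ⟨f, hf, rfl⟩
  exact ⟨f, by omega, rfl⟩

lemma Aff_mono {Q Q' : Submodule F K} (h : Q ≤ Q') : Aff Q ≤ Aff Q' := by
  rintro u ⟨s, a, ha, rfl⟩
  exact ⟨s, a, h ha, rfl⟩

lemma V_mono (d : ℕ) : V d ≤ V (d + 1) := Aff_mono (P_mono d)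

lemma A_mono (i : F) (d : ℕ) : A i d ≤ A i (d + 1) :=
  Aff_mono (Submodule.map_mono (P_mono d))

lemma A_le_V (i : F) (d : ℕ) : A i d ≤ V (d + 1) := by
  apply Aff_mono
  rintro a ⟨_, ⟨f, hf, rfl⟩, rfl⟩
  refine ⟨(Polynomial.X - Polynomial.C i) * f, ?_, ?_⟩
  · refine le_trans Polynomial.natDegree_mul_le ?_
    rw [Polynomial.natDegree_X_sub_C]
    omega
  · rw [map_mul]
    rfl

lemma one_mem_V (d : ℕ) : (1 : Ω → F) ∈ V d :=
  ⟨1, 0, (P d).zero_mem, by funext y; simp⟩

/-- composition with `θ i` is a bijection `A i d → V d` -/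
lemma comp_θ_mem_iff (i : F) (d : ℕ) (u : Ω → F) : (fun y => u (θ i y)) ∈ V d ↔ u ∈ A i d := by
  constructor
  · rintro ⟨s, a, ha, h⟩
    refine ⟨s, l i * a, ⟨a, ha, rfl⟩, ?_⟩
    funext z
    have h1 := congrFun h ((θ i).symm z)
    simp only [Equiv.apply_symm_apply] at h1
    rw [h1, θ_symm_apply]
  · rintro ⟨s, _, ⟨a, ha, rfl⟩, rfl⟩
    refine ⟨s, a, ha, ?_⟩
    funext y
    show s + θ i y (l i * a) = s + y a
    rw [θ_apply, inv_mul_cancel_left₀ (l_ne_zero i)]

lemma poly_div (i : F) (d : ℕ) (f : Polynomial F) (hf : f.natDegree ≤ d + 1) (h0 : f.eval i = 0) :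
    ∃ g : Polynomial F, g.natDegree ≤ d ∧ f = (Polynomial.X - Polynomial.C i) * g := by
  obtain ⟨g, hg⟩ := Polynomial.dvd_iff_isRoot.2 (show f.IsRoot i from h0)
  refine ⟨g, ?_, hg⟩
  by_cases hg0 : g = 0
  · rw [hg0]; simp
  · rw [hg, Polynomial.natDegree_mul (Polynomial.X_sub_C_ne_zero i) hg0,
      Polynomial.natDegree_X_sub_C] at hf
    omega

lemma comp_θ_mem_A (i j : F) (hij : i ≠ j) (d : ℕ) (u : Ω → F) (hi : u ∈ A i (d + 1))
    (hj : u ∈ A j (d + 1)) : (fun y => u (θ i y)) ∈ A j d := by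
  obtain ⟨s, _, ⟨_, ⟨f, hf, rfl⟩, rfl⟩, hu⟩ := hi
  obtain ⟨s', _, ⟨_, ⟨f', hf', rfl⟩, rfl⟩, hu'⟩ := hj
  have hs : s = s' := by
    have h1 := congrFun (hu.symm.trans hu') 0
    simpa using h1
  subst hs
  have ha : l i * algebraMap (Polynomial F) K f = l j * algebraMap (Polynomial F) K f' := by
    rw [← sub_eq_zero]
    apply (Module.forall_dual_apply_eq_zero_iff F _).1
    intro φ
    have h1 := congrFun (hu.symm.trans hu') φ
    simp only [LinearMap.mulLeft_apply, add_right_inj] at h1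
    rw [map_sub, h1, sub_self]
  have hp : (Polynomial.X - Polynomial.C i) * f = (Polynomial.X - Polynomial.C j) * f' := by
    apply IsFractionRing.injective (Polynomial F) K
    rw [map_mul, map_mul]
    exact ha
  have hroot : f.eval j = 0 := by
    have h1 := congrArg (Polynomial.eval j) hp
    simp only [Polynomial.eval_mul, Polynomial.eval_sub, Polynomial.eval_X, Polynomial.eval_C,
      sub_self, zero_mul] at h1
    rcases mul_eq_zero.1 h1 with h2 | h2
    · exact absurd (sub_eq_zero.1 h2).symm hij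
    · exact h2
  obtain ⟨g, hg, hfg⟩ := poly_div j d f hf hroot
  refine ⟨s, algebraMap (Polynomial F) K f, ⟨algebraMap (Polynomial F) K g, ⟨g, hg, rfl⟩, ?_⟩, ?_⟩
  · rw [hfg, map_mul]
    rfl
  · funext y
    rw [hu]
    show s + θ i y (l i * algebraMap (Polynomial F) K f) = _
    rw [θ_apply, inv_mul_cancel_left₀ (l_ne_zero i)]

/-- the Lagrange polynomials -/
noncomputable def Lp (i : F) : Polynomial F :=
  -∏ j ∈ Finset.univ.erase i, (Polynomial.X - Polynomial.C j)

lemma Lp_eval (i : F) : (Lp i).eval i = 1 := by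
  have h : ∀ i : F, -∏ j ∈ Finset.univ.erase i, (i - j) = 1 := by decide
  rw [Lp, Polynomial.eval_neg, Polynomial.eval_prod]
  simpa using h i

lemma Lp_eval_ne (i j : F) (hij : i ≠ j) : (Lp i).eval j = 0 := by
  rw [Lp, Polynomial.eval_neg, Polynomial.eval_prod, neg_eq_zero]
  apply Finset.prod_eq_zero (Finset.mem_erase.2 ⟨hij.symm, Finset.mem_univ j⟩)
  simp

lemma Lp_deg (i : F) : (Lp i).natDegree ≤ 4 := by
  rw [Lp, Polynomial.natDegree_neg]
  refine le_trans (Polynomial.natDegree_prod_le _ _) ?_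
  simp only [Polynomial.natDegree_X_sub_C, Finset.sum_const, smul_eq_mul, mul_one]
  rw [Finset.card_erase_of_mem (Finset.mem_univ i), Finset.card_univ, ZMod.card]

noncomputable def lam (i : F) : K := algebraMap (Polynomial F) K (Lp i)

lemma lam_notMem (i : F) (d : ℕ) : lam i ∉ lP i d := by
  rintro ⟨_, ⟨g, hg, rfl⟩, h⟩
  have hp : (Polynomial.X - Polynomial.C i) * g = Lp i := by
    apply IsFractionRing.injective (Polynomial F) K
    rw [map_mul]
    exact h
  have h1 := congrArg (Polynomial.eval i) hp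
  rw [Lp_eval] at h1
  simp at h1

lemma exists_e (i : F) (d : ℕ) : ∃ e : Ω, (∀ a ∈ lP i d, e a = 0) ∧ e (lam i) = 1 := by
  obtain ⟨f, hf, hle⟩ := Submodule.exists_le_ker_of_notMem (lam_notMem i d)
  refine ⟨(f (lam i))⁻¹ • f, ?_, ?_⟩
  · intro a ha
    have : f a = 0 := hle ha
    simp [this]
  · simp [hf]

lemma V_finite (d : ℕ) : (V d : Set (Ω → F)).Finite := by
  let g : F × (Fin (d + 1) → F) → (Ω → F) := fun p y =>
    p.1 + y (algebraMap (Polynomial F) K (∑ i : Fin (d + 1), Polynomial.monomial (i : ℕ) (p.2 i)))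
  apply (Set.finite_range g).subset
  rintro u ⟨s, _, ⟨f, hf, rfl⟩, rfl⟩
  refine ⟨(s, fun i => f.coeff i), ?_⟩
  have h1 : f = ∑ i : Fin (d + 1), Polynomial.monomial (i : ℕ) (f.coeff i) := by
    conv_lhs => rw [Polynomial.as_sum_range' f (d + 1) (by omega)]
    rw [Finset.sum_range]
  show (fun y : Ω => s + y (algebraMap (Polynomial F) K (∑ i : Fin (d + 1), Polynomial.monomial (i : ℕ) (f.coeff i)))) = _
  rw [← h1]

/-- the hyperplane configuration -/
theorem exists_glue (d : ℕ) (hd : 3 ≤ d) : ∃ g : Glue Ω, g.V = V (d + 1) ∧ ∀ i, g.W i = A i d := by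
  choose e he0 he1 using fun i => exists_e i d
  refine ⟨{ V := V (d + 1)
            W := fun i => A i d
            α := fun i y => y (lam i)
            σ := fun i s y => y + (s - y (lam i)) • e i
            fin := V_finite (d + 1)
            W_le := fun i => A_le_V i d
            one_mem := fun i => ⟨1, 0, (lP i d).zero_mem, by funext y; simp⟩
            α_mem := fun i => ⟨0, lam i, ⟨Lp i, le_trans (Lp_deg i) (by omega), rfl⟩, by funext y; simp⟩
            α_W := ?_
            dec := ?_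
            σ_W := ?_
            σ_α := ?_ }, rfl, fun i => rfl⟩
  · intro i j hij
    obtain ⟨g, hg, h⟩ := poly_div j 3 (Lp i) (Lp_deg i) (Lp_eval_ne i j hij)
    refine ⟨0, lam i, ⟨algebraMap (Polynomial F) K g, ⟨g, by omega, rfl⟩, ?_⟩, by funext y; simp⟩
    unfold lam
    rw [h, map_mul]
    rfl
  · rintro i _ ⟨s, _, ⟨f, hf, rfl⟩, rfl⟩
    refine ⟨f.eval i, s, algebraMap (Polynomial F) K (f - f.eval i • Lp i), ?_, ?_⟩
    · obtain ⟨g, hg, h⟩ := poly_div i d (f - f.eval i • Lp i) (by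
        refine le_trans (Polynomial.natDegree_sub_le _ _) (max_le hf ?_)
        refine le_trans (Polynomial.natDegree_smul_le _ _) ?_
        have := Lp_deg i
        omega) (by
        rw [Polynomial.eval_sub, Polynomial.eval_smul, Lp_eval]
        simp)
      refine ⟨algebraMap (Polynomial F) K g, ⟨g, hg, rfl⟩, ?_⟩
      rw [h, map_mul]
      rfl
    · funext y
      have h1 : algebraMap (Polynomial F) K (f - f.eval i • Lp i) =
          algebraMap (Polynomial F) K f - f.eval i • lam i := by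
        rw [map_sub]
        congr 1
        unfold lam
        rw [Algebra.smul_def, Algebra.smul_def, map_mul]
        rfl
      rw [h1, map_sub, map_smul]
      simp only [Pi.sub_apply, Pi.smul_apply]
      ring
  · rintro i s x _ ⟨s0, a, ha, rfl⟩
    simp [he0 i a ha]
  · intro i s x
    simp [he1 i]

end Pool.Agent.Helper638.CDB.Geo
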