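import Pool.Agent.Helper638.CDB.GluePsi4

set_option autoImplicit false

open scoped commutatorElement

namespace Pool.Agent.Helper638.CDB

variable {Ω : Type} {G : Type} [Group G]

/-- refined induction principle -/
lemma dep_point_induction' (V : Submodule F (Ω → F)) (hV : (V : Set (Ω → F)).Finite)
    (Q : (Ω → R) → Prop) (h0 : Q 0)
    (hadd : ∀ f g, Dep V f → Dep V g → Q f → Q g → Q (f + g))
    (f : Ω → R) (hf : Dep V f) (hpt : ∀ y, Q (pt V y (f y))) : Q f := by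
  classical
  have : Fintype V := hV.fintype
  let e : Ω → (V → F) := fun x v => v.1 x
  have hfin : (Set.range e).Finite := Set.toFinite _
  have ex : ∀ p : Set.range e, ∃ x, e x = p.1 := fun p => p.2
  choose q hp using ex
  have : Fintype (Set.range e) := hfin.fintype
  have hdec : f = ∑ p : Set.range e, pt V (q p) (f (q p)) := by
    funext x
    rw [Finset.sum_apply]
    have hx : e x ∈ Set.range e := ⟨x, rfl⟩
    rw [Finset.sum_eq_single (⟨e x, hx⟩ : Set.range e)]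
    · have h1 : ∀ u ∈ V, u x = u (q ⟨e x, hx⟩) := by
        intro u hu
        have := congrFun (hp ⟨e x, hx⟩) ⟨u, hu⟩
        exact this.symm
      simp only [pt]
      rw [if_pos h1]
      exact hf _ _ h1
    · intro p _ hne
      simp only [pt]
      rw [if_neg]
      intro hall
      apply hne
      apply Subtype.ext
      rw [← hp p]
      funext v
      exact (hall v.1 v.2).symm
    · intro h; exact absurd (Finset.mem_univ _) h
  rw [hdec]
  have gen : ∀ s : Finset (Set.range e), Q (∑ p ∈ s, pt V (q p) (f (q p))) := by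
    intro s
    induction s using Finset.induction_on with
    | empty => simpa using h0
    | insert a s ha ih =>
      rw [Finset.sum_insert ha]
      exact hadd _ _ (pt_dep _ _ _) (Dep.sum _ _ fun i _ => pt_dep _ _ _) (hpt _) ih
  exact gen _

lemma pt_zero (V : Submodule F (Ω → F)) (y : Ω) : pt V y 0 = 0 := by
  funext x; unfold pt; simp

lemma comm_mul' {X b A C : G} (h1 : Commute X ⁅b, A⁆) (h2 : Commute X A) (h3 : Commute X ⁅b, C⁆) :
    Commute X ⁅b, A * C⁆ := by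
  have e : ⁅b, A * C⁆ = ⁅b, A⁆ * (A * ⁅b, C⁆ * A⁻¹) := by
    simp only [commutatorElement_def]; group
  rw [e]
  exact h1.mul_right (Commute.conj_right' h3 h2)

lemma commute_closure {T : Set G} {X : G} (hT : ∀ x ∈ T, Commute X x) :
    ∀ x ∈ Subgroup.closure T, Commute X x := by
  intro x hx
  induction hx using Subgroup.closure_induction with
  | mem x hx => exact hT x hx
  | one => exact Commute.one_right _
  | mul x y _ _ hx hy => exact hx.mul_right hy
  | inv x _ hx => exact hx.inv_right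

lemma closure_commute₂ {T T' : Set G} (hT : ∀ x ∈ T, ∀ y ∈ T', Commute x y) :
    ∀ x ∈ Subgroup.closure T, ∀ y ∈ Subgroup.closure T', Commute x y := by
  intro x hx
  refine commute_closure ?_
  intro y hy
  exact (commute_closure (fun x hx => (hT x hx y hy).symm) x hx).symm

/-- the splitting of `B` along a `W`-measurable set, and its use -/
lemma transfer {B : Subgroup G} {c : G} {V W : Submodule F (Ω → F)} {Z : (Ω → F) → G}
    {Ψ : (Ω → R) → G} (hP : PsiOn c V Z Ψ) (hWV : W ≤ V)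
    (hB : ∀ b ∈ B, b ∈ Subgroup.closure {g : G | ∃ b' ∈ B, ∃ k : ℕ, g = ⁅b', c ^ k⁆})
    (hloc : ∀ f g, Dep W f → Dep W g → (∀ x, f x = 0 ∨ g x = 0) → ∀ b ∈ B,
      Commute (Ψ g) ⁅b, Ψ f⁆)
    (S : Ω → Prop) (hS : Dep W S) {X : G} {f : Ω → R} (hX : Commute X (Ψ f))
    (h3 : ∀ b ∈ B, ∀ h, Dep W h → (∀ x, h x = 0 ∨ S x) → Commute X ⁅b, Ψ h⁆)
    (h4 : ∀ b ∈ B, ∀ h, Dep W h → (∀ x, h x = 0 ∨ ¬ S x) → Commute (Ψ f) ⁅b, Ψ h⁆) :
    ∀ b ∈ B, Commute X ⁅b, Ψ f⁆ := by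
  classical
  let T : Set G := {x | ∃ b ∈ B, ∃ h, Dep W h ∧ (∀ x, h x = 0 ∨ S x) ∧ x = ⁅b, Ψ h⁆}
  let T' : Set G := {x | ∃ b ∈ B, ∃ h, Dep W h ∧ (∀ x, h x = 0 ∨ ¬ S x) ∧ x = ⁅b, Ψ h⁆}
  have hTT' : ∀ x ∈ T, ∀ y ∈ T', Commute x y := by
    rintro x ⟨b, hb, h, hh, hs, rfl⟩ y ⟨b', hb', h', hh', hs', rfl⟩
    have hd : ∀ x, h x = 0 ∨ h' x = 0 := by
      intro x
      rcases hs x with h1 | h1
      · exact Or.inl h1
      · rcases hs' x with h2 | h2
        · exact Or.inr h2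
        · exact absurd h1 h2
    have e1 : Commute (Ψ h') ⁅b, Ψ h⁆ := hloc h h' hh hh' hd b hb
    have e2 : Commute (Ψ h') ⁅b'⁻¹ * b, Ψ h⁆ := hloc h h' hh hh' hd _ (B.mul_mem (B.inv_mem hb') hb)
    have e3 : Commute (Ψ h') ⁅b'⁻¹, Ψ h⁆ := hloc h h' hh hh' hd _ (B.inv_mem hb')
    have e4 : Commute (Ψ h') (b'⁻¹ * ⁅b, Ψ h⁆ * b') := by
      have : b'⁻¹ * ⁅b, Ψ h⁆ * b' = ⁅b'⁻¹ * b, Ψ h⁆ * ⁅b'⁻¹, Ψ h⁆⁻¹ := by
        simp only [commutatorElement_def]; group
      rw [this]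
      exact e2.mul_right e3.inv_right
    have e5 : Commute (b' * Ψ h' * b'⁻¹) ⁅b, Ψ h⁆ := by
      have := commute_conj (Z := b') e4
      have e6 : b' * (b'⁻¹ * ⁅b, Ψ h⁆ * b') * b'⁻¹ = ⁅b, Ψ h⁆ := by group
      rwa [e6] at this
    rw [commutatorElement_def b' (Ψ h')]
    exact (e5.mul_left e1.inv_left).symm
  have hcl : ∀ x ∈ Subgroup.closure T, ∀ y ∈ Subgroup.closure T', Commute x y := by
    exact closure_commute₂ hTT'
  have fac : ∀ b ∈ B, ∃ β ∈ Subgroup.closure T, ∃ β' ∈ Subgroup.closure T', b = β * β' := by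
    intro b hb
    have hb' := hB b hb
    clear hb
    induction hb' using Subgroup.closure_induction with
    | mem x hx =>
      obtain ⟨b', hb', k, rfl⟩ := hx
      let e : Ω → R := fun x => if S x then (k : R) else 0
      let e' : Ω → R := fun x => if S x then 0 else (k : R)
      have he : Dep W e := by
        intro x y hxy
        show (if S x then (k : R) else 0) = if S y then (k : R) else 0
        have : S x = S y := hS x y hxy
        by_cases h1 : S x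
        · rw [if_pos h1, if_pos (this ▸ h1)]
        · rw [if_neg h1, if_neg (this ▸ h1)]
      have he' : Dep W e' := by
        intro x y hxy
        show (if S x then 0 else (k : R)) = if S y then 0 else (k : R)
        have : S x = S y := hS x y hxy
        by_cases h1 : S x
        · rw [if_pos h1, if_pos (this ▸ h1)]
        · rw [if_neg h1, if_neg (this ▸ h1)]
      have es : ∀ x, e x = 0 ∨ S x := by
        intro x
        by_cases h1 : S x
        · exact Or.inr h1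
        · exact Or.inl (if_neg h1)
      have es' : ∀ x, e' x = 0 ∨ ¬ S x := by
        intro x
        by_cases h1 : S x
        · exact Or.inl (if_pos h1)
        · exact Or.inr h1
      have hsum : c ^ k = Ψ e * Ψ e' := by
        have h1 := hP.nsmul (Dep.one (V := V) (T := R)) k
        rw [hP.one] at h1
        rw [← h1, ← hP.add _ _ (he.mono hWV) (he'.mono hWV)]
        congr 1
        funext x
        show k • (1 : R) = (if S x then (k : R) else 0) + if S x then 0 else (k : R)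
        by_cases h1 : S x
        · rw [if_pos h1, if_pos h1, nsmul_eq_mul, mul_one, add_zero]
        · rw [if_neg h1, if_neg h1, nsmul_eq_mul, mul_one, zero_add]
      have hd : ∀ x, e' x = 0 ∨ e x = 0 := by
        intro x
        by_cases h1 : S x
        · exact Or.inl (if_pos h1)
        · exact Or.inr (if_neg h1)
      refine ⟨⁅b', Ψ e⁆, Subgroup.subset_closure ⟨b', hb', e, he, es, rfl⟩, ⁅b', Ψ e'⁆,
        Subgroup.subset_closure ⟨b', hb', e', he', es', rfl⟩, ?_⟩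
      rw [hsum]
      have h1 : ⁅b', Ψ e * Ψ e'⁆ = ⁅b', Ψ e⁆ * (Ψ e * ⁅b', Ψ e'⁆ * (Ψ e)⁻¹) := by
        simp only [commutatorElement_def]; group
      rw [h1, conj_of_commute (hloc e' e he' he hd b' hb')]
    | one => exact ⟨1, Subgroup.one_mem _, 1, Subgroup.one_mem _, (mul_one 1).symm⟩
    | mul x y _ _ hx hy =>
      obtain ⟨β, hβ, β', hβ', rfl⟩ := hx
      obtain ⟨γ, hγ, γ', hγ', rfl⟩ := hy
      refine ⟨β * γ, Subgroup.mul_mem _ hβ hγ, β' * γ', Subgroup.mul_mem _ hβ' hγ', ?_⟩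
      have := hcl γ hγ β' hβ'
      calc β * β' * (γ * γ') = β * (β' * γ) * γ' := by group
        _ = β * (γ * β') * γ' := by rw [this.eq]
        _ = _ := by group
    | inv x _ hx =>
      obtain ⟨β, hβ, β', hβ', rfl⟩ := hx
      refine ⟨β⁻¹, Subgroup.inv_mem _ hβ, β'⁻¹, Subgroup.inv_mem _ hβ', ?_⟩
      rw [(hcl β hβ β' hβ').eq, mul_inv_rev]
  intro b hb
  obtain ⟨β, hβ, β', hβ', rfl⟩ := fac b hb
  have c1 : Commute X β := by
    refine commute_closure ?_ β hβ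
    rintro x ⟨b, hb, h, hh, hs, rfl⟩
    exact h3 b hb h hh hs
  have c2 : Commute (Ψ f) β' := by
    refine commute_closure ?_ β' hβ'
    rintro x ⟨b, hb, h, hh, hs, rfl⟩
    exact h4 b hb h hh hs
  have e : ⁅β * β', Ψ f⁆ = β * Ψ f * β⁻¹ * (Ψ f)⁻¹ := by
    rw [commutatorElement_def]
    calc β * β' * Ψ f * (β * β')⁻¹ * (Ψ f)⁻¹ = β * (β' * Ψ f * β'⁻¹) * β⁻¹ * (Ψ f)⁻¹ := by group
      _ = _ := by rw [conj_of_commute c2.symm]
  rw [e]
  exact ((c1.mul_right hX).mul_right c1.inv_right).mul_right hX.inv_right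

/-- a phase vanishing on the support of `f` commutes with `Ψ f` -/
lemma PsiOn.comm_phase {c : G} {V : Submodule F (Ω → F)} {Z : (Ω → F) → G} {Ψ : (Ω → R) → G}
    (hP : PsiOn c V Z Ψ) {φ : Ω → F} (hφ : φ ∈ V * V) {f : Ω → R} (hf : Dep V f)
    (h0 : ∀ x, f x = 0 ∨ φ x = 0) : Commute (Z φ) (Ψ f) := by
  apply commute_of_conj
  rw [hP.act φ hφ f hf]
  congr 1
  funext x
  rcases h0 x with h | h
  · rw [h, mul_zero]
  · rw [h, ze_zero, one_mul]

/-- the hypotheses of the third layer -/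
structure BHyp (g : Glue Ω) (B : Subgroup G) (c : G) (Z : (Ω → F) → G) (Ψ : (Ω → R) → G) : Prop where
  hZ : HomOn ((g.V * g.V : Submodule F (Ω → F)) : Set (Ω → F)) Z
  hP : PsiOn c g.V Z Ψ
  hB : ∀ b ∈ B, b ∈ Subgroup.closure {g : G | ∃ b' ∈ B, ∃ k : ℕ, g = ⁅b', c ^ k⁆}
  loc : ∀ i, ∀ f h, Dep (g.W i) f → Dep (g.W i) h → (∀ x, f x = 0 ∨ h x = 0) → ∀ b ∈ B,
    Commute (Ψ h) ⁅b, Ψ f⁆
  ltp : ∀ i, ∀ u ∈ g.W i, ∀ v ∈ g.W i, ∀ f, Dep (g.W i) f → (∀ x, f x = 0 ∨ u x = 0) → ∀ b ∈ B,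
    Commute (Z (u * v)) ⁅b, Ψ f⁆

namespace BHyp
variable {g : Glue Ω} {B : Subgroup G} {c : G} {Z : (Ω → F) → G} {Ψ : (Ω → R) → G}

lemma b1 (H : BHyp g B c Z Ψ) {i j : F} (hij : i ≠ j) {u : Ω → F} (hi : u ∈ g.W i) (hj : u ∈ g.W j)
    {f : Ω → R} (hf : Dep (g.W i) f) (h0 : ∀ x, f x = 0 ∨ u x = 0) :
    ∀ b ∈ B, Commute (Z (u * g.α i)) ⁅b, Ψ f⁆ := by
  refine transfer (W := g.W i ⊓ g.W j) H.hP (inf_le_left.trans (g.W_le i)) H.hB
    (fun f h hf hh => H.loc i f h (hf.mono inf_le_left) (hh.mono inf_le_left))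
    (fun x => u x = 0) ((Dep.of_mem (V := g.W i ⊓ g.W j) ⟨hi, hj⟩).comp (fun s => s = 0)) ?_ ?_ ?_
  · refine H.hP.comm_phase (g.mul_α_mem (g.W_le i hi) i) (hf.mono (g.W_le i)) ?_
    intro x
    rcases h0 x with h | h
    · exact Or.inl h
    · right; rw [Pi.mul_apply, h, zero_mul]
  · intro b hb h hh hs
    exact H.ltp j u hj (g.α i) (g.α_W i j hij) h (hh.mono inf_le_right) hs b hb
  · intro b hb h hh hs
    refine H.loc i h f (hh.mono inf_le_left) hf ?_ b hb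
    intro x
    rcases h0 x with h1 | h1
    · exact Or.inr h1
    · rcases hs x with h2 | h2
      · exact Or.inl h2
      · exact absurd h1 h2

/-- additivity in `f` for phases -/
lemma phase_sum (H : BHyp g B c Z Ψ) {φ : Ω → F} (hφ : φ ∈ g.V * g.V) {b : G} {ι : Type}
    (s : Finset ι) (f : ι → Ω → R) (hf : ∀ i ∈ s, Dep g.V (f i))
    (h0 : ∀ i ∈ s, ∀ x, f i x = 0 ∨ φ x = 0) (hc : ∀ i ∈ s, Commute (Z φ) ⁅b, Ψ (f i)⁆) :
    Commute (Z φ) ⁅b, Ψ (∑ i ∈ s, f i)⁆ := by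
  classical
  induction s using Finset.induction_on with
  | empty =>
    rw [Finset.sum_empty, H.hP.zero, commutatorElement_one_right]; exact Commute.one_right _
  | insert a s ha ih =>
    have a1 := hf a (Finset.mem_insert_self a s)
    rw [Finset.sum_insert ha, H.hP.add _ _ a1
      (Dep.sum _ _ fun i hi => hf i (Finset.mem_insert_of_mem hi))]
    exact comm_mul' (hc a (Finset.mem_insert_self a s))
      (H.hP.comm_phase hφ a1 (h0 a (Finset.mem_insert_self a s)))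
      (ih (fun i hi => hf i (Finset.mem_insert_of_mem hi))
        (fun i hi => h0 i (Finset.mem_insert_of_mem hi))
        (fun i hi => hc i (Finset.mem_insert_of_mem hi)))

lemma b2 (H : BHyp g B c Z Ψ) {i : F} {u : Ω → F} (hu : u ∈ g.W i)
    {f : Ω → R} (hf : Dep (g.W i) f) (h0 : ∀ x, f x = 0 ∨ u x = 0) :
    ∀ b ∈ B, Commute (Z (u * g.α i)) ⁅b, Ψ f⁆ := by
  intro b hb
  obtain ⟨j, hji, -⟩ := Glue.exists_third i i
  obtain ⟨k, hki, hkj⟩ := Glue.exists_third i j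
  obtain ⟨r, hr⟩ := g.dec j u (g.W_le i hu)
  have hd : ∀ s : F, Dep (g.W i) (fun x => if g.α j x = s then f x else 0) := fun s =>
    (Dep.of_mem (g.α_W j i hji)).comp₂ hf (fun a b => if a = s then b else 0)
  have hφ := g.mul_α_mem (g.W_le i hu) i
  rw [Glue.split_value (g.α j) f]
  refine H.phase_sum hφ _ _ (fun s _ => (hd s).mono (g.W_le i)) ?_ ?_
  · intro s _ x
    show (if g.α j x = s then f x else 0) = 0 ∨ _
    by_cases hx : g.α j x = s
    · rw [if_pos hx]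
      rcases h0 x with h | h
      · exact Or.inl h
      · right; rw [Pi.mul_apply, h, zero_mul]
    · exact Or.inl (if_neg hx)
  intro s _
  obtain ⟨u2, hu2⟩ : ∃ u2 : Ω → F, u2 = r • g.α j - (r * s) • 1 := ⟨_, rfl⟩
  obtain ⟨u1, hu1⟩ : ∃ u1 : Ω → F, u1 = (u - r • g.α j) + (r * s) • 1 := ⟨_, rfl⟩
  have e : u = u1 + u2 := by rw [hu1, hu2]; abel
  have u2i : u2 ∈ g.W i := by
    rw [hu2]
    exact (g.W i).sub_mem ((g.W i).smul_mem _ (g.α_W j i hji)) ((g.W i).smul_mem _ (g.one_mem i))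
  have u2k : u2 ∈ g.W k := by
    rw [hu2]
    exact (g.W k).sub_mem ((g.W k).smul_mem _ (g.α_W j k hkj.symm)) ((g.W k).smul_mem _ (g.one_mem k))
  have u1j : u1 ∈ g.W j := by
    rw [hu1]
    exact (g.W j).add_mem hr ((g.W j).smul_mem _ (g.one_mem j))
  have u1i : u1 ∈ g.W i := by
    have : u1 = u - u2 := by rw [e]; abel
    rw [this]; exact (g.W i).sub_mem hu u2i
  have z2 : ∀ x, (fun x => if g.α j x = s then f x else 0) x = 0 ∨ u2 x = 0 := by
    intro x
    by_cases hx : g.α j x = s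
    · right
      rw [hu2]
      simp [hx]
    · left; simp [hx]
  have z1 : ∀ x, (fun x => if g.α j x = s then f x else 0) x = 0 ∨ u1 x = 0 := by
    intro x
    rcases z2 x with h | h
    · exact Or.inl h
    · rcases h0 x with h' | h'
      · left; simp [h']
      · right
        have : u x = u1 x + u2 x := by rw [e]; rfl
        rw [h', h, add_zero] at this
        exact this.symm
  rw [e, add_mul, H.hZ _ (g.mul_α_mem (g.W_le i u1i) i) _ (g.mul_α_mem (g.W_le i u2i) i)]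
  exact (H.b1 hji.symm u1i u1j (hd s) z1 b hb).mul_left (H.b1 hki.symm u2i u2k (hd s) z2 b hb)

lemma b2' (H : BHyp g B c Z Ψ) {i : F} {u v : Ω → F} (hu : u ∈ g.W i) (hv : v ∈ g.V)
    {f : Ω → R} (hf : Dep (g.W i) f) (h0 : ∀ x, f x = 0 ∨ u x = 0) :
    ∀ b ∈ B, Commute (Z (u * v)) ⁅b, Ψ f⁆ := by
  intro b hb
  obtain ⟨s, hs⟩ := g.dec i v hv
  have hsu : s • u ∈ g.W i := (g.W i).smul_mem s hu
  have e : u * v = u * (v - s • g.α i) + (s • u) * g.α i := by
    rw [mul_sub, smul_mul_assoc, mul_smul_comm]; abel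
  rw [e, H.hZ _ (g.W_mul_le i (Submodule.mul_mem_mul hu hs)) _ (g.mul_α_mem (g.W_le i hsu) i)]
  refine (H.ltp i u hu _ hs f hf h0 b hb).mul_left (H.b2 hsu hf ?_ b hb)
  intro x
  rcases h0 x with h | h
  · exact Or.inl h
  · right; rw [Pi.smul_apply, h, smul_zero]

lemma b3 (H : BHyp g B c Z Ψ) {i : F} {f h : Ω → R} (hf : Dep (g.W i) f) (hh : Dep g.V h)
    (h0 : ∀ x, f x = 0 ∨ h x = 0) : ∀ b ∈ B, Commute (Ψ h) ⁅b, Ψ f⁆ := by
  classical
  intro b hb
  have hc : ∀ t, Dep (g.W i) (g.coef i t h) := fun t => g.coef_dep i t hh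
  have hα : ∀ t : F, Dep g.V (fun x => ze (t * g.α i x)) := fun t =>
    (Dep.of_mem (g.α_mem i)).comp (fun s => ze (t * s))
  have hm : ∀ (t : F) (h : Ω → R), Dep (g.W i) h → Dep g.V (fun x => ze (t * g.α i x) * h x) :=
    fun t h hh => (hα t).comp₂ (hh.mono (g.W_le i)) (· * ·)
  rw [g.exp i hh]
  refine (H.hP.commute_sum _ _ (fun t _ => hm t _ (hc t)) ?_).symm
  intro t _
  have hdis : ∀ x, f x = 0 ∨ g.coef i t h x = 0 := by
    intro x
    exact (g.coef_supp i t hf (fun x => (h0 x).symm) x).symm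
  obtain ⟨k, hk⟩ : ∃ k : Ω → R, k = g.coef i t h := ⟨_, rfl⟩
  have hkd := hc t
  rw [← hk] at hdis hkd ⊢
  clear hk hc h0 hh
  -- point masses for `k`
  refine dep_point_induction' (g.W i) (g.W_fin i)
    (fun k => Commute ⁅b, Ψ f⁆ (Ψ (fun x => ze (t * g.α i x) * k x))) ?_ ?_ k hkd ?_
  · show Commute ⁅b, Ψ f⁆ (Ψ (fun x => ze (t * g.α i x) * (0 : R)))
    have : (fun x => ze (t * g.α i x) * (0 : R)) = 0 := by funext x; simp
    rw [this, H.hP.zero]; exact Commute.one_right _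
  · intro k1 k2 hk1 hk2 e1 e2
    show Commute ⁅b, Ψ f⁆ (Ψ (fun x => ze (t * g.α i x) * (k1 x + k2 x)))
    have : (fun x => ze (t * g.α i x) * (k1 x + k2 x)) =
        (fun x => ze (t * g.α i x) * k1 x) + (fun x => ze (t * g.α i x) * k2 x) := by
      funext x; exact mul_add _ _ _
    rw [this, H.hP.add _ _ (hm t k1 hk1) (hm t k2 hk2)]
    exact e1.mul_right e2
  intro y
  show Commute ⁅b, Ψ f⁆ (Ψ (fun x => ze (t * g.α i x) * pt (g.W i) y (k y) x))
  rcases hdis y with hy | hy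
  swap
  · rw [hy, pt_zero]
    have : (fun x => ze (t * g.α i x) * (0 : Ω → R) x) = 0 := by funext x; simp
    rw [this, H.hP.zero]; exact Commute.one_right _
  generalize k y = r
  clear hdis hkd k
  have hpd := pt_dep (g.W i) y r
  -- point masses for `f`
  refine Commute.symm ?_
  refine dep_point_induction' (g.W i) (g.W_fin i)
    (fun f => Commute (Ψ (fun x => ze (t * g.α i x) * pt (g.W i) y r x)) ⁅b, Ψ f⁆) ?_ ?_ f hf ?_
  · show Commute _ ⁅b, Ψ 0⁆
    rw [H.hP.zero, commutatorElement_one_right]; exact Commute.one_right _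
  · intro f1 f2 hf1 hf2 e1 e2
    show Commute _ ⁅b, Ψ (f1 + f2)⁆
    rw [H.hP.add _ _ (hf1.mono (g.W_le i)) (hf2.mono (g.W_le i))]
    exact comm_mul' e1 (H.hP.comm (hm t _ hpd) (hf1.mono (g.W_le i))) e2
  intro y'
  show Commute (Ψ (fun x => ze (t * g.α i x) * pt (g.W i) y r x)) ⁅b, Ψ (pt (g.W i) y' (f y'))⁆
  by_cases hyy : ∀ w ∈ g.W i, w y' = w y
  · rw [hf _ _ hyy, hy, pt_zero, H.hP.zero, commutatorElement_one_right]
    exact Commute.one_right _
  push Not at hyy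
  obtain ⟨w, hw, hne⟩ := hyy
  have hne' : w y - w y' ≠ 0 := sub_ne_zero.mpr hne.symm
  obtain ⟨u, hu⟩ : ∃ u : Ω → F, u = t • ((w y - w y')⁻¹ • (w - (w y') • 1)) := ⟨_, rfl⟩
  have huW : u ∈ g.W i := by
    rw [hu]
    exact (g.W i).smul_mem _ ((g.W i).smul_mem _ ((g.W i).sub_mem hw
      ((g.W i).smul_mem _ (g.one_mem i))))
  have hu1 : ∀ x, w x = w y' → u x = 0 := by
    intro x hx
    rw [hu]
    simp [hx]
  have hu2 : ∀ x, w x = w y → u x = t := by
    intro x hx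
    rw [hu]
    simp only [Pi.smul_apply, Pi.sub_apply, Pi.one_apply, smul_eq_mul, mul_one, hx]
    rw [inv_mul_cancel₀ hne', mul_one]
  have e : (fun x => ze (t * g.α i x) * pt (g.W i) y r x) =
      fun x => ze ((u * g.α i) x) * pt (g.W i) y r x := by
    funext x
    by_cases hx : ∀ v ∈ g.W i, v x = v y
    · rw [Pi.mul_apply, hu2 x (hx w hw)]
    · have : pt (g.W i) y r x = 0 := by unfold pt; rw [if_neg hx]
      rw [this, mul_zero, mul_zero]
  have hφ := g.mul_α_mem (g.W_le i huW) i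
  rw [e, ← H.hP.act _ hφ _ (hpd.mono (g.W_le i))]
  have c1 : Commute (Z (u * g.α i)) ⁅b, Ψ (pt (g.W i) y' (f y'))⁆ := by
    refine H.b2 huW (pt_dep _ _ _) ?_ b hb
    intro x
    by_cases hx : ∀ v ∈ g.W i, v x = v y'
    · right; exact hu1 x (hx w hw)
    · left; unfold pt; rw [if_neg hx]
  have c2 : Commute (Ψ (pt (g.W i) y r)) ⁅b, Ψ (pt (g.W i) y' (f y'))⁆ := by
    refine H.loc i _ _ (pt_dep _ _ _) hpd ?_ b hb
    intro x
    by_cases hx : ∀ v ∈ g.W i, v x = v y'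
    · right
      unfold pt
      rw [if_neg]
      intro h
      exact hne ((hx w hw).symm.trans (h w hw))
    · left; unfold pt; rw [if_neg hx]
  exact (c1.mul_left c2).mul_left c1.inv_left

/-- commutation for phases and functions when the vanishing factor lies in some `W i` -/
lemma b5 (H : BHyp g B c Z Ψ) {i : F} {u v : Ω → F} (hu : u ∈ g.W i) (hv : v ∈ g.V)
    {f : Ω → R} (hf : Dep g.V f) (h0 : ∀ x, f x = 0 ∨ u x = 0) :
    ∀ b ∈ B, Commute (Z (u * v)) ⁅b, Ψ f⁆ := by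
  refine transfer (W := g.W i) H.hP (g.W_le i) H.hB (H.loc i)
    (fun x => u x = 0) ((Dep.of_mem hu).comp (fun s => s = 0)) ?_ ?_ ?_
  · refine H.hP.comm_phase (Submodule.mul_mem_mul (g.W_le i hu) hv) hf ?_
    intro x
    rcases h0 x with h | h
    · exact Or.inl h
    · right; rw [Pi.mul_apply, h, zero_mul]
  · intro b hb h hh hs
    exact H.b2' hu hv hh hs b hb
  · intro b hb h hh hs
    refine H.b3 hh hf ?_ b hb
    intro x
    rcases hs x with h1 | h1
    · exact Or.inl h1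
    · rcases h0 x with h2 | h2
      · exact Or.inr h2
      · exact absurd h2 h1

lemma ltpV (H : BHyp g B c Z Ψ) : ∀ u ∈ g.V, ∀ v ∈ g.V, ∀ f, Dep g.V f →
    (∀ x, f x = 0 ∨ u x = 0) → ∀ b ∈ B, Commute (Z (u * v)) ⁅b, Ψ f⁆ := by
  intro u hu v hv f hf h0 b hb
  obtain ⟨r, hr⟩ := g.dec 0 u hu
  have hd : ∀ s : F, Dep g.V (fun x => if g.α 0 x = s then f x else 0) := fun s =>
    (Dep.of_mem (g.α_mem 0)).comp₂ hf (fun a b => if a = s then b else 0)
  rw [Glue.split_value (g.α 0) f]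
  have hz : ∀ s : F, ∀ x, (if g.α 0 x = s then f x else 0) = 0 ∨ u x = 0 := by
    intro s x
    by_cases hx : g.α 0 x = s
    · rw [if_pos hx]; exact h0 x
    · exact Or.inl (if_neg hx)
  refine H.phase_sum (Submodule.mul_mem_mul hu hv) _ _ (fun s _ => hd s) ?_ ?_
  · intro s _ x
    rcases hz s x with h | h
    · exact Or.inl h
    · right; rw [Pi.mul_apply, h, zero_mul]
  intro s _
  obtain ⟨u2, hu2⟩ : ∃ u2 : Ω → F, u2 = r • g.α 0 - (r * s) • 1 := ⟨_, rfl⟩
  obtain ⟨u1, hu1⟩ : ∃ u1 : Ω → F, u1 = (u - r • g.α 0) + (r * s) • 1 := ⟨_, rfl⟩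
  have e : u = u1 + u2 := by rw [hu1, hu2]; abel
  have m2 : u2 ∈ g.W 1 := by
    rw [hu2]
    exact (g.W 1).sub_mem ((g.W 1).smul_mem _ (g.α_W 0 1 (by decide)))
      ((g.W 1).smul_mem _ (g.one_mem 1))
  have m1 : u1 ∈ g.W 0 := by
    rw [hu1]
    exact (g.W 0).add_mem hr ((g.W 0).smul_mem _ (g.one_mem 0))
  have z2 : ∀ x, (fun x => if g.α 0 x = s then f x else 0) x = 0 ∨ u2 x = 0 := by
    intro x
    by_cases hx : g.α 0 x = s
    · right
      rw [hu2]
      simp [hx]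
    · left; simp [hx]
  have z1 : ∀ x, (fun x => if g.α 0 x = s then f x else 0) x = 0 ∨ u1 x = 0 := by
    intro x
    rcases z2 x with h | h
    · exact Or.inl h
    · rcases hz s x with h' | h'
      · exact Or.inl h'
      · right
        have : u x = u1 x + u2 x := by rw [e]; rfl
        rw [h', h, add_zero] at this
        exact this.symm
  rw [e, add_mul, H.hZ _ (Submodule.mul_mem_mul (g.W_le 0 m1) hv) _
    (Submodule.mul_mem_mul (g.W_le 1 m2) hv)]
  exact (H.b5 m1 hv (hd s) z1 b hb).mul_left (H.b5 m2 hv (hd s) z2 b hb)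

/-- point masses at points separated by some `W i` -/
lemma b4 (H : BHyp g B c Z Ψ) {i : F} {w : Ω → F} (hw : w ∈ g.W i) {k : F}
    {f h : Ω → R} (hf : Dep g.V f) (hh : Dep g.V h) (f0 : ∀ x, f x = 0 ∨ w x = k)
    (h0 : ∀ x, h x = 0 ∨ w x ≠ k) : ∀ b ∈ B, Commute (Ψ h) ⁅b, Ψ f⁆ := by
  refine transfer (W := g.W i) H.hP (g.W_le i) H.hB (H.loc i)
    (fun x => w x = k) ((Dep.of_mem hw).comp (fun s => s = k)) (H.hP.comm hh hf) ?_ ?_
  · intro b hb h' hh' hs
    refine H.b3 hh' hh ?_ b hb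
    intro x
    rcases hs x with h1 | h1
    · exact Or.inl h1
    · rcases h0 x with h2 | h2
      · exact Or.inr h2
      · exact absurd h1 h2
  · intro b hb h' hh' hs
    refine H.b3 hh' hf ?_ b hb
    intro x
    rcases hs x with h1 | h1
    · exact Or.inl h1
    · rcases f0 x with h2 | h2
      · exact Or.inr h2
      · exact absurd h2 h1

lemma locV (H : BHyp g B c Z Ψ) : ∀ f h, Dep g.V f → Dep g.V h → (∀ x, f x = 0 ∨ h x = 0) →
    ∀ b ∈ B, Commute (Ψ h) ⁅b, Ψ f⁆ := by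
  intro f h hf hh h0 b hb
  refine dep_point_induction' g.V g.fin (fun h => Commute (Ψ h) ⁅b, Ψ f⁆) ?_ ?_ h hh ?_
  · show Commute (Ψ 0) _
    rw [H.hP.zero]; exact Commute.one_left _
  · intro h1 h2 hh1 hh2 e1 e2
    show Commute (Ψ (h1 + h2)) _
    rw [H.hP.add _ _ hh1 hh2]
    exact e1.mul_left e2
  intro y
  show Commute (Ψ (pt g.V y (h y))) ⁅b, Ψ f⁆
  rcases h0 y with hy | hy
  swap
  · rw [hy, pt_zero, H.hP.zero]; exact Commute.one_left _
  generalize h y = r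
  refine dep_point_induction' g.V g.fin (fun f => Commute (Ψ (pt g.V y r)) ⁅b, Ψ f⁆) ?_ ?_ f hf ?_
  · show Commute _ ⁅b, Ψ 0⁆
    rw [H.hP.zero, commutatorElement_one_right]; exact Commute.one_right _
  · intro f1 f2 hf1 hf2 e1 e2
    show Commute _ ⁅b, Ψ (f1 + f2)⁆
    rw [H.hP.add _ _ hf1 hf2]
    exact comm_mul' e1 (H.hP.comm (pt_dep _ _ _) hf1) e2
  intro y'
  show Commute (Ψ (pt g.V y r)) ⁅b, Ψ (pt g.V y' (f y'))⁆
  by_cases hyy : ∀ w ∈ g.V, w y' = w y
  · rw [hf _ _ hyy, hy, pt_zero, H.hP.zero, commutatorElement_one_right]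
    exact Commute.one_right _
  -- separated by `W 0` or `W 1`
  have sep : ∃ i, ∃ w ∈ g.W i, w y' ≠ w y := by
    by_contra hcon
    push Not at hcon
    apply hyy
    intro w hw
    obtain ⟨s, hs⟩ := g.dec 0 w hw
    have h1 := hcon 0 _ hs
    have h2 := hcon 1 (g.α 0) (g.α_W 0 1 (by decide))
    simp only [Pi.sub_apply, Pi.smul_apply, h2] at h1
    exact sub_left_injective h1
  obtain ⟨i, w, hw, hne⟩ := sep
  refine H.b4 hw (k := w y') (pt_dep _ _ _) (pt_dep _ _ _) ?_ ?_ b hb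
  · intro x
    by_cases hx : ∀ v ∈ g.V, v x = v y'
    · right; exact hx w (g.W_le i hw)
    · left; unfold pt; rw [if_neg hx]
  · intro x
    by_cases hx : ∀ v ∈ g.V, v x = v y
    · right; rw [hx w (g.W_le i hw)]; exact hne.symm
    · left; unfold pt; rw [if_neg hx]

end BHyp

/-- GLUING THEOREM -/
theorem glue (g : Glue Ω) {B : Subgroup G} {c : G} {Z : F → (Ω → F) → G} {P : F → (Ω → R) → G}
    (hB : ∀ b ∈ B, b ∈ Subgroup.closure {g : G | ∃ b' ∈ B, ∃ k : ℕ, g = ⁅b', c ^ k⁆})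
    (hG : ∀ i, Good B c (g.W i) (Z i) (P i))
    (hc : ∀ i j, ∀ u ∈ g.W i ⊓ g.W j, ∀ v ∈ g.W i ⊓ g.W j, Z i (u * v) = Z j (u * v)) :
    ∃ (Z' : (Ω → F) → G) (P' : (Ω → R) → G), Good B c g.V Z' P' ∧
      (∀ i, ∀ φ ∈ g.W i * g.W i, Z' φ = Z i φ) ∧ (∀ i, ∀ f, Dep (g.W i) f → P' f = P i f) := by
  have hZi : ∀ i, HomOn ((g.W i * g.W i : Submodule F (Ω → F)) : Set (Ω → F)) (Z i) :=
    fun i a ha b hb => (hG i).Z_add a ha b hb
  have hZ := g.gZ_hom Z hZi hc
  have hZe : ∀ i, ∀ φ ∈ g.W i * g.W i, g.gZ Z φ = Z i φ := fun i φ hφ => g.gZ_eq Z hZi hc i hφ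
  have hP : ∀ i, PsiOn c (g.W i) (g.gZ Z) (P i) := by
    intro i
    have : PsiOn c (g.W i) (Z i) (P i) := ⟨(hG i).P_add, (hG i).P_one, (hG i).act⟩
    exact this.congrZ (hZe i)
  have hΨ := g.gP_psi hZ hP
  have hPe : ∀ i, ∀ f, Dep (g.W i) f → g.gP (g.gZ Z) P f = P i f := fun i f hf => g.gP_eq hZ hP i hf
  have H : BHyp g B c (g.gZ Z) (g.gP (g.gZ Z) P) := by
    refine ⟨hZ, hΨ, hB, ?_, ?_⟩
    · intro i f h hf hh h0 b hb
      rw [hPe i f hf, hPe i h hh]
      exact (hG i).loc f h hf hh h0 b hb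
    · intro i u hu v hv f hf h0 b hb
      rw [hPe i f hf, hZe i _ (Submodule.mul_mem_mul hu hv)]
      exact (hG i).ltp u hu v hv f hf h0 b hb
  refine ⟨g.gZ Z, g.gP (g.gZ Z) P, ?_, hZe, hPe⟩
  exact ⟨fun φ hφ ψ hψ => hZ φ hφ ψ hψ, hΨ.add, hΨ.one, hΨ.act, H.locV, H.ltpV⟩

end Pool.Agent.Helper638.CDB
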