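import Pool.Agent.Helper638.CDB.GlueZ

set_option autoImplicit false

open scoped commutatorElement

namespace Pool.Agent.Helper638.CDB

variable {Ω : Type} {G : Type} [Group G]

lemma commute_of_conj {X Y : G} (h : X * Y * X⁻¹ = Y) : Commute X Y := by
  show X * Y = Y * X
  calc X * Y = (X * Y * X⁻¹) * X := by group
    _ = Y * X := by rw [h]

lemma conj_of_commute {X Y : G} (h : Commute X Y) : X * Y * X⁻¹ = Y := by
  rw [h.eq]; group

lemma commute_conj {X Y Z : G} (h : Commute X Y) : Commute (Z * X * Z⁻¹) (Z * Y * Z⁻¹) := by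
  show Z * X * Z⁻¹ * (Z * Y * Z⁻¹) = Z * Y * Z⁻¹ * (Z * X * Z⁻¹)
  calc Z * X * Z⁻¹ * (Z * Y * Z⁻¹) = Z * (X * Y) * Z⁻¹ := by group
    _ = Z * (Y * X) * Z⁻¹ := by rw [h.eq]
    _ = _ := by group

lemma Commute.conj_right' {X Y Z : G} (h1 : Commute X Y) (h2 : Commute X Z) :
    Commute X (Z * Y * Z⁻¹) := (h2.mul_right h1).mul_right h2.inv_right

/-- the second layer -/
structure PsiOn (c : G) (V : Submodule F (Ω → F)) (Z : (Ω → F) → G) (P : (Ω → R) → G) : Prop where
  add : ∀ f g, Dep V f → Dep V g → P (f + g) = P f * P g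
  one : P 1 = c
  act : ∀ φ ∈ V * V, ∀ f, Dep V f → Z φ * P f * (Z φ)⁻¹ = P (fun x => ze (φ x) * f x)

namespace PsiOn
variable {c : G} {V V' : Submodule F (Ω → F)} {Z Z' : (Ω → F) → G} {P P' : (Ω → R) → G}

lemma zero (h : PsiOn c V Z P) : P 0 = 1 := by
  have := h.add 0 0 Dep.zero Dep.zero
  rw [add_zero] at this
  exact left_eq_mul.mp this

lemma comm (h : PsiOn c V Z P) {f g : Ω → R} (hf : Dep V f) (hg : Dep V g) : Commute (P f) (P g) := by
  show P f * P g = P g * P f
  rw [← h.add f g hf hg, ← h.add g f hg hf, add_comm]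

lemma mono (h : PsiOn c V Z P) (hV : V' ≤ V) : PsiOn c V' Z P where
  add f g hf hg := h.add f g (hf.mono hV) (hg.mono hV)
  one := h.one
  act φ hφ f hf := h.act φ (mul_le_mul' hV hV hφ) f (hf.mono hV)

lemma congrZ (h : PsiOn c V Z P) (hZ : ∀ φ ∈ V * V, Z' φ = Z φ) : PsiOn c V Z' P where
  add := h.add
  one := h.one
  act φ hφ f hf := by rw [hZ φ hφ]; exact h.act φ hφ f hf

lemma nsmul (h : PsiOn c V Z P) {f : Ω → R} (hf : Dep V f) (n : ℕ) : P (n • f) = P f ^ n := by
  induction n with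
  | zero => simp [h.zero]
  | succ n ih =>
    have hd : Dep V (n • f) := hf.comp (fun r => n • r)
    rw [succ_nsmul, h.add _ _ hd hf, ih, pow_succ]

lemma scal (h : PsiOn c V Z P) {f : Ω → R} (hf : Dep V f) (r : R) :
    P (fun x => r * f x) = P f ^ r.val := by
  rw [← h.nsmul hf]
  congr 1
  funext x
  simp [nsmul_eq_mul]

lemma const (h : PsiOn c V Z P) (r : R) : P (fun _ => r) = c ^ r.val := by
  have := h.scal (Dep.one (V := V) (T := R)) r
  rw [h.one] at this
  rw [← this]
  congr 1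
  funext x
  simp

lemma uniq (h : PsiOn c V Z P) (h' : PsiOn c V Z P') (hV : (V : Set (Ω → F)).Finite)
    (h1 : (1 : Ω → F) ∈ V) {f : Ω → R} (hf : Dep V f) : P f = P' f := by
  refine dep_induction V hV (fun f => P f = P' f) ?_ ?_ ?_ f hf
  · show P 0 = P' 0
    rw [h.zero, h'.zero]
  · intro f g hf hg e1 e2
    show P (f + g) = P' (f + g)
    rw [h.add f g hf hg, h'.add f g hf hg, e1, e2]
  · intro v hv r
    have hv' : v ∈ V * V := by
      have := Submodule.mul_mem_mul hv h1
      rwa [mul_one] at this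
    have e1 := h.act v hv' (fun _ => r) (Dep.const V r)
    have e2 := h'.act v hv' (fun _ => r) (Dep.const V r)
    rw [h.const] at e1
    rw [h'.const] at e2
    show P (fun x => r * ze (v x)) = P' (fun x => r * ze (v x))
    have e3 : (fun x => r * ze (v x)) = fun x => ze (v x) * r := by funext x; ring
    rw [e3, ← e1, ← e2]

/-- commuting with sums -/
lemma commute_sum (h : PsiOn c V Z P) {ι : Type} (s : Finset ι) (f : ι → Ω → R)
    (hf : ∀ i ∈ s, Dep V (f i)) {X : G} (hX : ∀ i ∈ s, Commute X (P (f i))) :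
    Commute X (P (∑ i ∈ s, f i)) := by
  classical
  induction s using Finset.induction_on with
  | empty => rw [Finset.sum_empty, h.zero]; exact Commute.one_right X
  | insert a s ha ih =>
    rw [Finset.sum_insert ha, h.add _ _ (hf a (Finset.mem_insert_self a s))
      (Dep.sum _ _ fun i hi => hf i (Finset.mem_insert_of_mem hi))]
    exact (hX a (Finset.mem_insert_self a s)).mul_right
      (ih (fun i hi => hf i (Finset.mem_insert_of_mem hi)) fun i hi => hX i (Finset.mem_insert_of_mem hi))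

lemma eq_sum (h : PsiOn c V Z P) {V' : Submodule F (Ω → F)} (h' : PsiOn c V' Z' P') {ι : Type} (s : Finset ι) (f : ι → Ω → R)
    (hf : ∀ i ∈ s, Dep V (f i)) (hf' : ∀ i ∈ s, Dep V' (f i)) (he : ∀ i ∈ s, P (f i) = P' (f i)) :
    P (∑ i ∈ s, f i) = P' (∑ i ∈ s, f i) := by
  classical
  induction s using Finset.induction_on with
  | empty => rw [Finset.sum_empty, h.zero, h'.zero]
  | insert a s ha ih =>
    rw [Finset.sum_insert ha, h.add _ _ (hf a (Finset.mem_insert_self a s))
      (Dep.sum _ _ fun i hi => hf i (Finset.mem_insert_of_mem hi)),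
      h'.add _ _ (hf' a (Finset.mem_insert_self a s))
      (Dep.sum _ _ fun i hi => hf' i (Finset.mem_insert_of_mem hi)),
      he a (Finset.mem_insert_self a s), ih (fun i hi => hf i (Finset.mem_insert_of_mem hi))
      (fun i hi => hf' i (Finset.mem_insert_of_mem hi)) fun i hi => he i (Finset.mem_insert_of_mem hi)]

end PsiOn

namespace Glue
variable (g : Glue Ω)

/-- Fourier coefficients in the direction `α i` -/
def coef (i t : F) (f : Ω → R) : Ω → R := fun x => 9 * ∑ s : F, ze (-(t * s)) * f (g.σ i s x)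

lemma σ_congr {i s : F} {x y : Ω} (h : ∀ u ∈ g.W i, u x = u y) :
    ∀ u ∈ g.V, u (g.σ i s x) = u (g.σ i s y) := by
  intro u hu
  obtain ⟨r, hr⟩ := g.dec i u hu
  have h1 := g.σ_W i s x _ hr
  have h2 := g.σ_W i s y _ hr
  have h3 := h _ hr
  simp only [Pi.sub_apply, Pi.smul_apply, g.σ_α] at h1 h2 h3
  have : u (g.σ i s x) - r • s = u (g.σ i s y) - r • s := by rw [h1, h2, h3]
  exact sub_left_injective this

lemma σ_congr' {i j s : F} (hij : i ≠ j) {x y : Ω} (h : ∀ u ∈ g.W j ⊓ g.W i, u x = u y) :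
    ∀ u ∈ g.W j, u (g.σ i s x) = u (g.σ i s y) := by
  intro u hu
  obtain ⟨r, hr⟩ := g.dec i u (g.W_le j hu)
  have hr' : u - r • g.α i ∈ g.W j := (g.W j).sub_mem hu ((g.W j).smul_mem r (g.α_W i j hij))
  have h1 := g.σ_W i s x _ hr
  have h2 := g.σ_W i s y _ hr
  have h3 := h _ ⟨hr', hr⟩
  simp only [Pi.sub_apply, Pi.smul_apply, g.σ_α] at h1 h2 h3
  have : u (g.σ i s x) - r • s = u (g.σ i s y) - r • s := by rw [h1, h2, h3]
  exact sub_left_injective this

lemma σ_self (i : F) (x : Ω) : ∀ u ∈ g.V, u (g.σ i (g.α i x) x) = u x := by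
  intro u hu
  obtain ⟨r, hr⟩ := g.dec i u hu
  have h1 := g.σ_W i (g.α i x) x _ hr
  simp only [Pi.sub_apply, Pi.smul_apply, g.σ_α] at h1
  exact sub_left_injective h1

lemma coef_dep (i t : F) {f : Ω → R} (hf : Dep g.V f) : Dep (g.W i) (g.coef i t f) := by
  intro x y h
  unfold coef
  congr 1
  refine Finset.sum_congr rfl fun s _ => ?_
  rw [hf _ _ (g.σ_congr h)]

lemma coef_dep' {i j : F} (hij : i ≠ j) (t : F) {f : Ω → R} (hf : Dep (g.W j) f) :
    Dep (g.W j ⊓ g.W i) (g.coef i t f) := by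
  intro x y h
  unfold coef
  congr 1
  refine Finset.sum_congr rfl fun s _ => ?_
  rw [hf _ _ (g.σ_congr' hij h)]

lemma coef_supp {T : Type} [Zero T] (i t : F) {f : Ω → R} {h : Ω → T} (hh : Dep (g.W i) h)
    (h0 : ∀ x, f x = 0 ∨ h x = 0) : ∀ x, g.coef i t f x = 0 ∨ h x = 0 := by
  intro x
  by_cases hx : h x = 0
  · exact Or.inr hx
  left
  unfold coef
  rw [Finset.sum_eq_zero, mul_zero]
  intro s _
  have : h (g.σ i s x) = h x := hh _ _ (fun u hu => g.σ_W i s x u hu)
  rcases h0 (g.σ i s x) with h1 | h1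
  · rw [h1, mul_zero]
  · exact absurd (this ▸ h1) hx

lemma exp (i : F) {f : Ω → R} (hf : Dep g.V f) :
    f = ∑ t : F, fun x => ze (t * g.α i x) * g.coef i t f x := by
  funext x
  rw [Finset.sum_apply]
  have h1 : ∑ t : F, ze (t * g.α i x) * g.coef i t f x =
      9 * ∑ s : F, f (g.σ i s x) * ∑ t : F, ze (t * (g.α i x - s)) := by
    unfold coef
    simp only [Finset.mul_sum]
    rw [Finset.sum_comm]
    refine Finset.sum_congr rfl fun s _ => Finset.sum_congr rfl fun t _ => ?_
    have : ze (t * (g.α i x - s)) = ze (t * g.α i x) * ze (-(t * s)) := by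
      rw [← ze_add]; congr 1; ring
    rw [this]; ring
  rw [h1]
  simp only [ze_sum]
  rw [Finset.sum_eq_single (g.α i x)]
  · rw [sub_self, if_pos rfl, hf _ _ (g.σ_self i x)]
    have := nine_five
    calc f x = (9 * 5) * f x := by rw [this, one_mul]
      _ = _ := by ring
  · intro s _ hs
    rw [if_neg (sub_ne_zero.mpr (Ne.symm hs)), mul_zero]
  · intro h; exact absurd (Finset.mem_univ _) h

lemma coef_char (i t t' : F) {h : Ω → R} (hh : Dep (g.W i) h) :
    g.coef i t' (fun x => ze (t * g.α i x) * h x) = if t' = t then h else 0 := by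
  funext x
  unfold coef
  have h1 : ∀ s : F, ze (-(t' * s)) * (ze (t * g.α i (g.σ i s x)) * h (g.σ i s x)) =
      ze (s * (t - t')) * h x := by
    intro s
    rw [g.σ_α, hh _ _ (fun u hu => g.σ_W i s x u hu), ← mul_assoc, ← ze_add]
    congr 2; ring
  simp only [h1]
  rw [← Finset.sum_mul, ze_sum]
  by_cases e : t' = t
  · subst e
    rw [sub_self, if_pos rfl, if_pos rfl, ← mul_assoc, nine_five, one_mul]
  · rw [if_neg (sub_ne_zero.mpr (Ne.symm e)), if_neg e, zero_mul, mul_zero]; rfl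

end Glue

end Pool.Agent.Helper638.CDB
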