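import Pool.Agent.Helper638.CDB.GluePsi

set_option autoImplicit false

open scoped commutatorElement

namespace Pool.Agent.Helper638.CDB

variable {Ω : Type} {G : Type} [Group G]

namespace Glue
variable (g : Glue Ω) {c : G} {Z : (Ω → F) → G} {P : F → (Ω → R) → G}

lemma W_fin (i : F) : (g.W i : Set (Ω → F)).Finite := g.fin.subset (g.W_le i)
lemma WW_fin (i j : F) : ((g.W i ⊓ g.W j : Submodule F (Ω → F)) : Set (Ω → F)).Finite :=
  (g.W_fin i).subset inf_le_left

lemma P_eq (hP : ∀ i, PsiOn c (g.W i) Z (P i)) (i j : F) {f : Ω → R}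
    (hf : Dep (g.W i ⊓ g.W j) f) : P i f = P j f :=
  ((hP i).mono inf_le_left).uniq ((hP j).mono inf_le_right) (g.WW_fin i j)
    ⟨g.one_mem i, g.one_mem j⟩ hf

/-- phases in the direction `α j` on `Fun (W i)` -/
lemma P_char (hP : ∀ i, PsiOn c (g.W i) Z (P i)) {i j : F} (hij : i ≠ j) (t : F) {f : Ω → R}
    (hf : Dep (g.W i) f) :
    P i (fun x => ze (t * g.α j x) * f x) = Z (t • g.α j) * P i f * (Z (t • g.α j))⁻¹ := by
  have h := (hP i).act (t • g.α j)
    (g.mem_quad_W ((g.W i).smul_mem t (g.α_W j i (Ne.symm hij)))) f hf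
  rw [h]
  rfl

lemma Z_comm' (hZ : HomOn ((g.V * g.V : Submodule F (Ω → F)) : Set (Ω → F)) Z) {φ ψ : Ω → F}
    (hφ : φ ∈ g.V * g.V) (hψ : ψ ∈ g.V * g.V) : Commute (Z φ) (Z ψ) := hZ.comm hφ hψ

lemma smul_α_mem (t i : F) : t • g.α i ∈ g.V * g.V := g.mem_quad (g.V.smul_mem t (g.α_mem i))

lemma mul_α_mem {u : Ω → F} (hu : u ∈ g.V) (i : F) : u * g.α i ∈ g.V * g.V :=
  Submodule.mul_mem_mul hu (g.α_mem i)

lemma A1 (hZ : HomOn ((g.V * g.V : Submodule F (Ω → F)) : Set (Ω → F)) Z)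
    (hP : ∀ i, PsiOn c (g.W i) Z (P i)) {i j : F} (hij : i ≠ j) {u : Ω → F} (hu : u ∈ g.W i)
    (hu' : u ∈ g.W j) {f : Ω → R} (hf : Dep (g.W i) f) (h0 : ∀ x, f x = 0 ∨ u x = 0) :
    Commute (Z (u * g.α i)) (P i f) := by
  have hfV : Dep g.V f := hf.mono (g.W_le i)
  have hc : ∀ t, Dep (g.W i ⊓ g.W j) (g.coef j t f) := fun t => g.coef_dep' (Ne.symm hij) t hf
  have hα : ∀ t : F, Dep (g.W i) (fun x => ze (t * g.α j x)) := fun t =>
    (Dep.of_mem (g.α_W j i (Ne.symm hij))).comp (fun s => ze (t * s))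
  rw [g.exp j hfV]
  refine (hP i).commute_sum _ _ (fun t _ => (hα t).comp₂ ((hc t).mono inf_le_left) (· * ·)) ?_
  intro t _
  rw [g.P_char hP hij t ((hc t).mono inf_le_left)]
  refine Commute.conj_right' ?_ (hZ.comm (g.mul_α_mem (g.W_le i hu) i) (g.smul_α_mem t j))
  rw [g.P_eq hP i j (hc t)]
  apply commute_of_conj
  rw [(hP j).act _ (Submodule.mul_mem_mul hu' (g.α_W i j hij)) _ ((hc t).mono inf_le_right)]
  congr 1
  funext x
  rcases g.coef_supp j t (Dep.of_mem hu') h0 x with h1 | h1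
  · rw [h1, mul_zero]
  · simp only [Pi.mul_apply, h1, zero_mul, ze_zero, one_mul]

lemma exists_third (i j : F) : ∃ k, k ≠ i ∧ k ≠ j := by revert i j; decide

/-- splitting a function according to the value of `w` -/
lemma split_value (w : Ω → F) (f : Ω → R) :
    f = ∑ s : F, fun x => if w x = s then f x else 0 := by
  funext x
  rw [Finset.sum_apply]
  simp

lemma A2 (hZ : HomOn ((g.V * g.V : Submodule F (Ω → F)) : Set (Ω → F)) Z)
    (hP : ∀ i, PsiOn c (g.W i) Z (P i)) {i : F} {u : Ω → F} (hu : u ∈ g.W i)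
    {f : Ω → R} (hf : Dep (g.W i) f) (h0 : ∀ x, f x = 0 ∨ u x = 0) :
    Commute (Z (u * g.α i)) (P i f) := by
  obtain ⟨j, hji, -⟩ := exists_third i i
  obtain ⟨k, hki, hkj⟩ := exists_third i j
  obtain ⟨r, hr⟩ := g.dec j u (g.W_le i hu)
  rw [split_value (g.α j) f]
  have hd : ∀ s : F, Dep (g.W i) (fun x => if g.α j x = s then f x else 0) := fun s =>
    (Dep.of_mem (g.α_W j i hji)).comp₂ hf (fun a b => if a = s then b else 0)
  refine (hP i).commute_sum _ _ (fun s _ => hd s) ?_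
  intro s _
  set u2 : Ω → F := r • g.α j - (r * s) • 1 with hu2
  set u1 : Ω → F := (u - r • g.α j) + (r * s) • 1 with hu1
  have e : u = u1 + u2 := by rw [hu1, hu2]; abel
  have u2i : u2 ∈ g.W i := (g.W i).sub_mem ((g.W i).smul_mem _ (g.α_W j i hji))
    ((g.W i).smul_mem _ (g.one_mem i))
  have u2k : u2 ∈ g.W k := (g.W k).sub_mem ((g.W k).smul_mem _ (g.α_W j k hkj.symm))
    ((g.W k).smul_mem _ (g.one_mem k))
  have u1j : u1 ∈ g.W j := (g.W j).add_mem hr ((g.W j).smul_mem _ (g.one_mem j))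
  have u1i : u1 ∈ g.W i := by
    have : u1 = u - u2 := by rw [e]; abel
    rw [this]; exact (g.W i).sub_mem hu u2i
  have z2 : ∀ x, (fun x => if g.α j x = s then f x else 0) x = 0 ∨ u2 x = 0 := by
    intro x
    by_cases hx : g.α j x = s
    · right
      simp [hu2, hx]
    · left; simp [hx]
  have z1 : ∀ x, (fun x => if g.α j x = s then f x else 0) x = 0 ∨ u1 x = 0 := by
    intro x
    rcases z2 x with h | h
    · exact Or.inl h
    · rcases h0 x with h' | h'
      · left; simp [h']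
      · right
        have : u x = u1 x + u2 x := by rw [e]; rfl
        rw [h', h, add_zero] at this
        exact this.symm
  rw [e, add_mul, hZ _ (g.mul_α_mem (g.W_le i u1i) i) _ (g.mul_α_mem (g.W_le i u2i) i)]
  exact (g.A1 hZ hP hji.symm u1i u1j (hd s) z1).mul_left
    (g.A1 hZ hP hki.symm u2i u2k (hd s) z2)

/-- cross commutation -/
lemma cross (hZ : HomOn ((g.V * g.V : Submodule F (Ω → F)) : Set (Ω → F)) Z)
    (hP : ∀ i, PsiOn c (g.W i) Z (P i)) {i : F} {w : Ω → F} (hw : w ∈ g.W i) {k k' : F} (hk : k ≠ k')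
    {f h : Ω → R} (hf : Dep (g.W i) f) (hh : Dep (g.W i) h) (f0 : ∀ x, f x = 0 ∨ w x = k)
    (h0 : ∀ x, h x = 0 ∨ w x = k') (t : F) :
    Commute (P i f) (Z (t • g.α i) * P i h * (Z (t • g.α i))⁻¹) := by
  set u : Ω → F := t • ((k' - k)⁻¹ • (w - k • 1)) with hu
  have hkk : k' - k ≠ 0 := sub_ne_zero.mpr hk.symm
  have uW : u ∈ g.W i := (g.W i).smul_mem _ ((g.W i).smul_mem _ ((g.W i).sub_mem hw
    ((g.W i).smul_mem _ (g.one_mem i))))
  have u'W : u - t • 1 ∈ g.W i := (g.W i).sub_mem uW ((g.W i).smul_mem _ (g.one_mem i))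
  have c1 : Commute (Z (u * g.α i)) (P i f) := by
    refine g.A2 hZ hP uW hf ?_
    intro x
    rcases f0 x with h | h
    · exact Or.inl h
    · right; simp [hu, h]
  have c2 : Commute (Z ((u - t • 1) * g.α i)) (P i h) := by
    refine g.A2 hZ hP u'W hh ?_
    intro x
    rcases h0 x with h | h
    · exact Or.inl h
    · right
      simp only [hu, Pi.sub_apply, Pi.smul_apply, Pi.one_apply, smul_eq_mul, mul_one, h]
      rw [inv_mul_cancel₀ hkk, mul_one, sub_self]
  have e : ∀ v : Ω → F, v * g.α i = t • g.α i + (v - t • 1) * g.α i := by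
    intro v
    rw [sub_mul, smul_mul_assoc, one_mul]; abel
  have e2 : Z (u * g.α i) = Z (t • g.α i) * Z ((u - t • 1) * g.α i) := by
    conv_lhs => rw [e u]
    exact hZ _ (g.smul_α_mem t i) _ (g.mul_α_mem (g.W_le i u'W) i)
  have e3 : Z (t • g.α i) * P i h * (Z (t • g.α i))⁻¹ = Z (u * g.α i) * P i h * (Z (u * g.α i))⁻¹ := by
    rw [e2]
    calc Z (t • g.α i) * P i h * (Z (t • g.α i))⁻¹
        = Z (t • g.α i) * (Z ((u - t • 1) * g.α i) * P i h * (Z ((u - t • 1) * g.α i))⁻¹) *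
            (Z (t • g.α i))⁻¹ := by rw [conj_of_commute c2]
      _ = _ := by group
  rw [e3, ← conj_of_commute c1]
  exact commute_conj ((hP i).comm hf hh)

end Glue

end Pool.Agent.Helper638.CDB
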