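import Pool.Agent.Helper638.CDB.Basics

set_option autoImplicit false

open scoped commutatorElement IsMulCommutative

namespace Pool.Agent.Helper638.CDB.LemD

lemma comm_mul_left {G : Type} [Group G] (x y z : G) (h : Commute ⁅y, z⁆ x) :
    ⁅x * y, z⁆ = ⁅y, z⁆ * ⁅x, z⁆ := by
  have h1 : x * ⁅y, z⁆ * x⁻¹ = ⁅y, z⁆ := by
    rw [← h.eq, mul_assoc, mul_inv_cancel, mul_one]
  have h2 : ⁅x * y, z⁆ = (x * ⁅y, z⁆ * x⁻¹) * ⁅x, z⁆ := by
    simp only [commutatorElement_def]; group
  rw [h2, h1]

lemma comm_mul_right {G : Type} [Group G] (x y z : G) (h : Commute ⁅x, z⁆ y) :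
    ⁅x, y * z⁆ = ⁅x, y⁆ * ⁅x, z⁆ := by
  have h1 : y * ⁅x, z⁆ * y⁻¹ = ⁅x, z⁆ := by
    rw [← h.eq, mul_assoc, mul_inv_cancel, mul_one]
  have h2 : ⁅x, y * z⁆ = ⁅x, y⁆ * (y * ⁅x, z⁆ * y⁻¹) := by
    simp only [commutatorElement_def]; group
  rw [h2, h1]

lemma nine_mul : ∀ ρ : R, (9 : R) * ρ * 5 = ρ := by decide
lemma two_sub : ∀ s s0 : F, s ≠ s0 → (2 : F) * (s - s0) ≠ 0 := by decide

/-- bilinear version -/
theorem bilin {M : Type} [AddCommGroup M] (φ : (F → R) →+ (F → R) →+ M)
    (hoff : ∀ s t : F, s ≠ t → ∀ r r' : R, φ (Pi.single s r) (Pi.single t r') = 0)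
    (hchar : ∀ l : F, ∀ r r' : R, φ (fun s => r * ze (l * s)) (fun s => r' * ze (l * s)) = 0) :
    ∀ a b, φ a b = 0 := by
  have hdec : ∀ a : F → R, a = ∑ s, Pi.single s (a s) := fun a =>
    (Finset.univ_sum_single a).symm
  have hdiag : ∀ a b, φ a b = ∑ s, φ (Pi.single s (a s)) (Pi.single s (b s)) := by
    intro a b
    have e1 : φ a = ∑ s, φ (Pi.single s (a s)) := by
      conv_lhs => rw [hdec a]
      rw [map_sum]
    rw [e1, AddMonoidHom.finsetSum_apply]
    apply Finset.sum_congr rfl
    intro s _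
    conv_lhs => rw [hdec b]
    rw [map_sum]
    apply Finset.sum_eq_single s
    · intro t _ hts
      exact hoff s t (Ne.symm hts) _ _
    · simp
  -- moving scalars
  have hmov : ∀ (s : F) (c r r' : R), φ (Pi.single s r) (Pi.single s (r' * c)) =
      φ (Pi.single s (r * c)) (Pi.single s r') := by
    intro s c r r'
    have h1 : (Pi.single s (r * c) : F → R) = c.val • Pi.single s r := by
      rw [← Pi.single_smul]
      congr 1
      rw [nsmul_eq_mul, ZMod.natCast_zmod_val, mul_comm]
    have h2 : (Pi.single s (r' * c) : F → R) = c.val • Pi.single s r' := by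
      rw [← Pi.single_smul]
      congr 1
      rw [nsmul_eq_mul, ZMod.natCast_zmod_val, mul_comm]
    rw [h1, h2, map_nsmul, map_nsmul, AddMonoidHom.nsmul_apply]
  have hs0 : ∀ (s0 : F) (ρ r' : R), φ (Pi.single s0 ρ) (Pi.single s0 r') = 0 := by
    intro s0 ρ r'
    have h1 : ∀ l : F, ∑ s, φ (Pi.single s (9 * ρ * ze (l * (2 * (s - s0))))) (Pi.single s r') = 0 := by
      intro l
      have h2 := hchar l (9 * ρ * ze (-(2 * l * s0))) r'
      rw [hdiag] at h2
      rw [← h2]
      apply Finset.sum_congr rfl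
      intro s _
      rw [hmov]
      congr 3
      rw [show l * (2 * (s - s0)) = -(2 * l * s0) + l * s + l * s by ring, ze_add, ze_add]
      ring
    have h3 : ∑ l : F, ∑ s, φ (Pi.single s (9 * ρ * ze (l * (2 * (s - s0))))) (Pi.single s r') = 0 :=
      Finset.sum_eq_zero (fun l _ => h1 l)
    rw [Finset.sum_comm] at h3
    have h4 : ∀ s : F, ∑ l : F, φ (Pi.single s (9 * ρ * ze (l * (2 * (s - s0))))) (Pi.single s r') =
        if s = s0 then φ (Pi.single s0 ρ) (Pi.single s0 r') else 0 := by
      intro s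
      rw [← AddMonoidHom.finsetSum_apply, ← map_sum]
      have h5 : (∑ l : F, (Pi.single s (9 * ρ * ze (l * (2 * (s - s0)))) : F → R)) =
          Pi.single s (9 * ρ * ∑ l : F, ze (l * (2 * (s - s0)))) := by
        rw [Finset.mul_sum]
        exact (map_sum (AddMonoidHom.single (fun _ : F => R) s) _ _).symm
      rw [h5, ze_sum]
      by_cases h : s = s0
      · subst h
        have h6 : (9 : R) * ρ * 5 = ρ := nine_mul ρ
        simp [h6]
      · have h7 : (2 : F) * (s - s0) ≠ 0 := two_sub s s0 h
        simp [h, h7]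
    simp only [h4] at h3
    simpa using h3
  intro a b
  rw [hdiag]
  exact Finset.sum_eq_zero (fun s _ => hs0 s _ _)

theorem main1 {G : Type} [Group G] (A B : (F → R) → G)
    (hA : ∀ a a', A (a + a') = A a * A a') (hB : ∀ b b', B (b + b') = B b * B b')
    (hoff : ∀ s t : F, s ≠ t → ∀ r r' : R, Commute (A (Pi.single s r)) (B (Pi.single t r')))
    (hchar : ∀ l : F, ∀ r r' : R, Commute (A (fun s => r * ze (l * s))) (B (fun s => r' * ze (l * s))))
    (hcen : ∀ a b, ⁅A a, B b⁆ ∈ Subgroup.center G) :
    ∀ a b, Commute (A a) (B b) := by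
  have hc : ∀ a b g, Commute ⁅A a, B b⁆ g := fun a b g =>
    ((Subgroup.mem_center_iff.1 (hcen a b)) g).symm
  let φ : (F → R) →+ (F → R) →+ Additive (Subgroup.center G) :=
    AddMonoidHom.mk' (fun a => AddMonoidHom.mk'
      (fun b => Additive.ofMul (⟨⁅A a, B b⁆, hcen a b⟩ : Subgroup.center G))
      (by
        intro b b'
        rw [← ofMul_mul]
        congr 1
        apply Subtype.ext
        simp only [Subgroup.coe_mul]
        rw [hB, comm_mul_right _ _ _ (hc _ _ _)]))
      (by
        intro a a'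
        apply AddMonoidHom.ext
        intro b
        rw [AddMonoidHom.add_apply]
        simp only [AddMonoidHom.mk'_apply]
        rw [← ofMul_mul]
        congr 1
        apply Subtype.ext
        simp only [Subgroup.coe_mul]
        rw [hA, comm_mul_left _ _ _ (hc _ _ _), (hc a' b _).eq])
  have hφ : ∀ a b, φ a b = Additive.ofMul (⟨⁅A a, B b⁆, hcen a b⟩ : Subgroup.center G) := fun a b => rfl
  have hiff : ∀ a b, φ a b = 0 ↔ Commute (A a) (B b) := by
    intro a b
    rw [hφ, ofMul_eq_zero, Subtype.ext_iff]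
    simp only [Subgroup.coe_one]
    exact commutatorElement_eq_one_iff_commute
  intro a b
  rw [← hiff]
  apply bilin φ
  · intro s t hst r r'
    rw [hiff]
    exact hoff s t hst r r'
  · intro l r r'
    rw [hiff]
    exact hchar l r r'

lemma commute_comm {G : Type} [Group G] {x y z : G} (h1 : Commute x z) (h2 : Commute y z) :
    Commute ⁅x, y⁆ z := by
  rw [commutatorElement_def]
  exact ((h1.mul_left h2).mul_left h1.inv_left).mul_left h2.inv_left

/-- Lemma D. `A`, `B` are homomorphisms from the additive group `F → R` to `G`; off-diagonal values commute and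
the values at the characters commute; then everything commutes. -/
theorem lemmaD {G : Type} [Group G] (A B : (F → R) → G)
    (hA : ∀ a a', A (a + a') = A a * A a') (hB : ∀ b b', B (b + b') = B b * B b')
    (hoff : ∀ s t : F, s ≠ t → ∀ r r' : R, Commute (A (Pi.single s r)) (B (Pi.single t r')))
    (hchar : ∀ l : F, ∀ r r' : R, Commute (A (fun s => r * ze (l * s))) (B (fun s => r' * ze (l * s)))) :
    ∀ a b, Commute (A a) (B b) := by
  have hA0 : A 0 = 1 := by
    have := hA 0 0
    rw [add_zero] at this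
    exact left_eq_mul.1 this
  have hB0 : B 0 = 1 := by
    have := hB 0 0
    rw [add_zero] at this
    exact left_eq_mul.1 this
  have hAA : ∀ a a', Commute (A a) (A a') := by
    intro a a'
    rw [Commute, SemiconjBy, ← hA, ← hA, add_comm]
  have hBB : ∀ a a', Commute (B a) (B a') := by
    intro a a'
    rw [Commute, SemiconjBy, ← hB, ← hB, add_comm]
  -- vanishing at s commutes
  have hAoff : ∀ (s : F) (c : F → R), c s = 0 → ∀ r', Commute (A c) (B (Pi.single s r')) := by
    intro s c hcs r'
    rw [← Finset.univ_sum_single c]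
    refine Finset.sum_induction _ (fun x => Commute (A x) (B (Pi.single s r'))) ?_ ?_ ?_
    · intro x y hx hy
      rw [hA]; exact hx.mul_left hy
    · rw [hA0]; exact Commute.one_left _
    · intro t _
      by_cases hts : t = s
      · subst hts
        rw [hcs, Pi.single_zero, hA0]; exact Commute.one_left _
      · exact hoff t s hts _ _
  have hBoff : ∀ (s : F) (c : F → R), c s = 0 → ∀ r', Commute (A (Pi.single s r')) (B c) := by
    intro s c hcs r'
    rw [← Finset.univ_sum_single c]
    refine Finset.sum_induction _ (fun x => Commute (A (Pi.single s r')) (B x)) ?_ ?_ ?_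
    · intro x y hx hy
      rw [hB]; exact hx.mul_right hy
    · rw [hB0]; exact Commute.one_right _
    · intro t _
      by_cases hts : t = s
      · subst hts
        rw [hcs, Pi.single_zero, hB0]; exact Commute.one_right _
      · exact hoff s t (Ne.symm hts) _ _
  -- splitting
  have hsplit : ∀ (s : F) (c : F → R), c = Pi.single s (c s) + (c - Pi.single s (c s)) := by
    intro s c; abel
  have hvan : ∀ (s : F) (c : F → R), (c - Pi.single s (c s) : F → R) s = 0 := by
    intro s c; simp
  -- diagonal commutators commute with everything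
  have hg : ∀ (s : F) (r r' : R) (a : F → R),
      Commute ⁅A (Pi.single s r), B (Pi.single s r')⁆ (A a) ∧
      Commute ⁅A (Pi.single s r), B (Pi.single s r')⁆ (B a) := by
    intro s r r' a
    -- the complementary parts
    set c : F → R := (fun _ => r) with hc
    set e : F → R := (fun _ => r') with he
    set c' : F → R := c - Pi.single s (c s) with hc'
    set e' : F → R := e - Pi.single s (e s) with he'
    have hc's : c' s = 0 := hvan s c
    have he's : e' s = 0 := hvan s e
    have h0 : Commute (A c) (B e) := by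
      have := hchar 0 r r'
      simpa using this
    have hAc : A c = A (Pi.single s r) * A c' := by
      rw [← hA, hc', hc]; congr 1; abel
    have hBe : B e = B (Pi.single s r') * B e' := by
      rw [← hB, he', he]; congr 1; abel
    set x1 := A (Pi.single s r)
    set y1 := B (Pi.single s r')
    set x2 := A c'
    set y2 := B e'
    have k1 : Commute x1 x2 := hAA _ _
    have k2 : Commute x1 y2 := hBoff s e' he's r
    have k3 : Commute y1 x2 := (hAoff s c' hc's r').symm
    have k4 : Commute y1 y2 := hBB _ _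
    have k5 : ⁅x1, y1⁆ * ⁅x2, y2⁆ = 1 := by
      have h1 : ⁅A c, B e⁆ = 1 := commutatorElement_eq_one_iff_commute.2 h0
      rw [hAc, hBe] at h1
      rw [← h1]
      have e1 : x1 * x2 * (y1 * y2) = (x1 * y1) * (x2 * y2) := by
        rw [mul_assoc, mul_assoc, ← mul_assoc x2 y1 y2, ← k3.eq, mul_assoc]
      have e2 : y1 * y2 * (x1 * x2) = (y1 * x1) * (y2 * x2) := by
        rw [mul_assoc, mul_assoc, ← mul_assoc y2 x1 x2, ← k2.eq, mul_assoc]
      have e3 : ⁅x1 * x2, y1 * y2⁆ = (x1 * x2 * (y1 * y2)) * (y1 * y2 * (x1 * x2))⁻¹ := by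
        rw [commutatorElement_def]; group
      have e4 : ⁅x2, y2⁆ = (x2 * y2) * (y2 * x2)⁻¹ := by
        rw [commutatorElement_def]; group
      have e5 : ⁅x1, y1⁆ = (x1 * y1) * (y1 * x1)⁻¹ := by
        rw [commutatorElement_def]; group
      rw [e3, e1, e2, e4, e5, mul_inv_rev (y1 * x1) (y2 * x2)]
      have e6 : Commute ((x2 * y2) * (y2 * x2)⁻¹) (y1 * x1)⁻¹ := by
        have e7 : Commute (x2 * y2) (y1 * x1) :=
          (k3.symm.mul_right k1.symm).mul_left (k4.symm.mul_right k2.symm)
        have e8 : Commute (y2 * x2) (y1 * x1) :=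
          (k4.symm.mul_right k2.symm).mul_left (k3.symm.mul_right k1.symm)
        exact (e7.mul_left e8.inv_left).inv_right
      calc x1 * y1 * (y1 * x1)⁻¹ * (x2 * y2 * (y2 * x2)⁻¹)
          = x1 * y1 * ((y1 * x1)⁻¹ * (x2 * y2 * (y2 * x2)⁻¹)) := by group
        _ = x1 * y1 * ((x2 * y2 * (y2 * x2)⁻¹) * (y1 * x1)⁻¹) := by rw [e6.eq]
        _ = x1 * y1 * (x2 * y2) * ((y2 * x2)⁻¹ * (y1 * x1)⁻¹) := by group
    have k6 : ⁅x1, y1⁆ = ⁅x2, y2⁆⁻¹ := eq_inv_of_mul_eq_one_left k5
    have k7 : ∀ ρ, Commute ⁅x1, y1⁆ (A (Pi.single s ρ)) := by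
      intro ρ
      rw [k6]
      apply Commute.inv_left
      exact commute_comm (hAA _ _) (hBoff s e' he's ρ).symm
    have k8 : ∀ ρ, Commute ⁅x1, y1⁆ (B (Pi.single s ρ)) := by
      intro ρ
      rw [k6]
      apply Commute.inv_left
      exact commute_comm (hAoff s c' hc's ρ) (hBB _ _)
    constructor
    · rw [hsplit s a, hA]
      refine (k7 _).mul_right ?_
      exact commute_comm (hAA _ _) (hAoff s _ (hvan s a) r').symm
    · rw [hsplit s a, hB]
      refine (k8 _).mul_right ?_
      exact commute_comm (hBoff s _ (hvan s a) r) (hBB _ _)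
  -- all commutators commute with everything
  have hg2 : ∀ (s : F) (r : R) (b x : F → R),
      Commute ⁅A (Pi.single s r), B b⁆ (A x) ∧ Commute ⁅A (Pi.single s r), B b⁆ (B x) := by
    intro s r b
    rw [← Finset.univ_sum_single b]
    refine Finset.sum_induction _ (fun y => ∀ x : F → R, Commute ⁅A (Pi.single s r), B y⁆ (A x) ∧
      Commute ⁅A (Pi.single s r), B y⁆ (B x)) ?_ ?_ ?_
    · intro y z hy hz x
      rw [hB, comm_mul_right _ _ _ (hz y).2]
      exact ⟨(hy x).1.mul_left (hz x).1, (hy x).2.mul_left (hz x).2⟩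
    · intro x
      rw [hB0, commutatorElement_one_right]
      exact ⟨Commute.one_left _, Commute.one_left _⟩
    · intro t _ x
      by_cases hts : t = s
      · subst hts
        exact hg t r _ x
      · have := hoff s t (Ne.symm hts) r (b t)
        rw [commutatorElement_eq_one_iff_commute.2 this]
        exact ⟨Commute.one_left _, Commute.one_left _⟩
  have hg3 : ∀ (a b x : F → R), Commute ⁅A a, B b⁆ (A x) ∧ Commute ⁅A a, B b⁆ (B x) := by
    intro a b
    rw [← Finset.univ_sum_single a]
    refine Finset.sum_induction _ (fun y => ∀ x : F → R, Commute ⁅A y, B b⁆ (A x) ∧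
      Commute ⁅A y, B b⁆ (B x)) ?_ ?_ ?_
    · intro y z hy hz x
      rw [hA, comm_mul_left _ _ _ (hz y).1]
      exact ⟨(hz x).1.mul_left (hy x).1, (hz x).2.mul_left (hy x).2⟩
    · intro x
      rw [hA0, commutatorElement_one_left]
      exact ⟨Commute.one_left _, Commute.one_left _⟩
    · intro t _ x
      exact hg2 t _ b x
  -- pass to the generated subgroup
  let H : Subgroup G := Subgroup.closure (Set.range A ∪ Set.range B)
  have hAm : ∀ a, A a ∈ H := fun a => Subgroup.subset_closure (Or.inl ⟨a, rfl⟩)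
  have hBm : ∀ b, B b ∈ H := fun b => Subgroup.subset_closure (Or.inr ⟨b, rfl⟩)
  have hcH : ∀ a b, ∀ g ∈ H, Commute ⁅A a, B b⁆ g := by
    intro a b g hg'
    induction hg' using Subgroup.closure_induction with
    | mem x hx =>
      rcases hx with ⟨y, rfl⟩ | ⟨y, rfl⟩
      · exact (hg3 a b y).1
      · exact (hg3 a b y).2
    | one => exact Commute.one_right _
    | mul x y _ _ hx hy => exact hx.mul_right hy
    | inv x _ hx => exact hx.inv_right
  intro a b
  have key := main1 (G := H) (fun a => ⟨A a, hAm a⟩) (fun b => ⟨B b, hBm b⟩)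
    (fun a a' => Subtype.ext (hA a a')) (fun b b' => Subtype.ext (hB b b'))
    (fun s t hst r r' => Subtype.ext (hoff s t hst r r').eq)
    (fun l r r' => Subtype.ext (hchar l r r').eq)
    (by
      intro a b
      rw [Subgroup.mem_center_iff]
      intro g
      apply Subtype.ext
      exact (hcH a b g.1 g.2).eq.symm)
    a b
  exact congrArg Subtype.val key.eq

end Pool.Agent.Helper638.CDB.LemD
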