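import Pool.Agent.Helper638.CDB.GluePsi2
import Pool.Agent.Helper638.CDB.LemD

set_option autoImplicit false

open scoped commutatorElement

namespace Pool.Agent.Helper638.CDB

variable {Ω : Type} {G : Type} [Group G]

/-- additive maps agree on sums -/
lemma eq_on_sum {A : Type} [AddCommGroup A] {D D' : A → Prop} {Φ Φ' : A → G}
    (h : ∀ a b, D a → D b → Φ (a + b) = Φ a * Φ b)
    (h' : ∀ a b, D' a → D' b → Φ' (a + b) = Φ' a * Φ' b) (hD0 : D 0) (hD0' : D' 0)
    (hDa : ∀ a b, D a → D b → D (a + b)) (hDa' : ∀ a b, D' a → D' b → D' (a + b))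
    {ι : Type} (s : Finset ι) (f : ι → A) (hf : ∀ i ∈ s, D (f i)) (hf' : ∀ i ∈ s, D' (f i))
    (he : ∀ i ∈ s, Φ (f i) = Φ' (f i)) : Φ (∑ i ∈ s, f i) = Φ' (∑ i ∈ s, f i) := by
  classical
  have z : Φ 0 = 1 := by
    have := h 0 0 hD0 hD0
    rw [add_zero] at this
    exact left_eq_mul.mp this
  have z' : Φ' 0 = 1 := by
    have := h' 0 0 hD0' hD0'
    rw [add_zero] at this
    exact left_eq_mul.mp this
  have key : D (∑ i ∈ s, f i) ∧ D' (∑ i ∈ s, f i) ∧ Φ (∑ i ∈ s, f i) = Φ' (∑ i ∈ s, f i) := by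
    induction s using Finset.induction_on with
    | empty => rw [Finset.sum_empty, z, z']; exact ⟨hD0, hD0', rfl⟩
    | insert a s ha ih =>
      obtain ⟨i1, i2, i3⟩ := ih (fun i hi => hf i (Finset.mem_insert_of_mem hi))
        (fun i hi => hf' i (Finset.mem_insert_of_mem hi))
        (fun i hi => he i (Finset.mem_insert_of_mem hi))
      have a1 := hf a (Finset.mem_insert_self a s)
      have a2 := hf' a (Finset.mem_insert_self a s)
      have a3 := he a (Finset.mem_insert_self a s)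
      rw [Finset.sum_insert ha]
      exact ⟨hDa _ _ a1 i1, hDa' _ _ a2 i2, by rw [h _ _ a1 i1, h' _ _ a2 i2, a3, i3]⟩
  exact key.2.2

namespace Glue
variable (g : Glue Ω) {c : G} {Z : (Ω → F) → G} {P : F → (Ω → R) → G}

/-- same cell -/
lemma diag (hZ : HomOn ((g.V * g.V : Submodule F (Ω → F)) : Set (Ω → F)) Z)
    (hP : ∀ i, PsiOn c (g.W i) Z (P i)) (i : F) (y : Ω) (r r' : R) (t : F) :
    Commute (P i (pt (g.W i) y r)) (Z (t • g.α i) * P i (pt (g.W i) y r') * (Z (t • g.α i))⁻¹) := by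
  classical
  obtain ⟨j, hji, -⟩ := exists_third i i
  have hαj : g.α j ∈ g.W i := g.α_W j i hji
  let h : Ω → R := pt (g.W i ⊓ g.W j) y 1
  have hh : Dep (g.W i ⊓ g.W j) h := pt_dep _ _ _
  let fn : (F → R) → Ω → R := fun a x => h x * a (g.α j x)
  have hfn : ∀ a, Dep (g.W i) (fn a) := fun a =>
    (hh.mono inf_le_left).comp₂ ((Dep.of_mem hαj).comp a) (· * ·)
  let A : (F → R) → G := fun a => P i (fn a)
  let B : (F → R) → G := fun a => Z (t • g.α i) * A a * (Z (t • g.α i))⁻¹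
  have hA : ∀ a a', A (a + a') = A a * A a' := by
    intro a a'
    show P i (fn (a + a')) = P i (fn a) * P i (fn a')
    rw [← (hP i).add _ _ (hfn a) (hfn a')]
    congr 1
    funext x
    show h x * (a (g.α j x) + a' (g.α j x)) = h x * a (g.α j x) + h x * a' (g.α j x)
    ring
  have hB : ∀ a a', B (a + a') = B a * B a' := by
    intro a a'
    show Z (t • g.α i) * A (a + a') * (Z (t • g.α i))⁻¹ = Z (t • g.α i) * A a * (Z (t • g.α i))⁻¹ *
      (Z (t • g.α i) * A a' * (Z (t • g.α i))⁻¹)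
    rw [hA]; group
  have key := LemD.lemmaD A B hA hB ?_ ?_
  · -- conclude
    have e : ∀ r : R, pt (g.W i) y r = fn (Pi.single (g.α j y) r) := by
      intro r
      funext x
      show (if (∀ u ∈ g.W i, u x = u y) then r else 0) =
        (if (∀ u ∈ g.W i ⊓ g.W j, u x = u y) then (1 : R) else 0) * (Pi.single (g.α j y) r : F → R) (g.α j x)
      by_cases h1 : ∀ u ∈ g.W i, u x = u y
      · rw [if_pos h1, if_pos (fun u hu => h1 u hu.1), h1 _ hαj, Pi.single_eq_same, one_mul]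
      · rw [if_neg h1]
        by_cases h2 : ∀ u ∈ g.W i ⊓ g.W j, u x = u y
        · rw [if_pos h2, one_mul, Pi.single_eq_of_ne]
          intro h3
          apply h1
          intro u hu
          obtain ⟨s, hs⟩ := g.dec j u (g.W_le i hu)
          have h4 := h2 (u - s • g.α j) ⟨(g.W i).sub_mem hu ((g.W i).smul_mem _ hαj), hs⟩
          simp only [Pi.sub_apply, Pi.smul_apply, h3] at h4
          exact sub_left_injective h4
        · rw [if_neg h2, zero_mul]
    rw [e, e]
    exact key _ _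
  · -- off diagonal
    intro s s' hss r r'
    refine g.cross hZ hP hαj hss (hfn _) (hfn _) ?_ ?_ t
    · intro x
      by_cases hx : g.α j x = s
      · exact Or.inr hx
      · left; show h x * (Pi.single s r : F → R) (g.α j x) = 0
        rw [Pi.single_eq_of_ne hx, mul_zero]
    · intro x
      by_cases hx : g.α j x = s'
      · exact Or.inr hx
      · left; show h x * (Pi.single s' r' : F → R) (g.α j x) = 0
        rw [Pi.single_eq_of_ne hx, mul_zero]
  · -- characters
    intro l r r'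
    have hd : ∀ r : R, Dep (g.W i ⊓ g.W j) (fun x => r * h x) := fun r => hh.comp (fun s => r * s)
    have ea : ∀ r : R, A (fun s => r * ze (l * s)) =
        Z (l • g.α j) * P j (fun x => r * h x) * (Z (l • g.α j))⁻¹ := by
      intro r
      rw [← g.P_eq hP i j (hd r), ← g.P_char hP hji.symm l ((hd r).mono inf_le_left)]
      show P i _ = P i _
      congr 1
      funext x
      show h x * (r * ze (l * g.α j x)) = ze (l * g.α j x) * (r * h x)
      ring
    have eb : B (fun s => r' * ze (l * s)) =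
        Z (l • g.α j) * P j (fun x => ze (t * g.α i x) * (r' * h x)) * (Z (l • g.α j))⁻¹ := by
      show Z (t • g.α i) * A (fun s => r' * ze (l * s)) * (Z (t • g.α i))⁻¹ =
        Z (l • g.α j) * P j (fun x => ze (t * g.α i x) * (r' * h x)) * (Z (l • g.α j))⁻¹
      rw [ea r', g.P_char hP hji t ((hd r').mono inf_le_right)]
      have hc : Commute (Z (t • g.α i)) (Z (l • g.α j)) := hZ.comm (g.smul_α_mem t i) (g.smul_α_mem l j)
      calc Z (t • g.α i) * (Z (l • g.α j) * P j (fun x => r' * h x) * (Z (l • g.α j))⁻¹) * (Z (t • g.α i))⁻¹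
          = (Z (t • g.α i) * Z (l • g.α j)) * P j (fun x => r' * h x) *
              (Z (t • g.α i) * Z (l • g.α j))⁻¹ := by group
        _ = (Z (l • g.α j) * Z (t • g.α i)) * P j (fun x => r' * h x) *
              (Z (l • g.α j) * Z (t • g.α i))⁻¹ := by rw [hc.eq]
        _ = _ := by group
    rw [ea r, eb]
    refine commute_conj ((hP j).comm ((hd r).mono inf_le_right) ?_)
    exact ((Dep.of_mem (g.α_W i j hji.symm)).comp (fun s => ze (t * s))).comp₂
      ((hd r').mono inf_le_right) (· * ·)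

/-- all conjugates commute -/
lemma comm_all (hZ : HomOn ((g.V * g.V : Submodule F (Ω → F)) : Set (Ω → F)) Z)
    (hP : ∀ i, PsiOn c (g.W i) Z (P i)) (i : F) (t : F) {f h : Ω → R} (hf : Dep (g.W i) f)
    (hh : Dep (g.W i) h) :
    Commute (P i f) (Z (t • g.α i) * P i h * (Z (t • g.α i))⁻¹) := by
  classical
  refine dep_point_induction (g.W i) (g.W_fin i)
    (fun f => Commute (P i f) (Z (t • g.α i) * P i h * (Z (t • g.α i))⁻¹)) ?_ ?_ ?_ f hf
  · show Commute (P i 0) _
    rw [(hP i).zero]; exact Commute.one_left _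
  · intro f f' hf hf' h1 h2
    show Commute (P i (f + f')) _
    rw [(hP i).add f f' hf hf']; exact h1.mul_left h2
  intro y r
  refine dep_point_induction (g.W i) (g.W_fin i)
    (fun h => Commute (P i (pt (g.W i) y r)) (Z (t • g.α i) * P i h * (Z (t • g.α i))⁻¹)) ?_ ?_ ?_ h hh
  · show Commute _ (Z (t • g.α i) * P i 0 * (Z (t • g.α i))⁻¹)
    rw [(hP i).zero, mul_one, mul_inv_cancel]; exact Commute.one_right _
  · intro f f' hf hf' h1 h2
    show Commute _ (Z (t • g.α i) * P i (f + f') * (Z (t • g.α i))⁻¹)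
    rw [(hP i).add f f' hf hf']
    have e : Z (t • g.α i) * (P i f * P i f') * (Z (t • g.α i))⁻¹ =
      (Z (t • g.α i) * P i f * (Z (t • g.α i))⁻¹) * (Z (t • g.α i) * P i f' * (Z (t • g.α i))⁻¹) := by
      group
    rw [e]
    exact h1.mul_right h2
  intro y' r'
  show Commute (P i (pt (g.W i) y r)) (Z (t • g.α i) * P i (pt (g.W i) y' r') * (Z (t • g.α i))⁻¹)
  by_cases hyy : ∀ w ∈ g.W i, w y' = w y
  · have : pt (g.W i) y' r' = pt (g.W i) y r' := by
      funext x
      unfold pt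
      have : (∀ u ∈ g.W i, u x = u y') ↔ (∀ u ∈ g.W i, u x = u y) := by
        constructor
        · intro h u hu; rw [h u hu, hyy u hu]
        · intro h u hu; rw [h u hu, hyy u hu]
      by_cases h1 : ∀ u ∈ g.W i, u x = u y
      · rw [if_pos h1, if_pos (this.2 h1)]
      · rw [if_neg h1, if_neg (fun h' => h1 (this.1 h'))]
    rw [this]
    exact g.diag hZ hP i y r r' t
  · push Not at hyy
    obtain ⟨w, hw, hne⟩ := hyy
    refine g.cross hZ hP hw hne.symm (pt_dep _ _ _) (pt_dep _ _ _) ?_ ?_ t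
    · intro x
      unfold pt
      by_cases h1 : ∀ u ∈ g.W i, u x = u y
      · exact Or.inr (h1 w hw)
      · exact Or.inl (if_neg h1)
    · intro x
      unfold pt
      by_cases h1 : ∀ u ∈ g.W i, u x = u y'
      · exact Or.inr (h1 w hw)
      · exact Or.inl (if_neg h1)

/-- conjugation by `Z (t • α 0)` -/
def cj (Z : (Ω → F) → G) (t : F) (X : G) : G := Z (t • g.α 0) * X * (Z (t • g.α 0))⁻¹

lemma cj_mul (t : F) (X Y : G) : g.cj Z t (X * Y) = g.cj Z t X * g.cj Z t Y := by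
  unfold cj; group

lemma cj_one (t : F) : g.cj Z t (1 : G) = 1 := by
  unfold cj; group

lemma cj_comm (hZ : HomOn ((g.V * g.V : Submodule F (Ω → F)) : Set (Ω → F)) Z)
    (hP : ∀ i, PsiOn c (g.W i) Z (P i)) (t t' : F) {f h : Ω → R} (hf : Dep (g.W 0) f)
    (hh : Dep (g.W 0) h) : Commute (g.cj Z t (P 0 f)) (g.cj Z t' (P 0 h)) := by
  have e : g.cj Z t' (P 0 h) = g.cj Z t (g.cj Z (t' - t) (P 0 h)) := by
    unfold cj
    have e1 : t' • g.α 0 = t • g.α 0 + (t' - t) • g.α 0 := by rw [sub_smul]; abel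
    rw [e1, hZ _ (g.smul_α_mem t 0) _ (g.smul_α_mem (t' - t) 0)]
    group
  rw [e]
  exact commute_conj (g.comm_all hZ hP 0 (t' - t) hf hh)

/-- the glued second layer -/
def gP (Z : (Ω → F) → G) (P : F → (Ω → R) → G) (f : Ω → R) : G :=
  g.cj Z 0 (P 0 (g.coef 0 0 f)) * g.cj Z 1 (P 0 (g.coef 0 1 f)) * g.cj Z 2 (P 0 (g.coef 0 2 f)) *
    g.cj Z 3 (P 0 (g.coef 0 3 f)) * g.cj Z 4 (P 0 (g.coef 0 4 f))

lemma coef_add (i t : F) (f h : Ω → R) : g.coef i t (f + h) = g.coef i t f + g.coef i t h := by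
  funext x
  unfold coef
  simp only [Pi.add_apply, mul_add, Finset.sum_add_distrib]

lemma gP_add (hZ : HomOn ((g.V * g.V : Submodule F (Ω → F)) : Set (Ω → F)) Z)
    (hP : ∀ i, PsiOn c (g.W i) Z (P i)) (f h : Ω → R) (hf : Dep g.V f) (hh : Dep g.V h) :
    g.gP Z P (f + h) = g.gP Z P f * g.gP Z P h := by
  let T : Set G := {x | ∃ t : F, ∃ f : Ω → R, Dep (g.W 0) f ∧ x = g.cj Z t (P 0 f)}
  have hC : ∀ x ∈ Subgroup.closure T, ∀ y ∈ Subgroup.closure T, Commute x y := by
    refine closure_commute ?_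
    rintro x ⟨t, f, hf, rfl⟩ y ⟨t', h, hh, rfl⟩
    exact g.cj_comm hZ hP t t' hf hh
  have hS : ∀ a ∈ {f : Ω → R | Dep g.V f}, ∀ b ∈ {f : Ω → R | Dep g.V f},
      a + b ∈ {f : Ω → R | Dep g.V f} := fun a ha b hb => Dep.add ha hb
  have fac : ∀ t : F, HomOn {f : Ω → R | Dep g.V f} (fun f => g.cj Z t (P 0 (g.coef 0 t f))) ∧
      ∀ a ∈ {f : Ω → R | Dep g.V f}, g.cj Z t (P 0 (g.coef 0 t a)) ∈ Subgroup.closure T := by
    intro t
    refine ⟨?_, fun a ha => Subgroup.subset_closure ⟨t, _, g.coef_dep 0 t ha, rfl⟩⟩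
    intro a ha b hb
    show g.cj Z t (P 0 (g.coef 0 t (a + b))) = _
    rw [coef_add, (hP 0).add _ _ (g.coef_dep 0 t ha) (g.coef_dep 0 t hb), cj_mul]
  exact (HomOn.mul' hC hS (HomOn.mul' hC hS (HomOn.mul' hC hS (HomOn.mul' hC hS (fac 0) (fac 1))
    (fac 2)) (fac 3)) (fac 4)).1 f hf h hh

lemma gP_char (hP : ∀ i, PsiOn c (g.W i) Z (P i)) (t : F) {h : Ω → R} (hh : Dep (g.W 0) h) :
    g.gP Z P (fun x => ze (t * g.α 0 x) * h x) = g.cj Z t (P 0 h) := by
  have e : ∀ t' : F, g.cj Z t' (P 0 (g.coef 0 t' (fun x => ze (t * g.α 0 x) * h x))) =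
      if t' = t then g.cj Z t (P 0 h) else 1 := by
    intro t'
    rw [g.coef_char 0 t t' hh]
    by_cases ht : t' = t
    · subst ht; rw [if_pos rfl, if_pos rfl]
    · rw [if_neg ht, if_neg ht, (hP 0).zero, cj_one]
  unfold gP
  rw [e, e, e, e, e]
  have : ∀ t : F, t = 0 ∨ t = 1 ∨ t = 2 ∨ t = 3 ∨ t = 4 := by decide
  have n01 : ¬ ((0 : F) = 1) := by decide
  have n02 : ¬ ((0 : F) = 2) := by decide
  have n03 : ¬ ((0 : F) = 3) := by decide
  have n04 : ¬ ((0 : F) = 4) := by decide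
  have n12 : ¬ ((1 : F) = 2) := by decide
  have n13 : ¬ ((1 : F) = 3) := by decide
  have n14 : ¬ ((1 : F) = 4) := by decide
  have n23 : ¬ ((2 : F) = 3) := by decide
  have n24 : ¬ ((2 : F) = 4) := by decide
  have n34 : ¬ ((3 : F) = 4) := by decide
  rcases this t with rfl | rfl | rfl | rfl | rfl
  · rw [if_pos rfl, if_neg (Ne.symm n01), if_neg (Ne.symm n02), if_neg (Ne.symm n03), if_neg (Ne.symm n04)]
    group
  · rw [if_pos rfl, if_neg n01, if_neg (Ne.symm n12), if_neg (Ne.symm n13), if_neg (Ne.symm n14)]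
    group
  · rw [if_pos rfl, if_neg n02, if_neg n12, if_neg (Ne.symm n23), if_neg (Ne.symm n24)]
    group
  · rw [if_pos rfl, if_neg n03, if_neg n13, if_neg n23, if_neg (Ne.symm n34)]
    group
  · rw [if_pos rfl, if_neg n04, if_neg n14, if_neg n24, if_neg n34]
    group

lemma cj_zero (hZ : HomOn ((g.V * g.V : Submodule F (Ω → F)) : Set (Ω → F)) Z) (X : G) :
    g.cj Z 0 X = X := by
  unfold cj
  rw [zero_smul, hZ.zero]; group

/-- the glued layer extends the given ones -/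
lemma gP_eq (hZ : HomOn ((g.V * g.V : Submodule F (Ω → F)) : Set (Ω → F)) Z)
    (hP : ∀ i, PsiOn c (g.W i) Z (P i)) (i : F) {f : Ω → R} (hf : Dep (g.W i) f) :
    g.gP Z P f = P i f := by
  have zer : ∀ f : Ω → R, Dep (g.W 0) f → g.gP Z P f = P 0 f := by
    intro f hf
    have h1 := g.gP_char hP 0 hf
    rw [g.cj_zero hZ] at h1
    rw [← h1]
    congr 1
    funext x
    rw [zero_mul, ze_zero, one_mul]
  by_cases hi : i = 0
  · subst hi; exact zer f hf
  have hc : ∀ t, Dep (g.W i ⊓ g.W 0) (g.coef 0 t f) := fun t => g.coef_dep' (Ne.symm hi) t hf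
  have hα : ∀ t : F, Dep (g.W i) (fun x => ze (t * g.α 0 x)) := fun t =>
    (Dep.of_mem (g.α_W 0 i (Ne.symm hi))).comp (fun s => ze (t * s))
  have hm : ∀ t : F, Dep (g.W i) (fun x => ze (t * g.α 0 x) * g.coef 0 t f x) := fun t =>
    (hα t).comp₂ ((hc t).mono inf_le_left) (· * ·)
  rw [g.exp 0 (hf.mono (g.W_le i))]
  refine eq_on_sum (D := Dep g.V) (D' := Dep (g.W i)) (g.gP_add hZ hP)
    (hP i).add Dep.zero Dep.zero (fun _ _ => Dep.add) (fun _ _ => Dep.add) _ _
    (fun t _ => (hm t).mono (g.W_le i)) (fun t _ => hm t) ?_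
  intro t _
  rw [g.gP_char hP t ((hc t).mono inf_le_right), g.P_char hP hi t ((hc t).mono inf_le_left),
    g.P_eq hP i 0 (hc t)]
  rfl

end Glue

end Pool.Agent.Helper638.CDB
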