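import Pool.Agent.Helper638.CDB.GluePsi3

set_option autoImplicit false

open scoped commutatorElement

namespace Pool.Agent.Helper638.CDB

variable {Ω : Type} {G : Type} [Group G]

namespace Glue
variable (g : Glue Ω) {c : G} {Z : (Ω → F) → G} {P : F → (Ω → R) → G}

lemma gP_zero (hP : ∀ i, PsiOn c (g.W i) Z (P i)) : g.gP Z P 0 = 1 := by
  have : ∀ t, g.coef 0 t 0 = 0 := by
    intro t; funext x; unfold coef; simp
  unfold gP
  simp only [this, (hP 0).zero, cj_one, mul_one]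

lemma gP_sum (hZ : HomOn ((g.V * g.V : Submodule F (Ω → F)) : Set (Ω → F)) Z)
    (hP : ∀ i, PsiOn c (g.W i) Z (P i)) (φ : Ω → F) (hφ : φ ∈ g.V * g.V) {ι : Type} (s : Finset ι)
    (f : ι → Ω → R) (hf : ∀ i ∈ s, Dep g.V (f i))
    (he : ∀ i ∈ s, Z φ * g.gP Z P (f i) * (Z φ)⁻¹ = g.gP Z P (fun x => ze (φ x) * f i x)) :
    Z φ * g.gP Z P (∑ i ∈ s, f i) * (Z φ)⁻¹ = g.gP Z P (fun x => ze (φ x) * (∑ i ∈ s, f i) x) := by
  have hze : ∀ f : Ω → R, Dep g.V f → Dep g.V (fun x => ze (φ x) * f x) := fun f hf =>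
    ((Dep.of_quad hφ).comp ze).comp₂ hf (· * ·)
  refine eq_on_sum (D := Dep g.V) (D' := Dep g.V)
    (Φ := fun f => Z φ * g.gP Z P f * (Z φ)⁻¹) (Φ' := fun f => g.gP Z P (fun x => ze (φ x) * f x))
    ?_ ?_ Dep.zero Dep.zero (fun _ _ => Dep.add) (fun _ _ => Dep.add) _ _ hf hf he
  · intro a b ha hb
    show Z φ * g.gP Z P (a + b) * (Z φ)⁻¹ = Z φ * g.gP Z P a * (Z φ)⁻¹ * (Z φ * g.gP Z P b * (Z φ)⁻¹)
    rw [g.gP_add hZ hP a b ha hb]; group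
  · intro a b ha hb
    show g.gP Z P (fun x => ze (φ x) * (a + b) x) = _
    rw [← g.gP_add hZ hP _ _ (hze a ha) (hze b hb)]
    congr 1
    funext x
    show ze (φ x) * (a x + b x) = ze (φ x) * a x + ze (φ x) * b x
    ring

/-- reduction to functions on `W 0` -/
lemma act_red (hZ : HomOn ((g.V * g.V : Submodule F (Ω → F)) : Set (Ω → F)) Z)
    (hP : ∀ i, PsiOn c (g.W i) Z (P i)) (φ : Ω → F) (hφ : φ ∈ g.V * g.V)
    (h0 : ∀ h, Dep (g.W 0) h → Z φ * P 0 h * (Z φ)⁻¹ = g.gP Z P (fun x => ze (φ x) * h x))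
    (hsh : ∀ (t : F) (h : Ω → R), Dep (g.W 0) h →
      g.cj Z t (g.gP Z P (fun x => ze (φ x) * h x)) =
        g.gP Z P (fun x => ze (t * g.α 0 x) * (ze (φ x) * h x)))
    (f : Ω → R) (hf : Dep g.V f) :
    Z φ * g.gP Z P f * (Z φ)⁻¹ = g.gP Z P (fun x => ze (φ x) * f x) := by
  have hc : ∀ t, Dep (g.W 0) (g.coef 0 t f) := fun t => g.coef_dep 0 t hf
  have hα : ∀ t : F, Dep g.V (fun x => ze (t * g.α 0 x)) := fun t =>
    (Dep.of_mem (g.α_mem 0)).comp (fun s => ze (t * s))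
  rw [g.exp 0 hf]
  refine g.gP_sum hZ hP φ hφ _ _ (fun t _ => (hα t).comp₂ ((hc t).mono (g.W_le 0)) (· * ·)) ?_
  intro t _
  rw [g.gP_char hP t (hc t)]
  have e : (fun x => ze (φ x) * (ze (t * g.α 0 x) * g.coef 0 t f x)) =
      fun x => ze (t * g.α 0 x) * (ze (φ x) * g.coef 0 t f x) := by
    funext x; ring
  rw [e, ← hsh t _ (hc t), ← h0 _ (hc t)]
  unfold cj
  have hcm : Commute (Z φ) (Z (t • g.α 0)) := hZ.comm hφ (g.smul_α_mem t 0)
  calc Z φ * (Z (t • g.α 0) * P 0 (g.coef 0 t f) * (Z (t • g.α 0))⁻¹) * (Z φ)⁻¹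
      = (Z φ * Z (t • g.α 0)) * P 0 (g.coef 0 t f) * (Z φ * Z (t • g.α 0))⁻¹ := by group
    _ = (Z (t • g.α 0) * Z φ) * P 0 (g.coef 0 t f) * (Z (t • g.α 0) * Z φ)⁻¹ := by rw [hcm.eq]
    _ = _ := by group

/-- the phases in direction `α 0` act correctly -/
lemma act_α (hZ : HomOn ((g.V * g.V : Submodule F (Ω → F)) : Set (Ω → F)) Z)
    (hP : ∀ i, PsiOn c (g.W i) Z (P i)) (t : F) (f : Ω → R) (hf : Dep g.V f) :
    Z (t • g.α 0) * g.gP Z P f * (Z (t • g.α 0))⁻¹ =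
      g.gP Z P (fun x => ze ((t • g.α 0) x) * f x) := by
  have h0 : ∀ h, Dep (g.W 0) h → Z (t • g.α 0) * P 0 h * (Z (t • g.α 0))⁻¹ =
      g.gP Z P (fun x => ze ((t • g.α 0) x) * h x) := by
    intro h hh
    exact (g.gP_char hP t hh).symm
  refine g.act_red hZ hP _ (g.smul_α_mem t 0) h0 ?_ f hf
  intro s h hh
  have e1 : g.gP Z P (fun x => ze ((t • g.α 0) x) * h x) = g.cj Z t (P 0 h) := g.gP_char hP t hh
  have e2 : g.gP Z P (fun x => ze (s * g.α 0 x) * (ze ((t • g.α 0) x) * h x)) =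
      g.cj Z (s + t) (P 0 h) := by
    rw [← g.gP_char hP (s + t) hh]
    congr 1
    funext x
    rw [← mul_assoc, ← ze_add]
    congr 2
    show s * g.α 0 x + t * g.α 0 x = (s + t) * g.α 0 x
    ring
  rw [e1, e2]
  unfold cj
  rw [add_smul, hZ _ (g.smul_α_mem s 0) _ (g.smul_α_mem t 0)]
  group

lemma act_red' (hZ : HomOn ((g.V * g.V : Submodule F (Ω → F)) : Set (Ω → F)) Z)
    (hP : ∀ i, PsiOn c (g.W i) Z (P i)) (φ : Ω → F) (hφ : φ ∈ g.V * g.V)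
    (h0 : ∀ h, Dep (g.W 0) h → Z φ * P 0 h * (Z φ)⁻¹ = g.gP Z P (fun x => ze (φ x) * h x))
    (f : Ω → R) (hf : Dep g.V f) :
    Z φ * g.gP Z P f * (Z φ)⁻¹ = g.gP Z P (fun x => ze (φ x) * f x) := by
  refine g.act_red hZ hP φ hφ h0 ?_ f hf
  intro t h hh
  exact g.act_α hZ hP t _ (((Dep.of_quad hφ).comp ze).comp₂ (hh.mono (g.W_le 0)) (· * ·))

lemma act_W (hZ : HomOn ((g.V * g.V : Submodule F (Ω → F)) : Set (Ω → F)) Z)
    (hP : ∀ i, PsiOn c (g.W i) Z (P i)) (φ : Ω → F) (hφ : φ ∈ g.W 0 * g.W 0)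
    (f : Ω → R) (hf : Dep g.V f) :
    Z φ * g.gP Z P f * (Z φ)⁻¹ = g.gP Z P (fun x => ze (φ x) * f x) := by
  refine g.act_red' hZ hP φ (g.W_mul_le 0 hφ) ?_ f hf
  intro h hh
  rw [(hP 0).act φ hφ h hh, g.gP_eq hZ hP 0]
  exact ((Dep.of_quad hφ).comp ze).comp₂ hh (· * ·)

lemma act_wα (hZ : HomOn ((g.V * g.V : Submodule F (Ω → F)) : Set (Ω → F)) Z)
    (hP : ∀ i, PsiOn c (g.W i) Z (P i)) (w : Ω → F) (hw : w ∈ g.W 0)
    (f : Ω → R) (hf : Dep g.V f) :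
    Z (w * g.α 0) * g.gP Z P f * (Z (w * g.α 0))⁻¹ =
      g.gP Z P (fun x => ze ((w * g.α 0) x) * f x) := by
  have hφ := g.mul_α_mem (g.W_le 0 hw) 0
  refine g.act_red' hZ hP _ hφ ?_ f hf
  intro h hh
  have hd : ∀ s : F, Dep (g.W 0) (fun x => if w x = s then h x else 0) := fun s =>
    (Dep.of_mem hw).comp₂ hh (fun a b => if a = s then b else 0)
  rw [← g.gP_eq hZ hP 0 hh, split_value w h]
  refine g.gP_sum hZ hP _ hφ _ _ (fun s _ => (hd s).mono (g.W_le 0)) ?_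
  intro s _
  rw [g.gP_eq hZ hP 0 (hd s)]
  have hw' : w - s • 1 ∈ g.W 0 := (g.W 0).sub_mem hw ((g.W 0).smul_mem _ (g.one_mem 0))
  have c2 : Commute (Z ((w - s • 1) * g.α 0)) (P 0 (fun x => if w x = s then h x else 0)) := by
    refine g.A2 hZ hP hw' (hd s) ?_
    intro x
    by_cases hx : w x = s
    · right; simp [hx]
    · left; simp [hx]
  have e : w * g.α 0 = s • g.α 0 + (w - s • 1) * g.α 0 := by
    rw [sub_mul, smul_mul_assoc, one_mul]; abel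
  have e2 : Z (w * g.α 0) = Z (s • g.α 0) * Z ((w - s • 1) * g.α 0) := by
    conv_lhs => rw [e]
    exact hZ _ (g.smul_α_mem s 0) _ (g.mul_α_mem (g.W_le 0 hw') 0)
  have e3 : (fun x => ze ((w * g.α 0) x) * (if w x = s then h x else 0)) =
      fun x => ze (s * g.α 0 x) * (if w x = s then h x else 0) := by
    funext x
    by_cases hx : w x = s
    · rw [if_pos hx]; show ze (w x * g.α 0 x) * h x = _; rw [hx]
    · rw [if_neg hx, mul_zero, mul_zero]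
  rw [e3, g.gP_char hP s (hd s), e2]
  unfold cj
  calc Z (s • g.α 0) * Z ((w - s • 1) * g.α 0) * P 0 (fun x => if w x = s then h x else 0) *
        (Z (s • g.α 0) * Z ((w - s • 1) * g.α 0))⁻¹
      = Z (s • g.α 0) * (Z ((w - s • 1) * g.α 0) * P 0 (fun x => if w x = s then h x else 0) *
          (Z ((w - s • 1) * g.α 0))⁻¹) * (Z (s • g.α 0))⁻¹ := by group
    _ = _ := by rw [conj_of_commute c2]

lemma act_αα (hZ : HomOn ((g.V * g.V : Submodule F (Ω → F)) : Set (Ω → F)) Z)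
    (hP : ∀ i, PsiOn c (g.W i) Z (P i)) (a : F)
    (f : Ω → R) (hf : Dep g.V f) :
    Z (a • (g.α 0 * g.α 0)) * g.gP Z P f * (Z (a • (g.α 0 * g.α 0)))⁻¹ =
      g.gP Z P (fun x => ze ((a • (g.α 0 * g.α 0)) x) * f x) := by
  have n01 : (0 : F) ≠ 1 := by decide
  have hφ : a • (g.α 0 * g.α 0) ∈ g.V * g.V :=
    Submodule.smul_mem _ a (Submodule.mul_mem_mul (g.α_mem 0) (g.α_mem 0))
  have hφ1 : a • (g.α 0 * g.α 0) ∈ g.W 1 * g.W 1 :=
    Submodule.smul_mem _ a (Submodule.mul_mem_mul (g.α_W 0 1 n01) (g.α_W 0 1 n01))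
  refine g.act_red' hZ hP _ hφ ?_ f hf
  intro h hh
  -- expand `h` along `α 1`
  have hc : ∀ t, Dep (g.W 0 ⊓ g.W 1) (g.coef 1 t h) := fun t => g.coef_dep' n01.symm t hh
  have hα : ∀ t : F, Dep (g.W 0) (fun x => ze (t * g.α 1 x)) := fun t =>
    (Dep.of_mem (g.α_W 1 0 n01.symm)).comp (fun s => ze (t * s))
  have hm : ∀ t : F, Dep (g.W 0) (fun x => ze (t * g.α 1 x) * g.coef 1 t h x) := fun t =>
    (hα t).comp₂ ((hc t).mono inf_le_left) (· * ·)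
  rw [← g.gP_eq hZ hP 0 hh, g.exp 1 (hh.mono (g.W_le 0))]
  refine g.gP_sum hZ hP _ hφ _ _ (fun t _ => (hm t).mono (g.W_le 0)) ?_
  intro t _
  have hα1 : t • g.α 1 ∈ g.W 0 * g.W 0 := g.mem_quad_W ((g.W 0).smul_mem t (g.α_W 1 0 n01.symm))
  have hd1 : Dep (g.W 1) (fun x => ze ((a • (g.α 0 * g.α 0)) x) * g.coef 1 t h x) :=
    ((Dep.of_quad hφ1).comp ze).comp₂ ((hc t).mono inf_le_right) (· * ·)
  have e := g.act_W hZ hP (t • g.α 1) hα1 _ (hd1.mono (g.W_le 1))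
  have e0 := g.act_W hZ hP (t • g.α 1) hα1 _ ((hc t).mono (inf_le_left.trans (g.W_le 0)))
  have e1 : g.gP Z P (fun x => ze (t * g.α 1 x) * g.coef 1 t h x) =
      Z (t • g.α 1) * g.gP Z P (g.coef 1 t h) * (Z (t • g.α 1))⁻¹ := by rw [e0]; rfl
  have e2 : g.gP Z P (fun x => ze ((a • (g.α 0 * g.α 0)) x) * (ze (t * g.α 1 x) * g.coef 1 t h x)) =
      Z (t • g.α 1) * g.gP Z P (fun x => ze ((a • (g.α 0 * g.α 0)) x) * g.coef 1 t h x) *
        (Z (t • g.α 1))⁻¹ := by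
    rw [e]
    congr 1
    funext x
    show _ = ze (t * g.α 1 x) * (ze ((a • (g.α 0 * g.α 0)) x) * g.coef 1 t h x)
    ring
  rw [e1, e2, g.gP_eq hZ hP 1 hd1, ← (hP 1).act _ hφ1 _ ((hc t).mono inf_le_right),
    g.gP_eq hZ hP 1 ((hc t).mono inf_le_right)]
  have hcm : Commute (Z (a • (g.α 0 * g.α 0))) (Z (t • g.α 1)) := hZ.comm hφ (g.smul_α_mem t 1)
  set X := Z (a • (g.α 0 * g.α 0))
  set Y := Z (t • g.α 1)
  calc X * (Y * P 1 (g.coef 1 t h) * Y⁻¹) * X⁻¹ = (X * Y) * P 1 (g.coef 1 t h) * (X * Y)⁻¹ := by group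
    _ = (Y * X) * P 1 (g.coef 1 t h) * (Y * X)⁻¹ := by rw [hcm.eq]
    _ = _ := by group

/-- composition of two actions -/
lemma act_add (hZ : HomOn ((g.V * g.V : Submodule F (Ω → F)) : Set (Ω → F)) Z)
    {φ ψ : Ω → F} (hφ : φ ∈ g.V * g.V) (hψ : ψ ∈ g.V * g.V)
    (h1 : ∀ f, Dep g.V f → Z φ * g.gP Z P f * (Z φ)⁻¹ = g.gP Z P (fun x => ze (φ x) * f x))
    (h2 : ∀ f, Dep g.V f → Z ψ * g.gP Z P f * (Z ψ)⁻¹ = g.gP Z P (fun x => ze (ψ x) * f x)) :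
    ∀ f, Dep g.V f → Z (φ + ψ) * g.gP Z P f * (Z (φ + ψ))⁻¹ =
      g.gP Z P (fun x => ze ((φ + ψ) x) * f x) := by
  intro f hf
  have hd : Dep g.V (fun x => ze (ψ x) * f x) := ((Dep.of_quad hψ).comp ze).comp₂ hf (· * ·)
  have e : (fun x => ze ((φ + ψ) x) * f x) = fun x => ze (φ x) * (ze (ψ x) * f x) := by
    funext x
    rw [Pi.add_apply, ze_add, mul_assoc]
  rw [e, ← h1 _ hd, ← h2 f hf, hZ _ hφ _ hψ]
  group

/-- the second layer on `V` -/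
theorem gP_psi (hZ : HomOn ((g.V * g.V : Submodule F (Ω → F)) : Set (Ω → F)) Z)
    (hP : ∀ i, PsiOn c (g.W i) Z (P i)) : PsiOn c g.V Z (g.gP Z P) where
  add := g.gP_add hZ hP
  one := by rw [g.gP_eq hZ hP 0 Dep.one, (hP 0).one]
  act := by
    intro φ hφ
    refine Submodule.mul_induction_on' (C := fun φ _ => ∀ f, Dep g.V f →
      Z φ * g.gP Z P f * (Z φ)⁻¹ = g.gP Z P (fun x => ze (φ x) * f x)) ?_ ?_ hφ
    · intro u hu v hv
      obtain ⟨a, ha⟩ := g.dec 0 u hu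
      obtain ⟨b, hb⟩ := g.dec 0 v hv
      obtain ⟨w, hw⟩ : ∃ w, w = u - a • g.α 0 := ⟨_, rfl⟩
      obtain ⟨w', hw'⟩ : ∃ w', w' = v - b • g.α 0 := ⟨_, rfl⟩
      rw [← hw] at ha
      rw [← hw'] at hb
      have e : u * v = (w * w' + (b • w + a • w') * g.α 0) + (a * b) • (g.α 0 * g.α 0) := by
        have hu' : u = w + a • g.α 0 := by rw [hw]; abel
        have hv' : v = w' + b • g.α 0 := by rw [hw']; abel
        rw [hu', hv']
        simp only [Algebra.smul_def, map_mul]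
        ring
      have m1 : w * w' ∈ g.W 0 * g.W 0 := Submodule.mul_mem_mul ha hb
      have m2 : b • w + a • w' ∈ g.W 0 :=
        (g.W 0).add_mem ((g.W 0).smul_mem _ ha) ((g.W 0).smul_mem _ hb)
      have m3 : (a * b) • (g.α 0 * g.α 0) ∈ g.V * g.V :=
        Submodule.smul_mem _ _ (Submodule.mul_mem_mul (g.α_mem 0) (g.α_mem 0))
      have m2' := g.mul_α_mem (g.W_le 0 m2) 0
      rw [e]
      exact g.act_add hZ (Submodule.add_mem _ (g.W_mul_le 0 m1) m2') m3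
        (g.act_add hZ (g.W_mul_le 0 m1) m2' (g.act_W hZ hP _ m1) (g.act_wα hZ hP _ m2))
        (g.act_αα hZ hP _)
    · intro φ hφ ψ hψ h1 h2
      exact g.act_add hZ hφ hψ h1 h2

end Glue

end Pool.Agent.Helper638.CDB
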