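import Pool.Agent.Helper638.CDB.Defs

set_option autoImplicit false

open scoped commutatorElement

namespace Pool.Agent.Helper638.CDB

variable {Ω : Type} {G : Type} [Group G]

/-- `f` is a homomorphism on the additive submodule `S` -/
def HomOn {A : Type} [AddCommGroup A] (S : Set A) (f : A → G) : Prop :=
  ∀ a ∈ S, ∀ b ∈ S, f (a + b) = f a * f b

namespace HomOn
variable {A : Type} [AddCommGroup A] [Module F A] {S : Submodule F A} {f g : A → G}

lemma zero (h : HomOn (S : Set A) f) : f 0 = 1 := by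
  have := h 0 S.zero_mem 0 S.zero_mem
  rw [add_zero] at this
  exact left_eq_mul.mp this

lemma comm (h : HomOn (S : Set A) f) {a b : A} (ha : a ∈ S) (hb : b ∈ S) : Commute (f a) (f b) := by
  show f a * f b = f b * f a
  rw [← h a ha b hb, ← h b hb a ha, add_comm]

lemma neg (h : HomOn (S : Set A) f) {a : A} (ha : a ∈ S) : f (-a) = (f a)⁻¹ := by
  have := h a ha (-a) (S.neg_mem ha)
  rw [add_neg_cancel, h.zero] at this
  exact eq_inv_of_mul_eq_one_right this.symm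

lemma sub (h : HomOn (S : Set A) f) {a b : A} (ha : a ∈ S) (hb : b ∈ S) :
    f (a - b) = f a * (f b)⁻¹ := by
  rw [sub_eq_add_neg, h a ha _ (S.neg_mem hb), h.neg hb]

end HomOn

lemma closure_commute {T : Set G} (hT : ∀ x ∈ T, ∀ y ∈ T, Commute x y) :
    ∀ x ∈ Subgroup.closure T, ∀ y ∈ Subgroup.closure T, Commute x y := by
  intro x hx y hy
  induction hx, hy using Subgroup.closure_induction₂ with
  | mem x y hx hy => exact hT x hx y hy
  | one_left x hx => exact Commute.one_left x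
  | one_right x hx => exact Commute.one_right x
  | mul_left x y z _ _ _ h1 h2 => exact h1.mul_left h2
  | mul_right x y z _ _ _ h1 h2 => exact h1.mul_right h2
  | inv_left x y _ _ h => exact h.inv_left
  | inv_right x y _ _ h => exact h.inv_right

/-- product of two homomorphisms into a commutative subgroup -/
lemma HomOn.mul' {A : Type} [AddCommGroup A] {S : Set A} {f g : A → G} {C : Subgroup G}
    (hC : ∀ x ∈ C, ∀ y ∈ C, Commute x y) (hS : ∀ a ∈ S, ∀ b ∈ S, a + b ∈ S)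
    (hf : HomOn S f ∧ ∀ a ∈ S, f a ∈ C) (hg : HomOn S g ∧ ∀ a ∈ S, g a ∈ C) :
    HomOn S (fun a => f a * g a) ∧ ∀ a ∈ S, f a * g a ∈ C := by
  refine ⟨?_, fun a ha => C.mul_mem (hf.2 a ha) (hg.2 a ha)⟩
  intro a ha b hb
  show f (a + b) * g (a + b) = f a * g a * (f b * g b)
  rw [hf.1 a ha b hb, hg.1 a ha b hb]
  have := hC _ (hf.2 b hb) _ (hg.2 a ha)
  calc f a * f b * (g a * g b) = f a * (f b * g a) * g b := by group
    _ = f a * (g a * f b) * g b := by rw [this.eq]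
    _ = _ := by group

lemma HomOn.inv' {A : Type} [AddCommGroup A] {S : Set A} {f : A → G} {C : Subgroup G}
    (hC : ∀ x ∈ C, ∀ y ∈ C, Commute x y)
    (hf : HomOn S f ∧ ∀ a ∈ S, f a ∈ C) :
    HomOn S (fun a => (f a)⁻¹) ∧ ∀ a ∈ S, (f a)⁻¹ ∈ C := by
  refine ⟨?_, fun a ha => C.inv_mem (hf.2 a ha)⟩
  intro a ha b hb
  show (f (a + b))⁻¹ = (f a)⁻¹ * (f b)⁻¹
  rw [hf.1 a ha b hb, (hC _ (hf.2 a ha) _ (hf.2 b hb)).eq, mul_inv_rev]

namespace Glue
variable (g : Glue Ω)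

/-- restriction to the coordinate hyperplane `α i = 0` -/
def res (i : F) {T : Type} (φ : Ω → T) : Ω → T := fun x => φ (g.σ i 0 x)

lemma res_mul (i : F) (φ ψ : Ω → F) : g.res i (φ * ψ) = g.res i φ * g.res i ψ := rfl
lemma res_add (i : F) (φ ψ : Ω → F) : g.res i (φ + ψ) = g.res i φ + g.res i ψ := rfl
lemma res_sub (i : F) (φ ψ : Ω → F) : g.res i (φ - ψ) = g.res i φ - g.res i ψ := rfl
lemma res_smul (i : F) (s : F) (φ : Ω → F) : g.res i (s • φ) = s • g.res i φ := rfl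

lemma res_of_mem {i : F} {u : Ω → F} (hu : u ∈ g.W i) : g.res i u = u := by
  funext x; exact g.σ_W i 0 x u hu

lemma res_α (i : F) : g.res i (g.α i) = 0 := by
  funext x; exact g.σ_α i 0 x

lemma res_eq {i : F} {u : Ω → F} {s : F} (hs : u - s • g.α i ∈ g.W i) :
    g.res i u = u - s • g.α i := by
  have h := g.res_of_mem hs
  rw [res_sub, res_smul, res_α, smul_zero, sub_zero] at h
  exact h

lemma res_mem_W (i : F) {u : Ω → F} (hu : u ∈ g.V) : g.res i u ∈ g.W i := by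
  obtain ⟨s, hs⟩ := g.dec i u hu
  rw [g.res_eq hs]; exact hs

lemma res_mem_W' {i j : F} {u : Ω → F} (hu : u ∈ g.W j) : g.res i u ∈ g.W j := by
  by_cases hij : i = j
  · subst hij; rw [g.res_of_mem hu]; exact hu
  obtain ⟨s, hs⟩ := g.dec i u (g.W_le j hu)
  rw [g.res_eq hs]
  exact (g.W j).sub_mem hu ((g.W j).smul_mem s (g.α_W i j hij))

lemma res_quad (i : F) {φ : Ω → F} (hφ : φ ∈ g.V * g.V) : g.res i φ ∈ g.W i * g.W i := by
  refine Submodule.mul_induction_on hφ ?_ ?_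
  · intro u hu v hv
    exact Submodule.mul_mem_mul (g.res_mem_W i hu) (g.res_mem_W i hv)
  · intro a b ha hb
    exact (g.W i * g.W i).add_mem ha hb

lemma res_quad' (i j : F) {φ : Ω → F} (hφ : φ ∈ g.W j * g.W j) :
    g.res i φ ∈ (g.W i ⊓ g.W j) * (g.W i ⊓ g.W j) := by
  refine Submodule.mul_induction_on hφ ?_ ?_
  · intro u hu v hv
    exact Submodule.mul_mem_mul ⟨g.res_mem_W i (g.W_le j hu), g.res_mem_W' hu⟩
      ⟨g.res_mem_W i (g.W_le j hv), g.res_mem_W' hv⟩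
  · intro a b ha hb
    exact Submodule.add_mem _ ha hb

lemma W_mul_le (i : F) : g.W i * g.W i ≤ g.V * g.V := mul_le_mul' (g.W_le i) (g.W_le i)

lemma one_mem_V : (1 : Ω → F) ∈ g.V := g.W_le 0 (g.one_mem 0)

lemma mem_quad {u : Ω → F} (hu : u ∈ g.V) : u ∈ g.V * g.V := by
  have := Submodule.mul_mem_mul hu g.one_mem_V
  rwa [mul_one] at this

lemma mem_quad_W {i : F} {u : Ω → F} (hu : u ∈ g.W i) : u ∈ g.W i * g.W i := by
  have := Submodule.mul_mem_mul hu (g.one_mem i)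
  rwa [mul_one] at this

/-- inclusion-exclusion for quadratic functions -/
lemma incl_excl {φ : Ω → F} (hφ : φ ∈ g.V * g.V) :
    φ = g.res 0 φ + g.res 1 φ + g.res 2 φ - g.res 0 (g.res 1 φ) - g.res 0 (g.res 2 φ)
      - g.res 1 (g.res 2 φ) + g.res 0 (g.res 1 (g.res 2 φ)) := by
  refine Submodule.mul_induction_on hφ ?_ ?_
  · intro u hu v hv
    have key : ∀ u ∈ g.V, ∃ w : Ω → F, ∃ a b c : F, u = w + a • g.α 0 + b • g.α 1 + c • g.α 2 ∧
        w ∈ g.W 0 ∧ w ∈ g.W 1 ∧ w ∈ g.W 2 := by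
      intro u hu
      obtain ⟨a, ha⟩ := g.dec 0 u hu
      obtain ⟨b, hb⟩ := g.dec 1 u hu
      obtain ⟨c, hc⟩ := g.dec 2 u hu
      refine ⟨u - a • g.α 0 - b • g.α 1 - c • g.α 2, a, b, c, by abel, ?_, ?_, ?_⟩
      · have h1 := (g.W 0).smul_mem b (g.α_W 1 0 (by decide))
        have h2 := (g.W 0).smul_mem c (g.α_W 2 0 (by decide))
        exact (g.W 0).sub_mem ((g.W 0).sub_mem ha h1) h2
      · have h1 := (g.W 1).smul_mem a (g.α_W 0 1 (by decide))
        have h2 := (g.W 1).smul_mem c (g.α_W 2 1 (by decide))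
        have := (g.W 1).sub_mem ((g.W 1).sub_mem hb h1) h2
        convert this using 1
        abel
      · have h1 := (g.W 2).smul_mem a (g.α_W 0 2 (by decide))
        have h2 := (g.W 2).smul_mem b (g.α_W 1 2 (by decide))
        have := (g.W 2).sub_mem ((g.W 2).sub_mem hc h1) h2
        convert this using 1
        abel
    obtain ⟨w, a, b, c, hu', w0, w1, w2⟩ := key u hu
    obtain ⟨w', a', b', c', hv', w0', w1', w2'⟩ := key v hv
    have r : ∀ i j : F, i ≠ j → g.res i (g.α j) = g.α j := fun i j hij =>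
      g.res_of_mem (g.α_W j i (Ne.symm hij))
    have r01 := r 0 1 (by decide)
    have r02 := r 0 2 (by decide)
    have r10 := r 1 0 (by decide)
    have r12 := r 1 2 (by decide)
    have r20 := r 2 0 (by decide)
    have r21 := r 2 1 (by decide)
    rw [hu', hv']
    simp only [res_mul, res_add, res_smul, r01, r02, r10, r12, r20, r21, res_α,
      g.res_of_mem w0, g.res_of_mem w1, g.res_of_mem w2, g.res_of_mem w0', g.res_of_mem w1',
      g.res_of_mem w2', smul_zero, add_zero]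
    simp only [Algebra.smul_def]
    ring
  · intro a b ha hb
    simp only [res_add]
    conv_lhs => rw [ha, hb]
    abel

/-- every element of `W i` is a sum of special elements (in all `W j` but at most one) -/
lemma special_span (i : F) {u : Ω → F} (hu : u ∈ g.W i) :
    u ∈ AddSubgroup.closure {β : Ω → F | β ∈ g.W i ∧ ∃ k, ∀ j, j ≠ k → β ∈ g.W j} := by
  classical
  have hu' := g.W_le i hu
  choose s0 hs0 using fun k => g.dec k u hu'
  let s : F → F := fun k => if k = i then 0 else s0 k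
  have hs : ∀ k, u - s k • g.α k ∈ g.W k := by
    intro k
    by_cases hk : k = i
    · subst hk; simp only [s, if_true, zero_smul, sub_zero]; exact hu
    · simp only [s, if_neg hk]; exact hs0 k
  have hsub : ∀ j, u - ∑ k, s k • g.α k ∈ g.W j := by
    intro j
    have h1 : u - ∑ k, s k • g.α k = (u - s j • g.α j) - ∑ k ∈ Finset.univ.erase j, s k • g.α k := by
      rw [← Finset.add_sum_erase Finset.univ (fun k => s k • g.α k) (Finset.mem_univ j)]
      abel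
    rw [h1]
    refine (g.W j).sub_mem (hs j) ((g.W j).sum_mem fun k hk => (g.W j).smul_mem _ (g.α_W k j ?_))
    exact Finset.ne_of_mem_erase hk
  have h2 : u = (u - ∑ k, s k • g.α k) + ∑ k, s k • g.α k := by abel
  rw [h2]
  refine AddSubgroup.add_mem _ (AddSubgroup.subset_closure ⟨hsub i, 0, fun j _ => hsub j⟩) ?_
  refine AddSubgroup.sum_mem _ fun k _ => AddSubgroup.subset_closure ⟨?_, k, fun j hj => ?_⟩
  · by_cases hk : k = i
    · subst hk; simp only [s, if_true, zero_smul]; exact (g.W k).zero_mem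
    · exact (g.W i).smul_mem _ (g.α_W k i hk)
  · exact (g.W j).smul_mem _ (g.α_W k j (Ne.symm hj))

lemma four_index : ∀ a b c d : F, ∃ s : F, s ≠ a ∧ s ≠ b ∧ s ≠ c ∧ s ≠ d := by decide

/-- commutation across the hyperplanes -/
lemma Z_comm (Z : F → (Ω → F) → G) (hZ : ∀ i, HomOn ((g.W i * g.W i : Submodule F (Ω → F)) : Set (Ω → F)) (Z i))
    (hc : ∀ i j, ∀ u ∈ g.W i ⊓ g.W j, ∀ v ∈ g.W i ⊓ g.W j, Z i (u * v) = Z j (u * v))
    (i j : F) {φ ψ : Ω → F} (hφ : φ ∈ g.W i * g.W i) (hψ : ψ ∈ g.W j * g.W j) :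
    Commute (Z i φ) (Z j ψ) := by
  -- special elements
  have base : ∀ β, (β ∈ g.W i ∧ ∃ k, ∀ m, m ≠ k → β ∈ g.W m) →
      ∀ γ, (γ ∈ g.W i ∧ ∃ k, ∀ m, m ≠ k → γ ∈ g.W m) →
      ∀ β', (β' ∈ g.W j ∧ ∃ k, ∀ m, m ≠ k → β' ∈ g.W m) →
      ∀ γ', (γ' ∈ g.W j ∧ ∃ k, ∀ m, m ≠ k → γ' ∈ g.W m) →
      Commute (Z i (β * γ)) (Z j (β' * γ')) := by
    rintro β ⟨hβ, k1, h1⟩ γ ⟨hγ, k2, h2⟩ β' ⟨hβ', k3, h3⟩ γ' ⟨hγ', k4, h4⟩
    obtain ⟨s, n1, n2, n3, n4⟩ := four_index k1 k2 k3 k4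
    rw [hc i s β ⟨hβ, h1 s n1⟩ γ ⟨hγ, h2 s n2⟩, hc j s β' ⟨hβ', h3 s n3⟩ γ' ⟨hγ', h4 s n4⟩]
    exact (hZ s).comm (Submodule.mul_mem_mul (h1 s n1) (h2 s n2))
      (Submodule.mul_mem_mul (h3 s n3) (h4 s n4))
  -- extend in each variable
  have ext : ∀ (i : F) (x : G) (v : Ω → F), v ∈ g.W i →
      (∀ β, (β ∈ g.W i ∧ ∃ k, ∀ m, m ≠ k → β ∈ g.W m) → Commute (Z i (β * v)) x) →
      ∀ u ∈ g.W i, Commute (Z i (u * v)) x := by
    intro i x v hv hb u hu
    have hcl := g.special_span i hu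
    have : u ∈ g.W i ∧ Commute (Z i (u * v)) x := by
      clear hu
      induction hcl using AddSubgroup.closure_induction with
      | mem y hy => exact ⟨hy.1, hb y hy⟩
      | zero =>
        refine ⟨(g.W i).zero_mem, ?_⟩
        rw [zero_mul, (hZ i).zero]; exact Commute.one_left x
      | add a b _ _ ha hb' =>
        refine ⟨(g.W i).add_mem ha.1 hb'.1, ?_⟩
        rw [add_mul, hZ i _ (Submodule.mul_mem_mul ha.1 hv) _ (Submodule.mul_mem_mul hb'.1 hv)]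
        exact ha.2.mul_left hb'.2
      | neg a _ ha =>
        refine ⟨(g.W i).neg_mem ha.1, ?_⟩
        rw [neg_mul, (hZ i).neg (Submodule.mul_mem_mul ha.1 hv)]
        exact ha.2.inv_left
    exact this.2
  have sp : ∀ (i : F) (β : Ω → F), (β ∈ g.W i ∧ ∃ k, ∀ m, m ≠ k → β ∈ g.W m) → β ∈ g.W i :=
    fun i β h => h.1
  -- all products
  have prod : ∀ u ∈ g.W i, ∀ v ∈ g.W i, ∀ u' ∈ g.W j, ∀ v' ∈ g.W j,
      Commute (Z i (u * v)) (Z j (u' * v')) := by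
    intro u hu v hv u' hu' v' hv'
    refine ext i _ v hv ?_ u hu
    intro β hβ
    rw [mul_comm β v]
    refine ext i _ β hβ.1 ?_ v hv
    intro γ hγ
    refine (ext j _ v' hv' ?_ u' hu').symm
    intro β' hβ'
    rw [mul_comm β' v']
    refine ext j _ β' hβ'.1 ?_ v' hv'
    intro γ' hγ'
    exact (base γ hγ β hβ γ' hγ' β' hβ').symm
  -- all quadratic functions
  have h2 : ∀ u ∈ g.W i, ∀ v ∈ g.W i, Commute (Z i (u * v)) (Z j ψ) := by
    intro u hu v hv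
    have : ψ ∈ g.W j * g.W j ∧ Commute (Z i (u * v)) (Z j ψ) := by
      refine Submodule.mul_induction_on' (C := fun ψ _ => ψ ∈ g.W j * g.W j ∧ Commute (Z i (u * v)) (Z j ψ)) ?_ ?_ hψ
      · intro u' hu' v' hv'
        exact ⟨Submodule.mul_mem_mul hu' hv', prod u hu v hv u' hu' v' hv'⟩
      · intro a _ b _ ha hb
        refine ⟨Submodule.add_mem _ ha.1 hb.1, ?_⟩
        rw [hZ j _ ha.1 _ hb.1]
        exact ha.2.mul_right hb.2
    exact this.2
  have h3 : φ ∈ g.W i * g.W i ∧ Commute (Z i φ) (Z j ψ) := by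
    refine Submodule.mul_induction_on' (C := fun φ _ => φ ∈ g.W i * g.W i ∧ Commute (Z i φ) (Z j ψ)) ?_ ?_ hφ
    · intro u' hu' v' hv'
      exact ⟨Submodule.mul_mem_mul hu' hv', h2 u' hu' v' hv'⟩
    · intro a _ b _ ha hb
      refine ⟨Submodule.add_mem _ ha.1 hb.1, ?_⟩
      rw [hZ i _ ha.1 _ hb.1]
      exact ha.2.mul_left hb.2
  exact h3.2

/-- the glued homomorphism -/
def gZ (Z : F → (Ω → F) → G) (φ : Ω → F) : G :=
  Z 0 (g.res 0 φ) * Z 1 (g.res 1 φ) * Z 2 (g.res 2 φ) * (Z 0 (g.res 0 (g.res 1 φ)))⁻¹ *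
    (Z 0 (g.res 0 (g.res 2 φ)))⁻¹ * (Z 1 (g.res 1 (g.res 2 φ)))⁻¹ * Z 0 (g.res 0 (g.res 1 (g.res 2 φ)))

/-- compatibility extends from products to quadratic functions -/
lemma compat_quad (Z : F → (Ω → F) → G)
    (hZ : ∀ i, HomOn ((g.W i * g.W i : Submodule F (Ω → F)) : Set (Ω → F)) (Z i))
    (hc : ∀ i j, ∀ u ∈ g.W i ⊓ g.W j, ∀ v ∈ g.W i ⊓ g.W j, Z i (u * v) = Z j (u * v))
    (i j : F) {φ : Ω → F} (hφ : φ ∈ (g.W i ⊓ g.W j) * (g.W i ⊓ g.W j)) : Z i φ = Z j φ := by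
  have hi : (g.W i ⊓ g.W j) * (g.W i ⊓ g.W j) ≤ g.W i * g.W i := mul_le_mul' inf_le_left inf_le_left
  have hj : (g.W i ⊓ g.W j) * (g.W i ⊓ g.W j) ≤ g.W j * g.W j := mul_le_mul' inf_le_right inf_le_right
  refine Submodule.mul_induction_on' (C := fun φ _ => Z i φ = Z j φ) ?_ ?_ hφ
  · intro u hu v hv; exact hc i j u hu v hv
  · intro a ha b hb h1 h2
    rw [hZ i _ (hi ha) _ (hi hb), hZ j _ (hj ha) _ (hj hb), h1, h2]

lemma gZ_eq (Z : F → (Ω → F) → G)
    (hZ : ∀ i, HomOn ((g.W i * g.W i : Submodule F (Ω → F)) : Set (Ω → F)) (Z i))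
    (hc : ∀ i j, ∀ u ∈ g.W i ⊓ g.W j, ∀ v ∈ g.W i ⊓ g.W j, Z i (u * v) = Z j (u * v))
    (i : F) {φ : Ω → F} (hφ : φ ∈ g.W i * g.W i) : g.gZ Z φ = Z i φ := by
  have q : ∀ k, ∀ ψ ∈ g.W i * g.W i, Z k (g.res k ψ) = Z i (g.res k ψ) := by
    intro k ψ hψ
    exact g.compat_quad Z hZ hc k i (g.res_quad' k i hψ)
  have m : ∀ k, ∀ ψ ∈ g.W i * g.W i, g.res k ψ ∈ g.W i * g.W i := by
    intro k ψ hψ
    exact (mul_le_mul' inf_le_right inf_le_right : (g.W k ⊓ g.W i) * (g.W k ⊓ g.W i) ≤ g.W i * g.W i) (g.res_quad' k i hψ)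
  have key := g.incl_excl (g.W_mul_le i hφ)
  unfold gZ
  rw [q 0 φ hφ, q 1 φ hφ, q 2 φ hφ, q 0 _ (m 1 _ hφ), q 0 _ (m 2 _ hφ), q 1 _ (m 2 _ hφ),
    q 0 _ (m 1 _ (m 2 _ hφ))]
  have hh := hZ i
  have M0 := m 0 _ hφ
  have M1 := m 1 _ hφ
  have M2 := m 2 _ hφ
  have M01 := m 0 _ M1
  have M02 := m 0 _ M2
  have M12 := m 1 _ M2
  have M012 := m 0 _ M12
  set S := g.W i * g.W i
  conv_rhs => rw [key]
  rw [hh _ (S.sub_mem (S.sub_mem (S.sub_mem (S.add_mem (S.add_mem M0 M1) M2) M01) M02) M12) _ M012,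
    hh.sub (S.sub_mem (S.sub_mem (S.add_mem (S.add_mem M0 M1) M2) M01) M02) M12,
    hh.sub (S.sub_mem (S.add_mem (S.add_mem M0 M1) M2) M01) M02,
    hh.sub (S.add_mem (S.add_mem M0 M1) M2) M01,
    hh _ (S.add_mem M0 M1) _ M2, hh _ M0 _ M1]

lemma gZ_hom (Z : F → (Ω → F) → G)
    (hZ : ∀ i, HomOn ((g.W i * g.W i : Submodule F (Ω → F)) : Set (Ω → F)) (Z i))
    (hc : ∀ i j, ∀ u ∈ g.W i ⊓ g.W j, ∀ v ∈ g.W i ⊓ g.W j, Z i (u * v) = Z j (u * v)) :
    HomOn ((g.V * g.V : Submodule F (Ω → F)) : Set (Ω → F)) (g.gZ Z) := by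
  let T : Set G := {x | ∃ i, ∃ φ ∈ g.W i * g.W i, x = Z i φ}
  let C := Subgroup.closure T
  have hC : ∀ x ∈ C, ∀ y ∈ C, Commute x y := by
    refine closure_commute ?_
    rintro x ⟨i, φ, hφ, rfl⟩ y ⟨j, ψ, hψ, rfl⟩
    exact g.Z_comm Z hZ hc i j hφ hψ
  have hS : ∀ a ∈ ((g.V * g.V : Submodule F (Ω → F)) : Set (Ω → F)),
      ∀ b ∈ ((g.V * g.V : Submodule F (Ω → F)) : Set (Ω → F)),
      a + b ∈ ((g.V * g.V : Submodule F (Ω → F)) : Set (Ω → F)) :=
    fun a ha b hb => Submodule.add_mem _ ha hb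
  -- a factor
  have fac : ∀ (i : F) (f : (Ω → F) → (Ω → F)),
      (∀ a b, f (a + b) = f a + f b) → (∀ a ∈ g.V * g.V, f a ∈ g.W i * g.W i) →
      HomOn ((g.V * g.V : Submodule F (Ω → F)) : Set (Ω → F)) (fun a => Z i (f a)) ∧
        ∀ a ∈ ((g.V * g.V : Submodule F (Ω → F)) : Set (Ω → F)), Z i (f a) ∈ C := by
    intro i f hf hm
    refine ⟨?_, fun a ha => Subgroup.subset_closure ⟨i, f a, hm a ha, rfl⟩⟩
    intro a ha b hb
    show Z i (f (a + b)) = Z i (f a) * Z i (f b)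
    rw [hf, hZ i _ (hm a ha) _ (hm b hb)]
  have up : ∀ i, g.W i * g.W i ≤ g.V * g.V := g.W_mul_le
  have f0 := fac 0 (fun φ => g.res 0 φ) (fun _ _ => rfl) (fun a ha => g.res_quad 0 ha)
  have f1 := fac 1 (fun φ => g.res 1 φ) (fun _ _ => rfl) (fun a ha => g.res_quad 1 ha)
  have f2 := fac 2 (fun φ => g.res 2 φ) (fun _ _ => rfl) (fun a ha => g.res_quad 2 ha)
  have f01 := fac 0 (fun φ => g.res 0 (g.res 1 φ)) (fun _ _ => rfl)
    (fun a ha => g.res_quad 0 (up _ (g.res_quad 1 ha)))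
  have f02 := fac 0 (fun φ => g.res 0 (g.res 2 φ)) (fun _ _ => rfl)
    (fun a ha => g.res_quad 0 (up _ (g.res_quad 2 ha)))
  have f12 := fac 1 (fun φ => g.res 1 (g.res 2 φ)) (fun _ _ => rfl)
    (fun a ha => g.res_quad 1 (up _ (g.res_quad 2 ha)))
  have f012 := fac 0 (fun φ => g.res 0 (g.res 1 (g.res 2 φ))) (fun _ _ => rfl)
    (fun a ha => g.res_quad 0 (up _ (g.res_quad 1 (up _ (g.res_quad 2 ha)))))
  exact ((HomOn.mul' hC hS (HomOn.mul' hC hS (HomOn.mul' hC hS (HomOn.mul' hC hS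
    (HomOn.mul' hC hS (HomOn.mul' hC hS f0 f1) f2) (HomOn.inv' hC f01)) (HomOn.inv' hC f02))
    (HomOn.inv' hC f12)) f012)).1

end Glue

end Pool.Agent.Helper638.CDB
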