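import Pool.Agent.Helper638.CDB.GlueB
import Pool.Agent.Helper638.CDB.Geo

set_option autoImplicit false

open scoped commutatorElement

namespace Pool.Agent.Helper638.CDB

variable {Ω : Type} {G : Type} [Group G]

/-- functions composed with `θ` -/
def cp {T : Type} (θ : Ω → Ω) (φ : Ω → T) : Ω → T := fun x => φ (θ x)

lemma cp_mul_mem {V W : Submodule F (Ω → F)} {θ : Ω → Ω} (h : ∀ u ∈ W, cp θ u ∈ V) {φ : Ω → F}
    (hφ : φ ∈ W * W) : cp θ φ ∈ V * V := by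
  refine Submodule.mul_induction_on hφ ?_ ?_
  · intro u hu v hv
    exact Submodule.mul_mem_mul (h u hu) (h v hv)
  · intro a b ha hb
    exact (V * V).add_mem ha hb

lemma cp_dep {V W : Submodule F (Ω → F)} {θ : Ω → Ω} (h : ∀ u ∈ W, cp θ u ∈ V) {T : Type}
    {f : Ω → T} (hf : Dep W f) : Dep V (cp θ f) := by
  intro x y hxy
  exact hf _ _ (fun u hu => hxy _ (h u hu))

/-- transport of the data by an element commuting with `B` and `c` -/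
lemma Good.transport {B : Subgroup G} {c : G} {V W : Submodule F (Ω → F)} {Z : (Ω → F) → G}
    {P : (Ω → R) → G} (hg : Good B c V Z P) {θ : Ω → Ω} (h : ∀ u ∈ W, cp θ u ∈ V) {t : G}
    (htc : Commute t c) (htB : ∀ b ∈ B, Commute t b) :
    Good B c W (fun φ => t⁻¹ * Z (cp θ φ) * t) (fun f => t⁻¹ * P (cp θ f) * t) where
  Z_add := by
    intro φ hφ ψ hψ
    show t⁻¹ * Z (cp θ φ + cp θ ψ) * t = _
    rw [hg.Z_add _ (cp_mul_mem h hφ) _ (cp_mul_mem h hψ)]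
    group
  P_add := by
    intro f f' hf hf'
    show t⁻¹ * P (cp θ f + cp θ f') * t = _
    rw [hg.P_add _ _ (cp_dep h hf) (cp_dep h hf')]
    group
  P_one := by
    show t⁻¹ * P 1 * t = c
    rw [hg.P_one, mul_assoc, ← htc.eq]; group
  act := by
    intro φ hφ f hf
    have := hg.act _ (cp_mul_mem h hφ) _ (cp_dep h hf)
    show t⁻¹ * Z (cp θ φ) * t * (t⁻¹ * P (cp θ f) * t) * (t⁻¹ * Z (cp θ φ) * t)⁻¹ =
      t⁻¹ * P (fun x => ze (cp θ φ x) * cp θ f x) * t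
    rw [← this]
    group
  loc := by
    intro f f' hf hf' h0 b hb
    have := hg.loc _ _ (cp_dep h hf) (cp_dep h hf') (fun x => h0 (θ x)) b hb
    have h2 := commute_conj (Z := t⁻¹) this
    have e : t⁻¹ * ⁅b, P (cp θ f)⁆ * t⁻¹⁻¹ = ⁅b, t⁻¹ * P (cp θ f) * t⁆ := by
      have hb' : t⁻¹ * b * t = b := by rw [mul_assoc, ← (htB b hb).eq]; group
      have e1 : t⁻¹ * ⁅b, P (cp θ f)⁆ * t⁻¹⁻¹ = ⁅t⁻¹ * b * t, t⁻¹ * P (cp θ f) * t⁆ := by
        simp only [commutatorElement_def]; group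
      rw [e1, hb']
    rw [e, inv_inv] at h2
    exact h2
  ltp := by
    intro u hu v hv f hf h0 b hb
    have := hg.ltp _ (h u hu) _ (h v hv) _ (cp_dep h hf) (fun x => h0 (θ x)) b hb
    have h2 := commute_conj (Z := t⁻¹) this
    have e : t⁻¹ * ⁅b, P (cp θ f)⁆ * t⁻¹⁻¹ = ⁅b, t⁻¹ * P (cp θ f) * t⁆ := by
      have hb' : t⁻¹ * b * t = b := by rw [mul_assoc, ← (htB b hb).eq]; group
      have e1 : t⁻¹ * ⁅b, P (cp θ f)⁆ * t⁻¹⁻¹ = ⁅t⁻¹ * b * t, t⁻¹ * P (cp θ f) * t⁆ := by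
        simp only [commutatorElement_def]; group
      rw [e1, hb']
    rw [e, inv_inv] at h2
    exact h2

lemma Good.psi {B : Subgroup G} {c : G} {V : Submodule F (Ω → F)} {Z : (Ω → F) → G}
    {P : (Ω → R) → G} (hg : Good B c V Z P) : PsiOn c V Z P := ⟨hg.P_add, hg.P_one, hg.act⟩

namespace Level
open Geo

/-- the inductive data : `n` stands for degree `n + 1` -/
structure Lv (B : Subgroup G) (c : G) (t : F → G) (n : ℕ) (Z : (Geo.Ω → F) → G)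
    (P : (Geo.Ω → R) → G) : Prop where
  good : Good B c (V (n + 1)) Z P
  rel : ∀ i, ∀ φ ∈ A i n * A i n, t i * Z φ * (t i)⁻¹ = Z (cp (θ i) φ)

lemma A_cp (i : F) (n : ℕ) : ∀ u ∈ A i n, cp (θ i) u ∈ V n := fun u hu => (comp_θ_mem_iff i n u).2 hu

theorem step {B : Subgroup G} {c : G} {t : F → G} {n : ℕ} (hn : 3 ≤ n)
    (hB : ∀ b ∈ B, b ∈ Subgroup.closure {g : G | ∃ b' ∈ B, ∃ k : ℕ, g = ⁅b', c ^ k⁆})
    (htt : ∀ i j, Commute (t i) (t j)) (htc : ∀ i, Commute (t i) c) (htB : ∀ i, ∀ b ∈ B, Commute (t i) b)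
    {Z : (Geo.Ω → F) → G} {P : (Geo.Ω → R) → G} (h : Lv B c t n Z P) :
    ∃ Z' P', Lv B c t (n + 1) Z' P' ∧ (∀ φ ∈ V (n + 1) * V (n + 1), Z' φ = Z φ) ∧
      (∀ f, Dep (V (n + 1)) f → P' f = P f) ∧
      (∀ i, ∀ φ ∈ A i (n + 1) * A i (n + 1), Z' φ = (t i)⁻¹ * Z (cp (θ i) φ) * t i) ∧
      (∀ i, ∀ f, Dep (A i (n + 1)) f → P' f = (t i)⁻¹ * P (cp (θ i) f) * t i) := by
  obtain ⟨g, gV, gW⟩ := exists_glue (n + 1) (by omega)
  obtain ⟨g0, g0V, g0W⟩ := exists_glue n hn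
  have hgood : ∀ i, Good B c (g.W i) (fun φ => (t i)⁻¹ * Z (cp (θ i) φ) * t i)
      (fun f => (t i)⁻¹ * P (cp (θ i) f) * t i) := by
    intro i
    rw [gW i]
    exact h.good.transport (A_cp i (n + 1)) (htc i) (htB i)
  have hcomp : ∀ i j, ∀ u ∈ g.W i ⊓ g.W j, ∀ v ∈ g.W i ⊓ g.W j,
      (t i)⁻¹ * Z (cp (θ i) (u * v)) * t i = (t j)⁻¹ * Z (cp (θ j) (u * v)) * t j := by
    intro i j u hu v hv
    by_cases hij : i = j
    · rw [hij]
    rw [gW i, gW j] at hu hv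
    have ui : cp (θ i) u ∈ A j n := comp_θ_mem_A i j hij n u hu.1 hu.2
    have vi : cp (θ i) v ∈ A j n := comp_θ_mem_A i j hij n v hv.1 hv.2
    have uj : cp (θ j) u ∈ A i n := comp_θ_mem_A j i (Ne.symm hij) n u hu.2 hu.1
    have vj : cp (θ j) v ∈ A i n := comp_θ_mem_A j i (Ne.symm hij) n v hv.2 hv.1
    have e1 := h.rel j (cp (θ i) (u * v)) (Submodule.mul_mem_mul ui vi)
    have e2 := h.rel i (cp (θ j) (u * v)) (Submodule.mul_mem_mul uj vj)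
    have e3 : cp (θ j) (cp (θ i) (u * v)) = cp (θ i) (cp (θ j) (u * v)) := by
      funext y
      show (u * v) (θ i (θ j y)) = (u * v) (θ j (θ i y))
      rw [θ_comm]
    rw [e3, ← e2] at e1
    have e4 : Z (cp (θ i) (u * v)) = (t j)⁻¹ * (t i * Z (cp (θ j) (u * v)) * (t i)⁻¹) * t j := by
      rw [← e1]; group
    rw [e4]
    have hc := htt i j
    have hc2 : t i * (t j) = t j * t i := hc.eq
    calc (t i)⁻¹ * ((t j)⁻¹ * (t i * Z (cp (θ j) (u * v)) * (t i)⁻¹) * t j) * t i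
        = (t j * t i)⁻¹ * t i * Z (cp (θ j) (u * v)) * ((t i)⁻¹ * (t j * t i)) := by group
      _ = (t i * t j)⁻¹ * t i * Z (cp (θ j) (u * v)) * ((t i)⁻¹ * (t i * t j)) := by rw [hc2]
      _ = _ := by group
  obtain ⟨Z', P', hG', hZ', hP'⟩ := glue g hB hgood hcomp
  rw [gV] at hG'
  -- `Z' = Z` on `V (n+1)`
  have hZZ : ∀ φ ∈ V (n + 1) * V (n + 1), Z' φ = Z φ := by
    have hmono : V (n + 1) ≤ V (n + 2) := V_mono (n + 1)
    have hA : ∀ i, ∀ φ ∈ A i n * A i n, Z' φ = Z φ := by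
      intro i φ hφ
      have h1 : φ ∈ g.W i * g.W i := by
        rw [gW i]
        exact mul_le_mul' (A_mono i n) (A_mono i n) hφ
      rw [hZ' i φ h1, ← h.rel i φ hφ]
      group
    have hA' : ∀ i, A i n * A i n ≤ V (n + 1) * V (n + 1) := fun i =>
      mul_le_mul' (A_le_V i n) (A_le_V i n)
    intro φ hφ
    rw [← g0V] at hφ
    have key := g0.incl_excl hφ
    have up : ∀ i, g0.W i * g0.W i ≤ g0.V * g0.V := g0.W_mul_le
    have m0 : g0.res 0 φ ∈ A 0 n * A 0 n := by rw [← g0W]; exact g0.res_quad 0 hφ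
    have m1 : g0.res 1 φ ∈ A 1 n * A 1 n := by rw [← g0W]; exact g0.res_quad 1 hφ
    have m2 : g0.res 2 φ ∈ A 2 n * A 2 n := by rw [← g0W]; exact g0.res_quad 2 hφ
    have k1 := up 1 (g0.res_quad 1 hφ)
    have k2 := up 2 (g0.res_quad 2 hφ)
    have m01 : g0.res 0 (g0.res 1 φ) ∈ A 0 n * A 0 n := by rw [← g0W]; exact g0.res_quad 0 k1
    have m02 : g0.res 0 (g0.res 2 φ) ∈ A 0 n * A 0 n := by rw [← g0W]; exact g0.res_quad 0 k2
    have m12 : g0.res 1 (g0.res 2 φ) ∈ A 1 n * A 1 n := by rw [← g0W]; exact g0.res_quad 1 k2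
    have m012 : g0.res 0 (g0.res 1 (g0.res 2 φ)) ∈ A 0 n * A 0 n := by
      rw [← g0W]; exact g0.res_quad 0 (up 1 (g0.res_quad 1 k2))
    have hz : HomOn ((V (n + 1) * V (n + 1) : Submodule F (Geo.Ω → F)) : Set (Geo.Ω → F)) Z :=
      fun a ha b hb => h.good.Z_add a ha b hb
    have hz' : HomOn ((V (n + 1) * V (n + 1) : Submodule F (Geo.Ω → F)) : Set (Geo.Ω → F)) Z' :=
      fun a ha b hb => hG'.Z_add a (mul_le_mul' hmono hmono ha) b (mul_le_mul' hmono hmono hb)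
    have n0 := hA' _ m0
    have n1 := hA' _ m1
    have n2 := hA' _ m2
    have n01 := hA' _ m01
    have n02 := hA' _ m02
    have n12 := hA' _ m12
    have n012 := hA' _ m012
    have expand : ∀ ζ : (Geo.Ω → F) → G,
        HomOn ((V (n + 1) * V (n + 1) : Submodule F (Geo.Ω → F)) : Set (Geo.Ω → F)) ζ →
        ζ φ = ζ (g0.res 0 φ) * ζ (g0.res 1 φ) * ζ (g0.res 2 φ) * (ζ (g0.res 0 (g0.res 1 φ)))⁻¹ *
          (ζ (g0.res 0 (g0.res 2 φ)))⁻¹ * (ζ (g0.res 1 (g0.res 2 φ)))⁻¹ *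
          ζ (g0.res 0 (g0.res 1 (g0.res 2 φ))) := by
      intro ζ hh
      set S := V (n + 1) * V (n + 1)
      conv_lhs => rw [key]
      rw [hh _ (S.sub_mem (S.sub_mem (S.sub_mem (S.add_mem (S.add_mem n0 n1) n2) n01) n02) n12) _ n012,
        hh.sub (S.sub_mem (S.sub_mem (S.add_mem (S.add_mem n0 n1) n2) n01) n02) n12,
        hh.sub (S.sub_mem (S.add_mem (S.add_mem n0 n1) n2) n01) n02,
        hh.sub (S.add_mem (S.add_mem n0 n1) n2) n01,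
        hh _ (S.add_mem n0 n1) _ n2, hh _ n0 _ n1]
    rw [expand Z hz, expand Z' hz', hA _ _ m0, hA _ _ m1, hA _ _ m2, hA _ _ m01, hA _ _ m02,
      hA _ _ m12, hA _ _ m012]
  have hPP : ∀ f, Dep (V (n + 1)) f → P' f = P f := by
    intro f hf
    have p1 : PsiOn c (V (n + 1)) Z' P' := hG'.psi.mono (V_mono (n + 1))
    have p2 : PsiOn c (V (n + 1)) Z' P := h.good.psi.congrZ hZZ
    exact p1.uniq p2 (V_finite (n + 1)) (one_mem_V (n + 1)) hf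
  refine ⟨Z', P', ⟨hG', ?_⟩, hZZ, hPP, ?_, ?_⟩
  · intro i φ hφ
    have h1 : φ ∈ g.W i * g.W i := by rw [gW i]; exact hφ
    rw [hZ' i φ h1, hZZ _ (cp_mul_mem (A_cp i (n + 1)) hφ)]
    group
  · intro i φ hφ
    have h1 : φ ∈ g.W i * g.W i := by rw [gW i]; exact hφ
    exact hZ' i φ h1
  · intro i f hf
    have h1 : Dep (g.W i) f := by rw [gW i]; exact hf
    exact hP' i f h1

/-- all levels -/
theorem levels {B : Subgroup G} {c : G} {t : F → G}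
    (hB : ∀ b ∈ B, b ∈ Subgroup.closure {g : G | ∃ b' ∈ B, ∃ k : ℕ, g = ⁅b', c ^ k⁆})
    (htt : ∀ i j, Commute (t i) (t j)) (htc : ∀ i, Commute (t i) c) (htB : ∀ i, ∀ b ∈ B, Commute (t i) b)
    {Z₀ : (Geo.Ω → F) → G} {P₀ : (Geo.Ω → R) → G} (h : Lv B c t 3 Z₀ P₀) :
    ∃ (Z : ℕ → (Geo.Ω → F) → G) (P : ℕ → (Geo.Ω → R) → G), Z 0 = Z₀ ∧ P 0 = P₀ ∧
      (∀ n, Good B c (V (n + 4)) (Z n) (P n)) ∧
      (∀ n, ∀ φ ∈ V (n + 4) * V (n + 4), Z (n + 1) φ = Z n φ) ∧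
      (∀ n, ∀ f, Dep (V (n + 4)) f → P (n + 1) f = P n f) ∧
      (∀ n i, ∀ φ ∈ A i (n + 4) * A i (n + 4), Z (n + 1) φ = (t i)⁻¹ * Z n (cp (θ i) φ) * t i) ∧
      (∀ n i, ∀ f, Dep (A i (n + 4)) f → P (n + 1) f = (t i)⁻¹ * P n (cp (θ i) f) * t i) := by
  let T : ℕ → Type := fun n =>
    {q : ((Geo.Ω → F) → G) × ((Geo.Ω → R) → G) // Lv B c t (n + 3) q.1 q.2}
  have st : ∀ n, ∀ q : T n, ∃ q' : T (n + 1), (∀ φ ∈ V (n + 4) * V (n + 4), q'.1.1 φ = q.1.1 φ) ∧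
      (∀ f, Dep (V (n + 4)) f → q'.1.2 f = q.1.2 f) ∧
      (∀ i, ∀ φ ∈ A i (n + 4) * A i (n + 4), q'.1.1 φ = (t i)⁻¹ * q.1.1 (cp (θ i) φ) * t i) ∧
      (∀ i, ∀ f, Dep (A i (n + 4)) f → q'.1.2 f = (t i)⁻¹ * q.1.2 (cp (θ i) f) * t i) := by
    rintro n ⟨⟨Z, P⟩, hq⟩
    obtain ⟨Z', P', h1, h2, h3, h4, h5⟩ := step (n := n + 3) (by omega) hB htt htc htB hq
    exact ⟨⟨⟨Z', P'⟩, h1⟩, h2, h3, h4, h5⟩
  choose nx hnx using st
  let q : ∀ n, T n := fun n => Nat.rec (motive := T) ⟨⟨Z₀, P₀⟩, h⟩ (fun n q => nx n q) n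
  refine ⟨fun n => (q n).1.1, fun n => (q n).1.2, rfl, rfl, fun n => (q n).2.good,
    fun n => (hnx n (q n)).1, fun n => (hnx n (q n)).2.1, fun n i => (hnx n (q n)).2.2.1 i,
    fun n i => (hnx n (q n)).2.2.2 i⟩

end Level

end Pool.Agent.Helper638.CDB
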