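import Pool.Agent.Helper638.CDB.Pres

set_option autoImplicit false

open scoped commutatorElement

namespace Pool.Agent.Helper638.CDB
namespace Pres
open Geo

variable {H : Type} [Group H] (c τ : H) (B : Subgroup H)

lemma rels_finite [Finite H] : (rels c τ B).Finite := by
  have : Finite (Γ c τ B) := Gam_finite (V_finite 4)
  refine ((Set.finite_range _).union (Set.finite_range _)).union ?_
  refine (Set.finite_range (r3 c τ B)).subset ?_
  rintro r ⟨p, -, rfl⟩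
  exact ⟨p, rfl⟩

/-- finite presentation in the frozen form -/
theorem fp [Finite H] : ∃ (n : ℕ) (φ : FreeGroup (Fin n) →* G c τ B), Function.Surjective φ ∧
    ∃ S : Finset (FreeGroup (Fin n)),
      Subgroup.normalClosure (↑S : Set (FreeGroup (Fin n))) = φ.ker := by
  classical
  have : Finite (Γ c τ B) := Gam_finite (V_finite 4)
  obtain ⟨n, ⟨E⟩⟩ := Finite.exists_equiv_fin (α c τ B)
  let e : FreeGroup (Fin n) ≃* FreeGroup (α c τ B) := FreeGroup.freeGroupCongr E.symm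
  let φ : FreeGroup (Fin n) →* G c τ B := (PresentedGroup.mk (rels c τ B)).comp e.toMonoidHom
  have hfin : (e ⁻¹' (rels c τ B)).Finite :=
    (rels_finite c τ B).preimage e.injective.injOn
  refine ⟨n, φ, ?_, hfin.toFinset, ?_⟩
  · exact (PresentedGroup.mk_surjective _).comp e.surjective
  · rw [Set.Finite.coe_toFinset, Subgroup.comap_normalClosure]
    ext x
    rw [Subgroup.mem_comap, MonoidHom.mem_ker]
    exact PresentedGroup.mk_eq_one_iff.symm

/-- the model action of the functions -/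
def mo (H : Type) [Group H] : (Geo.Ω → H) →* Equiv.Perm (Geo.Ω × H) where
  toFun γ :=
    { toFun := fun p => (p.1, γ p.1 * p.2)
      invFun := fun p => (p.1, (γ p.1)⁻¹ * p.2)
      left_inv := fun p => by simp
      right_inv := fun p => by simp }
  map_one' := by ext p <;> simp
  map_mul' γ δ := by
    apply Equiv.ext
    intro p
    show (p.1, (γ p.1 * δ p.1) * p.2) = (p.1, γ p.1 * (δ p.1 * p.2))
    rw [mul_assoc]

/-- the model action of the stable letters -/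
noncomputable def mt (H : Type) (i : F) : Equiv.Perm (Geo.Ω × H) where
  toFun p := ((θ i).symm p.1, p.2)
  invFun p := (θ i p.1, p.2)
  left_inv p := by simp
  right_inv p := by simp

lemma mt_act (i : F) (γ : Geo.Ω → H) : mt H i * mo H γ * (mt H i)⁻¹ = mo H (cp (θ i) γ) := by
  apply Equiv.ext
  intro p
  show ((θ i).symm (θ i p.1), γ (θ i p.1) * p.2) = (p.1, γ (θ i p.1) * p.2)
  rw [Equiv.symm_apply_apply]

lemma mt_comm (i j : F) : Commute (mt H i) (mt H j) := by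
  apply Equiv.ext
  intro p
  show ((θ i).symm ((θ j).symm p.1), p.2) = ((θ j).symm ((θ i).symm p.1), p.2)
  congr 1
  apply LinearMap.ext
  intro a
  rw [θ_symm_apply, θ_symm_apply, θ_symm_apply, θ_symm_apply]
  congr 1
  ring

/-- the model -/
noncomputable def rho : G c τ B →* Equiv.Perm (Geo.Ω × H) :=
  PresentedGroup.toGroup (f := Sum.elim (fun x : Γ c τ B => mo H x.1) (mt H)) (by
    rintro r ((⟨⟨x, y⟩, rfl⟩ | ⟨⟨i, j⟩, rfl⟩) | ⟨⟨i, x, y⟩, h, rfl⟩)
    · simp only [r1, map_mul, map_inv, FreeGroup.lift_apply_of, Sum.elim_inl, Subgroup.coe_mul]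
      exact mul_inv_cancel _
    · simp only [r2, map_mul, map_inv, FreeGroup.lift_apply_of, Sum.elim_inr]
      have := mt_comm (H := H) i j
      rw [this.eq]; group
    · simp only [r3, map_mul, map_inv, FreeGroup.lift_apply_of, Sum.elim_inr, Sum.elim_inl]
      rw [mt_act]
      have h' : y.1 = cp (θ i) x.1 := h
      rw [h', mul_inv_cancel])

lemma rho_em {x : Geo.Ω → H} (hx : x ∈ Γ c τ B) : rho c τ B (em c τ B x) = mo H x := by
  rw [em_of c τ B hx]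
  exact PresentedGroup.toGroup.of _

lemma rho_t (i : F) : rho c τ B (t c τ B i) = mt H i := PresentedGroup.toGroup.of _

lemma mt_pow_act (i : F) (γ : Geo.Ω → H) (n : ℕ) :
    mt H i ^ n * mo H γ * (mt H i ^ n)⁻¹ = mo H (fun y => γ ((θ i)^[n] y)) := by
  induction n with
  | zero => simp
  | succ n ih =>
    have e : mt H i ^ (n + 1) * mo H γ * (mt H i ^ (n + 1))⁻¹ =
        mt H i * (mt H i ^ n * mo H γ * (mt H i ^ n)⁻¹) * (mt H i)⁻¹ := by
      rw [pow_succ']; group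
    rw [e, ih, mt_act]
    rfl

lemma theta_pow (i : F) (n : ℕ) (y : Geo.Ω) (a : K) : ((θ i)^[n] y) a = y (((l i)⁻¹) ^ n * a) := by
  induction n generalizing y with
  | zero => simp
  | succ n ih =>
    rw [Function.iterate_succ_apply, ih, θ_apply, pow_succ', mul_assoc]

lemma l_pow_ne (n m : ℕ) (h : n ≠ m) : ((l 0)⁻¹) ^ n - ((l 0)⁻¹) ^ m ≠ 0 := by
  intro h0
  apply h
  have h1 : (l 0) ^ n = (l 0) ^ m := by
    have := sub_eq_zero.1 h0
    rw [inv_pow, inv_pow] at this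
    exact inv_injective this
  unfold l at h1
  rw [← map_pow, ← map_pow] at h1
  have h2 := IsFractionRing.injective (Polynomial F) K h1
  have h3 := congrArg Polynomial.natDegree h2
  rw [Polynomial.natDegree_pow, Polynomial.natDegree_pow, Polynomial.natDegree_X_sub_C] at h3
  omega

/-- the key element of a finite-index normal subgroup -/
theorem exists_w (hc : c ^ 11 = 1) (hτ : τ ^ 5 = 1) (hτc : τ * c * τ⁻¹ = c ^ 3)
    (N : Subgroup (G c τ B)) [N.Normal] [N.FiniteIndex] :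
    ∃ (y0 : Geo.Ω) (w : G c τ B) (γ : Geo.Ω → H), w ∈ N ∧ rho c τ B w = mo H γ ∧ γ y0 = c := by
  classical
  let u0 : Geo.Ω → F := fun y => y 1
  have hu0 : u0 ∈ V 4 := ⟨0, 1, ⟨1, by simp, by simp⟩, by funext y; simp [u0]⟩
  have hu : u0 ∈ V 4 * V 4 := by
    have := Submodule.mul_mem_mul hu0 (one_mem_V 4)
    rwa [mul_one] at this
  have hmem : ph τ u0 ∈ Γ c τ B := ph_mem hu
  let x : ℕ → G c τ B := fun n => t c τ B 0 ^ n * em c τ B (ph τ u0) * (t c τ B 0 ^ n)⁻¹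
  have hx : ∀ n, rho c τ B (x n) = mo H (fun y => τ ^ (y (((l 0)⁻¹) ^ n)).val) := by
    intro n
    show rho c τ B (t c τ B 0 ^ n * em c τ B (ph τ u0) * (t c τ B 0 ^ n)⁻¹) = _
    rw [map_mul, map_mul, map_inv, map_pow, rho_t, rho_em c τ B hmem, mt_pow_act]
    congr 1
    funext y
    show τ ^ (((θ 0)^[n] y) 1).val = _
    rw [theta_pow, mul_one]
  obtain ⟨n, m, hnm, hq⟩ := Finite.exists_ne_map_eq_of_infinite
    (fun n : ℕ => (QuotientGroup.mk (x n) : G c τ B ⧸ N))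
  obtain ⟨g, hg⟩ : ∃ g, g = x n * (x m)⁻¹ := ⟨_, rfl⟩
  have hgN : g ∈ N := by
    rw [hg, ← QuotientGroup.eq_one_iff]
    rw [QuotientGroup.mk_mul, QuotientGroup.mk_inv]
    show (QuotientGroup.mk (x n) : G c τ B ⧸ N) * (QuotientGroup.mk (x m) : G c τ B ⧸ N)⁻¹ = 1
    have hq' : (QuotientGroup.mk (x n) : G c τ B ⧸ N) = QuotientGroup.mk (x m) := hq
    rw [hq', mul_inv_cancel]
  obtain ⟨d, hd⟩ : ∃ d : K, d = ((l 0)⁻¹) ^ n - ((l 0)⁻¹) ^ m := ⟨_, rfl⟩
  have hd0 : d ≠ 0 := by rw [hd]; exact l_pow_ne n m hnm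
  obtain ⟨y0, hy0⟩ : ∃ y0 : Geo.Ω, y0 d = 1 := by
    have h1 : ¬ ∀ φ : Module.Dual F K, φ d = 0 := fun h =>
      hd0 ((Module.forall_dual_apply_eq_zero_iff F d).1 h)
    push Not at h1
    obtain ⟨φ, hφ⟩ := h1
    exact ⟨(φ d)⁻¹ • φ, by rw [LinearMap.smul_apply, smul_eq_mul, inv_mul_cancel₀ hφ]⟩
  -- the value of `g`
  obtain ⟨δ, hδ, hδ0⟩ : ∃ δ : Geo.Ω → H, rho c τ B g = mo H δ ∧ δ y0 = τ := by
    refine ⟨(fun y => τ ^ (y (((l 0)⁻¹) ^ n)).val) * (fun y => τ ^ (y (((l 0)⁻¹) ^ m)).val)⁻¹, ?_, ?_⟩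
    · rw [hg, map_mul, map_inv, hx, hx, map_mul, map_inv]
    · show τ ^ (y0 (((l 0)⁻¹) ^ n)).val * (τ ^ (y0 (((l 0)⁻¹) ^ m)).val)⁻¹ = τ
      rw [mul_inv_eq_iff_eq_mul]
      have e : y0 (((l 0)⁻¹) ^ n) = 1 + y0 (((l 0)⁻¹) ^ m) := by
        rw [hd, map_sub] at hy0
        exact sub_eq_iff_eq_add.1 hy0
      rw [e, pow_val_add hτ]
      have : (1 : F).val = 1 := by decide
      rw [this, pow_one]
  -- the element `w`
  have hρc : rho c τ B (cG c τ B) = mo H (cst Geo.Ω H c) := rho_em c τ B (cst_c_mem c τ B)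
  have hc11 : (cG c τ B) ^ 11 = 1 := by
    rw [← em_pow c τ B (cst_c_mem c τ B), ← map_pow, hc, map_one, em_one]
  let C := cG c τ B
  refine ⟨y0, C ^ 9 * (g * C ^ 3 * g⁻¹) * (g ^ 2 * C * (g ^ 2)⁻¹) * (g ^ 3 * C ^ 4 * (g ^ 3)⁻¹) *
    (g ^ 4 * C ^ 5 * (g ^ 4)⁻¹),
    (cst Geo.Ω H c) ^ 9 * (δ * (cst Geo.Ω H c) ^ 3 * δ⁻¹) * (δ ^ 2 * (cst Geo.Ω H c) * (δ ^ 2)⁻¹) *
      (δ ^ 3 * (cst Geo.Ω H c) ^ 4 * (δ ^ 3)⁻¹) * (δ ^ 4 * (cst Geo.Ω H c) ^ 5 * (δ ^ 4)⁻¹), ?_, ?_, ?_⟩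
  · rw [← QuotientGroup.eq_one_iff]
    have hg1 : (QuotientGroup.mk g : G c τ B ⧸ N) = 1 := (QuotientGroup.eq_one_iff g).2 hgN
    simp only [QuotientGroup.mk_mul, QuotientGroup.mk_inv, QuotientGroup.mk_pow, hg1, one_pow,
      inv_one, mul_one, one_mul]
    have hC : (QuotientGroup.mk C : G c τ B ⧸ N) ^ 11 = 1 := by
      rw [← QuotientGroup.mk_pow]
      show (QuotientGroup.mk ((cG c τ B) ^ 11) : G c τ B ⧸ N) = 1
      rw [hc11]; rfl
    have e : (QuotientGroup.mk C : G c τ B ⧸ N) ^ 9 * (QuotientGroup.mk C : G c τ B ⧸ N) ^ 3 *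
        (QuotientGroup.mk C : G c τ B ⧸ N) * (QuotientGroup.mk C : G c τ B ⧸ N) ^ 4 *
        (QuotientGroup.mk C : G c τ B ⧸ N) ^ 5 = ((QuotientGroup.mk C : G c τ B ⧸ N) ^ 11) ^ 2 := by
      group
    rw [e, hC, one_pow]
  · simp only [map_mul, map_inv, map_pow, hδ]
    show _ = _
    have : rho c τ B C = mo H (cst Geo.Ω H c) := hρc
    rw [this]
  · show c ^ 9 * (δ y0 * c ^ 3 * (δ y0)⁻¹) * (δ y0 ^ 2 * c * (δ y0 ^ 2)⁻¹) *
      (δ y0 ^ 3 * c ^ 4 * (δ y0 ^ 3)⁻¹) * (δ y0 ^ 4 * c ^ 5 * (δ y0 ^ 4)⁻¹) = c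
    rw [hδ0]
    have h1 : ∀ (s : F) (r : R), τ ^ s.val * c ^ r.val * (τ ^ s.val)⁻¹ = c ^ (ze s * r).val :=
      fun s r => tau_c hc hτc s r
    have a1 : τ * c ^ 3 * τ⁻¹ = c ^ 9 := by
      have := h1 1 3
      have e1 : (1 : F).val = 1 := by decide
      have e2 : (3 : R).val = 3 := by decide
      have e3 : (ze 1 * 3 : R).val = 9 := by decide
      rwa [e1, e2, e3, pow_one] at this
    have a2 : τ ^ 2 * c * (τ ^ 2)⁻¹ = c ^ 9 := by
      have := h1 2 1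
      have e1 : (2 : F).val = 2 := by decide
      have e2 : (1 : R).val = 1 := by decide
      have e3 : (ze 2 * 1 : R).val = 9 := by decide
      rwa [e1, e2, e3, pow_one] at this
    have a3 : τ ^ 3 * c ^ 4 * (τ ^ 3)⁻¹ = c ^ 9 := by
      have := h1 3 4
      have e1 : (3 : F).val = 3 := by decide
      have e2 : (4 : R).val = 4 := by decide
      have e3 : (ze 3 * 4 : R).val = 9 := by decide
      rwa [e1, e2, e3] at this
    have a4 : τ ^ 4 * c ^ 5 * (τ ^ 4)⁻¹ = c ^ 9 := by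
      have := h1 4 5
      have e1 : (4 : F).val = 4 := by decide
      have e2 : (5 : R).val = 5 := by decide
      have e3 : (ze 4 * 5 : R).val = 9 := by decide
      rwa [e1, e2, e3] at this
    rw [a1, a2, a3, a4]
    have e : c ^ 9 * c ^ 9 * c ^ 9 * c ^ 9 * c ^ 9 = (c ^ 11) ^ 4 * c := by group
    rw [e, hc, one_pow, one_mul]

end Pres
end Pool.Agent.Helper638.CDB
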