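import Pool.Agent.Helper638.CDB.Base

set_option autoImplicit false

open scoped commutatorElement

namespace Pool.Agent.Helper638.CDB
namespace Pres
open Geo

variable {H : Type} [Group H] (c τ : H) (B : Subgroup H)

/-- the finite group of functions on `Ω` -/
noncomputable abbrev Γ : Subgroup (Geo.Ω → H) := Gam c τ B (V 4)

/-- generators -/
abbrev α : Type := (Γ c τ B) ⊕ F

open FreeGroup in
/-- multiplication table -/
noncomputable def r1 (p : (Γ c τ B) × (Γ c τ B)) : FreeGroup (α c τ B) :=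
  of (Sum.inl p.1) * of (Sum.inl p.2) * (of (Sum.inl (p.1 * p.2)))⁻¹

open FreeGroup in
/-- the stable letters commute -/
noncomputable def r2 (p : F × F) : FreeGroup (α c τ B) :=
  of (Sum.inr p.1) * of (Sum.inr p.2) * (of (Sum.inr p.1))⁻¹ * (of (Sum.inr p.2))⁻¹

open FreeGroup in
/-- the stable letters act -/
noncomputable def r3 (p : F × (Γ c τ B) × (Γ c τ B)) : FreeGroup (α c τ B) :=
  of (Sum.inr p.1) * of (Sum.inl p.2.1) * (of (Sum.inr p.1))⁻¹ * (of (Sum.inl p.2.2))⁻¹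

/-- the relators -/
def rels : Set (FreeGroup (α c τ B)) :=
  Set.range (r1 c τ B) ∪ Set.range (r2 c τ B) ∪
    {r | ∃ p : F × (Γ c τ B) × (Γ c τ B), p.2.2.1 = cp (θ p.1) p.2.1.1 ∧ r = r3 c τ B p}

/-- the group -/
abbrev G : Type := PresentedGroup (rels c τ B)

/-- the finite subgroup -/
noncomputable def io : (Γ c τ B) →* G c τ B :=
  MonoidHom.mk' (fun x => PresentedGroup.of (Sum.inl x)) (by
    intro x y
    have h : r1 c τ B (x, y) ∈ rels c τ B := Or.inl (Or.inl ⟨_, rfl⟩)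
    have := PresentedGroup.one_of_mem h
    have h2 : (PresentedGroup.of (Sum.inl x) : G c τ B) * PresentedGroup.of (Sum.inl y) *
      (PresentedGroup.of (Sum.inl (x * y)))⁻¹ = 1 := this
    exact (mul_inv_eq_one.mp h2).symm)

/-- stable letters -/
noncomputable def t (i : F) : G c τ B := PresentedGroup.of (Sum.inr i)

lemma tt (i j : F) : Commute (t c τ B i) (t c τ B j) := by
  have h : r2 c τ B (i, j) ∈ rels c τ B := Or.inl (Or.inr ⟨_, rfl⟩)
  have := PresentedGroup.one_of_mem h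
  have h2 : t c τ B i * t c τ B j * (t c τ B i)⁻¹ * (t c τ B j)⁻¹ = 1 := this
  have h3 : ⁅t c τ B i, t c τ B j⁆ = 1 := h2
  exact commutatorElement_eq_one_iff_commute.1 h3

lemma t_act (i : F) (x y : Γ c τ B) (h : y.1 = cp (θ i) x.1) :
    t c τ B i * io c τ B x * (t c τ B i)⁻¹ = io c τ B y := by
  have h : r3 c τ B (i, x, y) ∈ rels c τ B := Or.inr ⟨(i, x, y), h, rfl⟩
  have := PresentedGroup.one_of_mem h
  have h2 : t c τ B i * io c τ B x * (t c τ B i)⁻¹ * (io c τ B y)⁻¹ = 1 := this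
  exact mul_inv_eq_one.mp h2

open scoped Classical in
/-- extension by `1` to all functions -/
noncomputable def em (x : Geo.Ω → H) : G c τ B := if h : x ∈ Γ c τ B then io c τ B ⟨x, h⟩ else 1

lemma em_of {x : Geo.Ω → H} (h : x ∈ Γ c τ B) : em c τ B x = io c τ B ⟨x, h⟩ := dif_pos h

lemma em_mul (x : Geo.Ω → H) (hx : x ∈ Γ c τ B) (y : Geo.Ω → H) (hy : y ∈ Γ c τ B) :
    em c τ B (x * y) = em c τ B x * em c τ B y := by
  rw [em_of c τ B hx, em_of c τ B hy, em_of c τ B (Subgroup.mul_mem _ hx hy), ← map_mul]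
  rfl

lemma em_act (i : F) {x : Geo.Ω → H} (hx : x ∈ Γ c τ B) (hy : cp (θ i) x ∈ Γ c τ B) :
    t c τ B i * em c τ B x * (t c τ B i)⁻¹ = em c τ B (cp (θ i) x) := by
  rw [em_of c τ B hx, em_of c τ B hy]
  exact t_act c τ B i _ _ rfl

/-- the constants -/
noncomputable def kB : B →* G c τ B :=
  (io c τ B).comp (MonoidHom.codRestrict ((cst Geo.Ω H).comp B.subtype) (Γ c τ B)
    (fun b => cst_mem b.2))

lemma kB_apply (b : B) : kB c τ B b = em c τ B (cst Geo.Ω H b.1) := by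
  rw [em_of c τ B (cst_mem b.2)]
  rfl

/-- the subgroup of constants -/
noncomputable abbrev BG : Subgroup (G c τ B) := (kB c τ B).range

/-- the element `c` -/
noncomputable abbrev cG : G c τ B := em c τ B (cst Geo.Ω H c)

lemma cst_c_mem : cst Geo.Ω H c ∈ Γ c τ B := c_mem

lemma t_comm_c (i : F) : Commute (t c τ B i) (cG c τ B) :=
  commute_of_conj (em_act c τ B i (cst_c_mem c τ B) (cst_c_mem c τ B))

lemma t_comm_B (i : F) : ∀ b ∈ BG c τ B, Commute (t c τ B i) b := by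
  rintro _ ⟨b, rfl⟩
  rw [kB_apply]
  exact commute_of_conj (em_act c τ B i (cst_mem b.2) (cst_mem b.2))

lemma em_one : em c τ B 1 = 1 := by
  have := em_mul c τ B 1 (Subgroup.one_mem _) 1 (Subgroup.one_mem _)
  rw [mul_one] at this
  exact left_eq_mul.mp this

lemma em_inv {x : Geo.Ω → H} (hx : x ∈ Γ c τ B) : em c τ B x⁻¹ = (em c τ B x)⁻¹ := by
  have := em_mul c τ B x hx x⁻¹ (Subgroup.inv_mem _ hx)
  rw [mul_inv_cancel, em_one] at this
  exact eq_inv_of_mul_eq_one_right this.symm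

lemma em_pow {x : Geo.Ω → H} (hx : x ∈ Γ c τ B) (n : ℕ) : em c τ B (x ^ n) = (em c τ B x) ^ n := by
  induction n with
  | zero => rw [pow_zero, pow_zero, em_one]
  | succ n ih => rw [pow_succ, pow_succ, em_mul c τ B _ (Subgroup.pow_mem _ hx n) _ hx, ih]

lemma em_conj {x y : Geo.Ω → H} (hx : x ∈ Γ c τ B) (hy : y ∈ Γ c τ B) :
    em c τ B (x * y * x⁻¹) = em c τ B x * em c τ B y * (em c τ B x)⁻¹ := by
  rw [em_mul c τ B _ (Subgroup.mul_mem _ hx hy) _ (Subgroup.inv_mem _ hx), em_mul c τ B _ hx _ hy,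
    em_inv c τ B hx]

lemma em_comm {x y : Geo.Ω → H} (hx : x ∈ Γ c τ B) (hy : y ∈ Γ c τ B) :
    em c τ B ⁅x, y⁆ = ⁅em c τ B x, em c τ B y⁆ := by
  rw [commutatorElement_def, commutatorElement_def, em_mul c τ B _
    (Subgroup.mul_mem _ (Subgroup.mul_mem _ hx hy) (Subgroup.inv_mem _ hx)) _ (Subgroup.inv_mem _ hy),
    em_conj c τ B hx hy, em_inv c τ B hy]

/-- `B` is generated by commutators with powers of `c` -/
lemma BG_gen (hB : ∀ b ∈ B, b ∈ Subgroup.closure {g : H | ∃ b' ∈ B, ∃ k : ℕ, g = ⁅b', c ^ k⁆}) :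
    ∀ b ∈ BG c τ B, b ∈ Subgroup.closure {g : G c τ B | ∃ b' ∈ BG c τ B, ∃ k : ℕ,
      g = ⁅b', cG c τ B ^ k⁆} := by
  rintro _ ⟨⟨b, hb⟩, rfl⟩
  rw [kB_apply]
  have key : ∀ b ∈ Subgroup.closure {g : H | ∃ b' ∈ B, ∃ k : ℕ, g = ⁅b', c ^ k⁆},
      cst Geo.Ω H b ∈ Γ c τ B ∧ em c τ B (cst Geo.Ω H b) ∈ Subgroup.closure {g : G c τ B |
        ∃ b' ∈ BG c τ B, ∃ k : ℕ, g = ⁅b', cG c τ B ^ k⁆} := by
    intro b hb
    induction hb using Subgroup.closure_induction with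
    | mem x hx =>
      obtain ⟨b', hb', k, rfl⟩ := hx
      have m1 : cst Geo.Ω H b' ∈ Γ c τ B := cst_mem hb'
      have m2 := Subgroup.pow_mem _ (cst_c_mem c τ B) k
      have e : cst Geo.Ω H ⁅b', c ^ k⁆ = ⁅cst Geo.Ω H b', (cst Geo.Ω H c) ^ k⁆ := by
        rw [map_commutatorElement, map_pow]
      rw [e]
      constructor
      · rw [commutatorElement_def]
        exact Subgroup.mul_mem _ (Subgroup.mul_mem _ (Subgroup.mul_mem _ m1 m2)
          (Subgroup.inv_mem _ m1)) (Subgroup.inv_mem _ m2)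
      · rw [em_comm c τ B m1 m2, em_pow c τ B (cst_c_mem c τ B)]
        exact Subgroup.subset_closure ⟨_, ⟨⟨b', hb'⟩, kB_apply c τ B ⟨b', hb'⟩⟩, k, rfl⟩
    | one =>
      rw [map_one, em_one]
      exact ⟨Subgroup.one_mem _, Subgroup.one_mem _⟩
    | mul x y _ _ hx hy =>
      rw [map_mul, em_mul c τ B _ hx.1 _ hy.1]
      exact ⟨Subgroup.mul_mem _ hx.1 hy.1, Subgroup.mul_mem _ hx.2 hy.2⟩
    | inv x _ hx =>
      rw [map_inv, em_inv c τ B hx.1]
      exact ⟨Subgroup.inv_mem _ hx.1, Subgroup.inv_mem _ hx.2⟩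
  exact (key b (hB b hb)).2

/-- the base level -/
theorem base (hc : c ^ 11 = 1) (hτ : τ ^ 5 = 1) (hτc : τ * c * τ⁻¹ = c ^ 3) :
    Level.Lv (BG c τ B) (cG c τ B) (t c τ B) 3 (fun φ => em c τ B (ph τ φ))
      (fun f => em c τ B (cx c f)) where
  good := by
    refine (good_base (B := B) hc hτ hτc (V 4)).push (Γ c τ B) (em c τ B) (em_mul c τ B) (BG c τ B) ?_ ?_ ?_ ?_
    · rintro _ ⟨b, rfl⟩
      exact ⟨_, ⟨b.1, b.2, rfl⟩, kB_apply c τ B b⟩
    · rintro _ ⟨b, hb, rfl⟩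
      exact cst_mem hb
    · intro φ hφ; exact ph_mem hφ
    · intro f hf; exact cx_mem hc hτc (V_finite 4) (one_mem_V 4) hf
  rel := by
    intro i φ hφ
    have h1 : φ ∈ V 4 * V 4 := mul_le_mul' (A_le_V i 3) (A_le_V i 3) hφ
    have h2 : cp (θ i) φ ∈ V 4 * V 4 :=
      mul_le_mul' (V_mono 3) (V_mono 3) (cp_mul_mem (Level.A_cp i 3) hφ)
    exact em_act c τ B i (ph_mem h1) (ph_mem (τ := τ) h2)

/-- the group is solvable -/
theorem solvable [Finite H] (hc : c ^ 11 = 1) (hτ : τ ^ 5 = 1) (hτc : τ * c * τ⁻¹ = c ^ 3)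
    (hcB : ∀ b ∈ B, c * b * c⁻¹ ∈ B) (hτB : ∀ b ∈ B, τ * b * τ⁻¹ ∈ B)
    (hB : ∀ b ∈ B, b ∈ Subgroup.closure {g : H | ∃ b' ∈ B, ∃ k : ℕ, g = ⁅b', c ^ k⁆})
    (hS : Group.IsSolvable B) : Group.IsSolvable (G c τ B) := by
  have hBG := BG_gen c τ B hB
  obtain ⟨Z, P, hZ0, hP0, hgood, hZZ, hPP, hZt, hPt⟩ :=
    Level.levels hBG (tt c τ B) (t_comm_c c τ B) (t_comm_B c τ B) (base c τ B hc hτ hτc)
  -- solvability of `BG`
  have hSG : Group.IsSolvable (BG c τ B) :=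
    Group.isSolvable_of_surjective (f := (kB c τ B).rangeRestrict) (kB c τ B).rangeRestrict_surjective
  obtain ⟨δ, hδ⟩ := DS_of_solvable (BG c τ B) hSG
  have h11 : ∀ n, (1 : Geo.Ω → F) ∈ V n * V n := by
    intro n
    have := Submodule.mul_mem_mul (one_mem_V n) (one_mem_V n)
    rwa [mul_one] at this
  -- conjugation by constants
  have hc' : ∀ b ∈ BG c τ B, cG c τ B * b * (cG c τ B)⁻¹ ∈ BG c τ B := by
    rintro _ ⟨b, rfl⟩
    rw [kB_apply, ← em_conj c τ B (cst_c_mem c τ B) (cst_mem b.2), ← map_inv, ← map_mul, ← map_mul]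
    exact ⟨⟨_, hcB b.1 b.2⟩, kB_apply c τ B ⟨_, hcB b.1 b.2⟩⟩
  have hτpow : ∀ k : ℕ, ∀ b ∈ B, τ ^ k * b * (τ ^ k)⁻¹ ∈ B := by
    intro k
    induction k with
    | zero => intro b hb; simpa using hb
    | succ k ih =>
      intro b hb
      have e : τ ^ (k + 1) * b * (τ ^ (k + 1))⁻¹ = τ ^ k * (τ * b * τ⁻¹) * (τ ^ k)⁻¹ := by
        rw [pow_succ]; group
      rw [e]
      exact ih _ (hτB b hb)
  have hZs : ∀ n, ∀ s : F, Z n (s • 1) = em c τ B (ph τ (s • 1)) := by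
    intro n s
    induction n with
    | zero => rw [hZ0]
    | succ n ih => rw [hZZ n _ (Submodule.smul_mem _ _ (h11 _)), ih]
  have hτ' : ∀ n, ∀ s : F, ∀ b ∈ BG c τ B, Z n (s • 1) * b * (Z n (s • 1))⁻¹ ∈ BG c τ B := by
    rintro n s _ ⟨b, rfl⟩
    have m : ph τ (s • (1 : Geo.Ω → F)) ∈ Γ c τ B := ph_mem (Submodule.smul_mem _ _ (h11 _))
    rw [kB_apply, hZs, ← em_conj c τ B m (cst_mem b.2)]
    have e : ph τ (s • (1 : Geo.Ω → F)) = cst Geo.Ω H (τ ^ s.val) := by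
      funext x
      show τ ^ (s * 1 : F).val = τ ^ s.val
      rw [mul_one]
    rw [e, ← map_inv, ← map_mul, ← map_mul]
    exact ⟨⟨_, hτpow _ b.1 b.2⟩, kB_apply c τ B ⟨_, hτpow _ b.1 b.2⟩⟩
  let Gn : ℕ → Subgroup (G c τ B) := fun n => LvG (BG c τ B) (V (n + 4)) (Z n) (P n)
  have hbd : ∀ n, DS (Gn n) (2 + (δ + 1)) = ⊥ := fun n =>
    level_bound (hgood n) (V_finite _) (one_mem_V _) hBG (hτ' n) hc' hδ
  have hmono : ∀ n, Gn n ≤ Gn (n + 1) := by
    intro n
    show Subgroup.closure _ ≤ _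
    rw [Subgroup.closure_le]
    rintro x ((hx | ⟨f, hf, rfl⟩) | ⟨φ, hφ, rfl⟩)
    · exact Subgroup.subset_closure (Or.inl (Or.inl hx))
    · rw [← hPP n f hf]
      exact Subgroup.subset_closure (Or.inl (Or.inr ⟨f, hf.mono (V_mono _), rfl⟩))
    · rw [← hZZ n φ hφ]
      exact Subgroup.subset_closure (Or.inr ⟨φ, mul_le_mul' (V_mono _) (V_mono _) hφ, rfl⟩)
  have hsymm : ∀ i n, ∀ u ∈ V n, cp (θ i).symm u ∈ A i n := by
    intro i n u hu
    rw [← comp_θ_mem_iff]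
    have : (fun y => cp (θ i).symm u (θ i y)) = u := by
      funext y
      show u ((θ i).symm (θ i y)) = u y
      rw [Equiv.symm_apply_apply]
    rw [this]; exact hu
  have hcc : ∀ (T : Type) (i : F) (f : Geo.Ω → T), cp (θ i) (cp (θ i).symm f) = f := by
    intro T i f
    funext y
    show f ((θ i).symm (θ i y)) = f y
    rw [Equiv.symm_apply_apply]
  have hAV : ∀ i n, A i n ≤ V (n + 1) := A_le_V
  have hsh : ∀ i n, ∀ x ∈ Gn n, (t c τ B i)⁻¹ * x * t c τ B i ∈ Gn (n + 1) := by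
    intro i n x hx
    have h1 : Gn n ≤ (Gn (n + 1)).comap (MulAut.conj (t c τ B i)⁻¹).toMonoidHom := by
      show Subgroup.closure _ ≤ _
      rw [Subgroup.closure_le]
      rintro x ((hx | ⟨f, hf, rfl⟩) | ⟨φ, hφ, rfl⟩)
      · show (t c τ B i)⁻¹ * x * (t c τ B i)⁻¹⁻¹ ∈ Gn (n + 1)
        have := t_comm_B c τ B i x hx
        rw [conj_of_commute this.inv_left]
        exact Subgroup.subset_closure (Or.inl (Or.inl hx))
      · show (t c τ B i)⁻¹ * P n f * (t c τ B i)⁻¹⁻¹ ∈ Gn (n + 1)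
        have h2 := hPt n i (cp (θ i).symm f) (cp_dep (hsymm i (n + 4)) hf)
        rw [hcc] at h2
        rw [inv_inv, ← h2]
        exact Subgroup.subset_closure (Or.inl (Or.inr ⟨_, (cp_dep (hsymm i (n + 4)) hf).mono
          (hAV i (n + 4)), rfl⟩))
      · show (t c τ B i)⁻¹ * Z n φ * (t c τ B i)⁻¹⁻¹ ∈ Gn (n + 1)
        have h2 := hZt n i (cp (θ i).symm φ) (cp_mul_mem (hsymm i (n + 4)) hφ)
        rw [hcc] at h2
        rw [inv_inv, ← h2]
        exact Subgroup.subset_closure (Or.inr ⟨_, mul_le_mul' (hAV i (n + 4)) (hAV i (n + 4))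
          (cp_mul_mem (hsymm i (n + 4)) hφ), rfl⟩)
    have h2 := h1 hx
    have h3 : (t c τ B i)⁻¹ * x * (t c τ B i)⁻¹⁻¹ ∈ Gn (n + 1) := h2
    rwa [inv_inv] at h3
  -- generation
  have hgen : Subgroup.closure ((Gn 0 : Set (G c τ B)) ∪ Set.range (t c τ B)) = ⊤ := by
    rw [eq_top_iff, ← PresentedGroup.closure_range_of (rels c τ B), Subgroup.closure_le]
    rintro _ ⟨x | i, rfl⟩
    · refine Subgroup.subset_closure (Or.inl ?_)
      have key : ∀ x ∈ Γ c τ B, em c τ B x ∈ Gn 0 := by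
        intro x hx
        have : x ∈ Γ c τ B ∧ em c τ B x ∈ Gn 0 := by
          have hx' : x ∈ Subgroup.closure ((B.map (cst Geo.Ω H) : Set (Geo.Ω → H)) ∪
            {cst Geo.Ω H c} ∪ {x | ∃ φ ∈ V 4 * V 4, x = ph τ φ}) := hx
          clear hx
          induction hx' using Subgroup.closure_induction with
          | mem x hx =>
            rcases hx with (⟨b, hb, rfl⟩ | hx) | ⟨φ, hφ, rfl⟩
            · refine ⟨cst_mem hb, Subgroup.subset_closure (Or.inl (Or.inl ?_))⟩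
              exact ⟨⟨b, hb⟩, kB_apply c τ B ⟨b, hb⟩⟩
            · rw [Set.mem_singleton_iff] at hx
              rw [hx]
              refine ⟨cst_c_mem c τ B, Subgroup.subset_closure (Or.inl (Or.inr ?_))⟩
              exact ⟨1, Dep.one, (hgood 0).P_one.symm⟩
            · refine ⟨ph_mem hφ, Subgroup.subset_closure (Or.inr ⟨φ, hφ, ?_⟩)⟩
              rw [hZ0]
          | one => exact ⟨Subgroup.one_mem _, by rw [em_one]; exact Subgroup.one_mem _⟩
          | mul x y _ _ hx hy =>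
            exact ⟨Subgroup.mul_mem _ hx.1 hy.1, by
              rw [em_mul c τ B _ hx.1 _ hy.1]; exact Subgroup.mul_mem _ hx.2 hy.2⟩
          | inv x _ hx =>
            exact ⟨Subgroup.inv_mem _ hx.1, by
              rw [em_inv c τ B hx.1]; exact Subgroup.inv_mem _ hx.2⟩
        exact this.2
      have := key x.1 x.2
      rw [em_of c τ B x.2] at this
      exact this
    · exact Subgroup.subset_closure (Or.inr ⟨i, rfl⟩)
  exact union_solvable hmono hsh (tt c τ B) hgen hbd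

end Pres
end Pool.Agent.Helper638.CDB
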