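import Pool.Agent.Helper638.CDB.Level

set_option autoImplicit false

open scoped commutatorElement

namespace Pool.Agent.Helper638.CDB

variable {Ω : Type} {G : Type} [Group G]

/-- derived series of a subgroup -/
def DS (H : Subgroup G) : ℕ → Subgroup G
  | 0 => H
  | n + 1 => ⁅DS H n, DS H n⁆

lemma DS_mono {H K : Subgroup G} (h : H ≤ K) : ∀ n, DS H n ≤ DS K n
  | 0 => h
  | n + 1 => Subgroup.commutator_mono (DS_mono h n) (DS_mono h n)

lemma DS_top : ∀ n, DS (⊤ : Subgroup G) n = derivedSeries G n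
  | 0 => rfl
  | n + 1 => by
    show ⁅DS ⊤ n, DS ⊤ n⁆ = ⁅derivedSeries G n, derivedSeries G n⁆
    rw [DS_top n]

lemma DS_add (H : Subgroup G) (m : ℕ) : ∀ n, DS (DS H m) n = DS H (m + n)
  | 0 => rfl
  | n + 1 => by
    show ⁅DS (DS H m) n, DS (DS H m) n⁆ = ⁅DS H (m + n), DS H (m + n)⁆
    rw [DS_add H m n]

lemma DS_le_self (H : Subgroup G) : ∀ n, DS H n ≤ H
  | 0 => le_rfl
  | n + 1 => (Subgroup.commutator_mono (DS_le_self H n) (DS_le_self H n)).trans
      (by rw [Subgroup.commutator_le]; intro x hx y hy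
          rw [commutatorElement_def]
          exact H.mul_mem (H.mul_mem (H.mul_mem hx hy) (H.inv_mem hx)) (H.inv_mem hy))

lemma DS_map {G' : Type} [Group G'] (f : G' →* G) (H : Subgroup G') :
    ∀ n, (DS H n).map f = DS (H.map f) n
  | 0 => rfl
  | n + 1 => by
    show (⁅DS H n, DS H n⁆).map f = ⁅DS (H.map f) n, DS (H.map f) n⁆
    rw [Subgroup.map_commutator, DS_map f H n]

lemma DS_of_solvable (B : Subgroup G) (hB : Group.IsSolvable B) : ∃ δ, DS B δ = ⊥ := by
  obtain ⟨δ, hδ⟩ := hB.solvable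
  refine ⟨δ, ?_⟩
  have h1 := DS_map B.subtype (⊤ : Subgroup B) δ
  rw [DS_top, hδ, Subgroup.map_bot] at h1
  have h2 : (⊤ : Subgroup B).map B.subtype = B := by
    rw [← MonoidHom.range_eq_map, Subgroup.range_subtype]
  rw [h2] at h1
  exact h1.symm

/-- `S` normalises `M` -/
def Nz (S : Set G) (M : Subgroup G) : Prop := ∀ s ∈ S, ∀ m ∈ M, s * m * s⁻¹ ∈ M ∧ s⁻¹ * m * s ∈ M

lemma Nz.closure {S : Set G} {M : Subgroup G} (h : Nz S M) : Nz (Subgroup.closure S : Set G) M := by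
  intro s hs
  induction hs using Subgroup.closure_induction with
  | mem x hx => exact h x hx
  | one => intro m hm; simpa using hm
  | mul x y _ _ hx hy =>
    intro m hm
    constructor
    · have := (hx _ (hy m hm).1).1
      have e : x * y * m * (x * y)⁻¹ = x * (y * m * y⁻¹) * x⁻¹ := by group
      rw [e]; exact this
    · have := (hy _ (hx m hm).2).2
      have e : (x * y)⁻¹ * m * (x * y) = y⁻¹ * (x⁻¹ * m * x) * y := by group
      rw [e]; exact this
  | inv x _ hx =>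
    intro m hm
    rw [inv_inv]
    exact (hx m hm).symm

lemma Nz.self (M : Subgroup G) : Nz (M : Set G) M := fun s hs m hm =>
  ⟨M.mul_mem (M.mul_mem hs hm) (M.inv_mem hs), M.mul_mem (M.mul_mem (M.inv_mem hs) hm) hs⟩

lemma Nz.of_gen {S T : Set G} (hS : ∀ s ∈ S, s⁻¹ ∈ S)
    (h : ∀ s ∈ S, ∀ x ∈ T, s * x * s⁻¹ ∈ Subgroup.closure T) : Nz S (Subgroup.closure T) := by
  have key : ∀ s ∈ S, ∀ m ∈ Subgroup.closure T, s * m * s⁻¹ ∈ Subgroup.closure T := by
    intro s hs m hm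
    induction hm using Subgroup.closure_induction with
    | mem x hx => exact h s hs x hx
    | one => simp
    | mul x y _ _ hx hy =>
      have e : s * (x * y) * s⁻¹ = (s * x * s⁻¹) * (s * y * s⁻¹) := by group
      rw [e]; exact Subgroup.mul_mem _ hx hy
    | inv x _ hx =>
      have e : s * x⁻¹ * s⁻¹ = (s * x * s⁻¹)⁻¹ := by group
      rw [e]; exact Subgroup.inv_mem _ hx
  intro s hs m hm
  refine ⟨key s hs m hm, ?_⟩
  have := key s⁻¹ (hS s hs) m hm
  rwa [inv_inv] at this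

lemma Nz.union {S S' : Set G} {M : Subgroup G} (h : Nz S M) (h' : Nz S' M) : Nz (S ∪ S') M := by
  intro s hs
  rcases hs with hs | hs
  · exact h s hs
  · exact h' s hs

lemma Nz.mono {S S' : Set G} {M : Subgroup G} (h : Nz S' M) (hS : S ⊆ S') : Nz S M :=
  fun s hs => h s (hS hs)

lemma comm_closure_le {S : Set G} {M : Subgroup G} (hn : Nz S M)
    (hc : ∀ x ∈ S, ∀ y ∈ S, ⁅x, y⁆ ∈ M) : ⁅Subgroup.closure S, Subgroup.closure S⁆ ≤ M := by
  have hn' := hn.closure
  have h1 : ∀ x ∈ Subgroup.closure S, ∀ y ∈ S, ⁅x, y⁆ ∈ M := by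
    intro x hx y hy
    induction hx using Subgroup.closure_induction with
    | mem x hx => exact hc x hx y hy
    | one => rw [commutatorElement_one_left]; exact M.one_mem
    | mul x z hx' _ hx hz =>
      have e : ⁅x * z, y⁆ = (x * ⁅z, y⁆ * x⁻¹) * ⁅x, y⁆ := by
        simp only [commutatorElement_def]; group
      rw [e]
      exact M.mul_mem (hn' x hx' _ hz).1 hx
    | inv x hx' hx =>
      have e : ⁅x⁻¹, y⁆ = x⁻¹ * ⁅x, y⁆⁻¹ * x := by
        simp only [commutatorElement_def]; group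
      rw [e]
      exact (hn' x hx' _ (M.inv_mem hx)).2
  rw [Subgroup.commutator_le]
  intro x hx y hy
  induction hy using Subgroup.closure_induction with
  | mem y hy => exact h1 x hx y hy
  | one => rw [commutatorElement_one_right]; exact M.one_mem
  | mul y z hy' _ hy hz =>
    have e : ⁅x, y * z⁆ = ⁅x, y⁆ * (y * ⁅x, z⁆ * y⁻¹) := by
      simp only [commutatorElement_def]; group
    rw [e]
    exact M.mul_mem hy (hn' y hy' _ hz).1
  | inv y hy' hy =>
    have e : ⁅x, y⁻¹⁆ = y⁻¹ * ⁅x, y⁆⁻¹ * y := by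
      simp only [commutatorElement_def]; group
    rw [e]
    exact (hn' y hy' _ (M.inv_mem hy)).2

lemma Nz.comm {S : Set G} {M : Subgroup G} (h : Nz S M) : Nz S ⁅M, M⁆ := by
  rw [show ⁅M, M⁆ = Subgroup.closure {g | ∃ x ∈ M, ∃ y ∈ M, ⁅x, y⁆ = g} from
    Subgroup.commutator_def M M]
  intro s hs m hm
  have key : ∀ s : G, (∀ m ∈ M, s * m * s⁻¹ ∈ M) →
      ∀ m ∈ Subgroup.closure {g | ∃ x ∈ M, ∃ y ∈ M, ⁅x, y⁆ = g},
      s * m * s⁻¹ ∈ Subgroup.closure {g | ∃ x ∈ M, ∃ y ∈ M, ⁅x, y⁆ = g} := by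
    intro s hs m hm
    induction hm using Subgroup.closure_induction with
    | mem x hx =>
      obtain ⟨a, ha, b, hb, rfl⟩ := hx
      refine Subgroup.subset_closure ⟨_, hs a ha, _, hs b hb, ?_⟩
      simp only [commutatorElement_def]; group
    | one => simp
    | mul x y _ _ hx hy =>
      have e : s * (x * y) * s⁻¹ = (s * x * s⁻¹) * (s * y * s⁻¹) := by group
      rw [e]; exact Subgroup.mul_mem _ hx hy
    | inv x _ hx =>
      have e : s * x⁻¹ * s⁻¹ = (s * x * s⁻¹)⁻¹ := by group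
      rw [e]; exact Subgroup.inv_mem _ hx
  refine ⟨key s (fun m hm => (h s hs m hm).1) m hm, ?_⟩
  have := key s⁻¹ (fun m hm => by rw [inv_inv]; exact (h s hs m hm).2) m hm
  rwa [inv_inv] at this

lemma Nz.DS {S : Set G} {M : Subgroup G} (h : Nz S M) : ∀ n, Nz S (CDB.DS M n)
  | 0 => h
  | n + 1 => (Nz.DS h n).comm

lemma Nz.sup {S : Set G} {M P : Subgroup G} (h : Nz S M) (h' : Nz S P) : Nz S (M ⊔ P) := by
  intro s hs
  have key : ∀ s : G, (∀ m ∈ M, s * m * s⁻¹ ∈ M) → (∀ m ∈ P, s * m * s⁻¹ ∈ P) →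
      ∀ m ∈ M ⊔ P, s * m * s⁻¹ ∈ M ⊔ P := by
    intro s h1 h2
    have : M ⊔ P ≤ (M ⊔ P).comap (MulAut.conj s).toMonoidHom := by
      refine sup_le ?_ ?_
      · intro m hm
        exact Subgroup.mem_sup_left (h1 m hm)
      · intro m hm
        exact Subgroup.mem_sup_right (h2 m hm)
    intro m hm
    exact this hm
  intro m hm
  refine ⟨key s (fun m hm => (h s hs m hm).1) (fun m hm => (h' s hs m hm).1) m hm, ?_⟩
  have := key s⁻¹ (fun m hm => by rw [inv_inv]; exact (h s hs m hm).2)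
    (fun m hm => by rw [inv_inv]; exact (h' s hs m hm).2) m hm
  rwa [inv_inv] at this

/-- derived series modulo a normal subgroup -/
lemma DS_sup {L B P : Subgroup G} (hL : L ≤ B ⊔ P) (hBP : Nz (B : Set G) P) :
    ∀ k, DS L k ≤ DS B k ⊔ P
  | 0 => hL
  | k + 1 => by
    have ih := DS_sup hL hBP k
    have e : DS B k ⊔ P = Subgroup.closure ((DS B k : Set G) ∪ P) := by
      rw [Subgroup.closure_union, Subgroup.closure_eq, Subgroup.closure_eq]
    have hB1 : Nz (DS B k : Set G) P := hBP.mono (DS_le_self B k)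
    refine (Subgroup.commutator_mono ih ih).trans ?_
    rw [e]
    refine comm_closure_le ?_ ?_
    · refine Nz.union ?_ ?_
      · exact ((Nz.self (DS B k)).comm).sup hB1
      · intro p hp
        exact Nz.self (DS B (k + 1) ⊔ P) p (Subgroup.mem_sup_right hp)
    · rintro x (hx | hx) y (hy | hy)
      · exact Subgroup.mem_sup_left (Subgroup.commutator_mem_commutator hx hy)
      · refine Subgroup.mem_sup_right ?_
        rw [commutatorElement_def]
        exact P.mul_mem (hB1 x hx y hy).1 (P.inv_mem hy)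
      · refine Subgroup.mem_sup_right ?_
        rw [commutatorElement_def]
        have : x * y * x⁻¹ * y⁻¹ = x * (y * x⁻¹ * y⁻¹) := by group
        rw [this]
        exact P.mul_mem hx (hB1 y hy _ (P.inv_mem hx)).1
      · refine Subgroup.mem_sup_right ?_
        rw [commutatorElement_def]
        exact P.mul_mem (P.mul_mem (P.mul_mem hx hy) (P.inv_mem hx)) (P.inv_mem hy)

/-- the level group -/
def LvG (B : Subgroup G) (V : Submodule F (Ω → F)) (Z : (Ω → F) → G) (P : (Ω → R) → G) :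
    Subgroup G :=
  Subgroup.closure ((B : Set G) ∪ {x | ∃ f, Dep V f ∧ x = P f} ∪ {x | ∃ φ ∈ V * V, x = Z φ})

section bound
variable {B : Subgroup G} {c : G} {V : Submodule F (Ω → F)} {Z : (Ω → F) → G} {P : (Ω → R) → G}

/-- generators of the third layer -/
def TN (B : Subgroup G) (V : Submodule F (Ω → F)) (P : (Ω → R) → G) : Set G :=
  {x | ∃ b ∈ B, ∃ f, Dep V f ∧ x = ⁅b, P f⁆}

/-- point generators -/
def TE (B : Subgroup G) (V : Submodule F (Ω → F)) (P : (Ω → R) → G) : Set G :=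
  {x | ∃ b ∈ B, ∃ y r, x = ⁅b, P (pt V y r)⁆}

lemma PsiOn.neg (h : PsiOn c V Z P) {f : Ω → R} (hf : Dep V f) : P (-f) = (P f)⁻¹ := by
  have hn : Dep V (-f) := hf.comp (fun r => -r)
  have := h.add f (-f) hf hn
  rw [add_neg_cancel, h.zero] at this
  exact eq_inv_of_mul_eq_one_right this.symm

lemma TN_le (hG : Good B c V Z P) (hV : (V : Set (Ω → F)).Finite) :
    Subgroup.closure (TN B V P) ≤ Subgroup.closure (TE B V P) := by
  rw [Subgroup.closure_le]
  rintro x ⟨b, hb, f, hf, rfl⟩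
  -- stronger statement: for functions with the support property
  have hP := hG.psi
  show ⁅b, P f⁆ ∈ Subgroup.closure (TE B V P)
  classical
  have : Fintype V := hV.fintype
  let e : Ω → (V → F) := fun x v => v.1 x
  have hfin : (Set.range e).Finite := Set.toFinite _
  have ex : ∀ p : Set.range e, ∃ x, e x = p.1 := fun p => p.2
  choose q hp using ex
  have : Fintype (Set.range e) := hfin.fintype
  have hdec : f = ∑ p : Set.range e, pt V (q p) (f (q p)) := by
    funext x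
    rw [Finset.sum_apply]
    have hx : e x ∈ Set.range e := ⟨x, rfl⟩
    rw [Finset.sum_eq_single (⟨e x, hx⟩ : Set.range e)]
    · have h1 : ∀ u ∈ V, u x = u (q ⟨e x, hx⟩) := by
        intro u hu
        have := congrFun (hp ⟨e x, hx⟩) ⟨u, hu⟩
        exact this.symm
      simp only [pt]
      rw [if_pos h1]
      exact hf _ _ h1
    · intro p _ hne
      simp only [pt]
      rw [if_neg]
      intro hall
      apply hne
      apply Subtype.ext
      rw [← hp p]
      funext v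
      exact (hall v.1 v.2).symm
    · intro h; exact absurd (Finset.mem_univ _) h
  rw [hdec]
  have gen : ∀ s : Finset (Set.range e),
      ⁅b, P (∑ p ∈ s, pt V (q p) (f (q p)))⁆ ∈ Subgroup.closure (TE B V P) := by
    intro s
    induction s using Finset.induction_on with
    | empty =>
      rw [Finset.sum_empty, hP.zero, commutatorElement_one_right]; exact Subgroup.one_mem _
    | insert a s ha ih =>
      have hd : Dep V (∑ p ∈ s, pt V (q p) (f (q p))) := Dep.sum _ _ fun i _ => pt_dep _ _ _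
      rw [Finset.sum_insert ha, hP.add _ _ (pt_dep _ _ _) hd]
      have e1 : ⁅b, P (pt V (q a) (f (q a))) * P (∑ p ∈ s, pt V (q p) (f (q p)))⁆ =
          ⁅b, P (pt V (q a) (f (q a)))⁆ * (P (pt V (q a) (f (q a))) *
            ⁅b, P (∑ p ∈ s, pt V (q p) (f (q p)))⁆ * (P (pt V (q a) (f (q a))))⁻¹) := by
        simp only [commutatorElement_def]; group
      have hdis : ∀ x, (∑ p ∈ s, pt V (q p) (f (q p))) x = 0 ∨ pt V (q a) (f (q a)) x = 0 := by
        intro x
        by_cases hx : ∀ u ∈ V, u x = u (q a)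
        · left
          rw [Finset.sum_apply]
          refine Finset.sum_eq_zero fun p hps => ?_
          unfold pt
          rw [if_neg]
          intro hx'
          apply ha
          have : a = p := by
            apply Subtype.ext
            rw [← hp a, ← hp p]
            funext v
            show v.1 (q a) = v.1 (q p)
            rw [← hx v.1 v.2, ← hx' v.1 v.2]
          rw [this]; exact hps
        · right; unfold pt; rw [if_neg hx]
      rw [e1, conj_of_commute (hG.loc _ _ hd (pt_dep _ _ _) hdis b hb)]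
      exact Subgroup.mul_mem _ (Subgroup.subset_closure ⟨b, hb, _, _, rfl⟩) ih
  exact gen _

lemma B_le_N (hP : PsiOn c V Z P)
    (hB : ∀ b ∈ B, b ∈ Subgroup.closure {g : G | ∃ b' ∈ B, ∃ k : ℕ, g = ⁅b', c ^ k⁆}) :
    B ≤ Subgroup.closure (TN B V P) := by
  intro b hb
  have := hB b hb
  refine Subgroup.closure_mono ?_ this
  rintro x ⟨b', hb', k, rfl⟩
  refine ⟨b', hb', k • 1, (Dep.one (V := V) (T := R)).comp (fun r => k • r), ?_⟩
  rw [hP.nsmul Dep.one, hP.one]

lemma Nz_B_T {S : Set (Ω → R)} (B : Subgroup G) (P : (Ω → R) → G) :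
    Nz (B : Set G) (Subgroup.closure {x | ∃ b ∈ B, ∃ f ∈ S, x = ⁅b, P f⁆}) := by
  refine Nz.of_gen (fun s hs => B.inv_mem hs) ?_
  rintro b1 hb1 x ⟨b, hb, f, hf, rfl⟩
  have e : b1 * ⁅b, P f⁆ * b1⁻¹ = ⁅b1 * b, P f⁆ * ⁅b1, P f⁆⁻¹ := by
    simp only [commutatorElement_def]; group
  rw [e]
  exact Subgroup.mul_mem _ (Subgroup.subset_closure ⟨_, B.mul_mem hb1 hb, f, hf, rfl⟩)
    (Subgroup.inv_mem _ (Subgroup.subset_closure ⟨_, hb1, f, hf, rfl⟩))

lemma Nz_P_N (hP : PsiOn c V Z P) :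
    Nz {x | ∃ f, Dep V f ∧ x = P f} (Subgroup.closure (TN B V P)) := by
  refine Nz.of_gen ?_ ?_
  · rintro x ⟨f, hf, rfl⟩
    exact ⟨-f, hf.comp (fun r => -r), (hP.neg hf).symm⟩
  rintro x ⟨f, hf, rfl⟩ y ⟨b, hb, h, hh, rfl⟩
  have e : P f * ⁅b, P h⁆ * (P f)⁻¹ = ⁅b, P f⁆⁻¹ * ⁅b, P f * P h⁆ := by
    simp only [commutatorElement_def]; group
  rw [e, ← hP.add f h hf hh]
  exact Subgroup.mul_mem _ (Subgroup.inv_mem _ (Subgroup.subset_closure ⟨b, hb, f, hf, rfl⟩))
    (Subgroup.subset_closure ⟨b, hb, _, hf.add hh, rfl⟩)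

/-- phases vanishing at `y` commute with the point generators at `y` -/
lemma phase_point (hG : Good B c V Z P) (h1 : (1 : Ω → F) ∈ V) (y : Ω) (r : R) {φ : Ω → F}
    (hφ : φ ∈ V * V) :
    φ - (φ y) • 1 ∈ V * V ∧ ∀ b ∈ B, Commute (Z (φ - (φ y) • 1)) ⁅b, P (pt V y r)⁆ := by
  have h11 : (1 : Ω → F) ∈ V * V := by
    have := Submodule.mul_mem_mul h1 h1
    rwa [mul_one] at this
  refine Submodule.mul_induction_on' (C := fun φ _ => φ - (φ y) • 1 ∈ V * V ∧
    ∀ b ∈ B, Commute (Z (φ - (φ y) • 1)) ⁅b, P (pt V y r)⁆) ?_ ?_ hφ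
  · intro u hu v hv
    have m1 : u - (u y) • 1 ∈ V := V.sub_mem hu (V.smul_mem _ h1)
    have m2 : v - (v y) • 1 ∈ V := V.sub_mem hv (V.smul_mem _ h1)
    have m3 : (u y) • (1 : Ω → F) ∈ V := V.smul_mem _ h1
    have e : u * v - ((u * v) y) • 1 = (u - (u y) • 1) * v + (v - (v y) • 1) * ((u y) • 1) := by
      funext x
      simp only [Pi.sub_apply, Pi.mul_apply, Pi.smul_apply, Pi.one_apply, Pi.add_apply, smul_eq_mul]
      ring
    have n1 := Submodule.mul_mem_mul m1 hv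
    have n2 := Submodule.mul_mem_mul m2 m3
    rw [e]
    refine ⟨Submodule.add_mem _ n1 n2, ?_⟩
    intro b hb
    rw [hG.Z_add _ n1 _ n2]
    refine (hG.ltp _ m1 _ hv _ (pt_dep _ _ _) ?_ b hb).mul_left
      (hG.ltp _ m2 _ m3 _ (pt_dep _ _ _) ?_ b hb)
    · intro x
      by_cases hx : ∀ w ∈ V, w x = w y
      · right
        simp [hx u hu]
      · left; unfold pt; rw [if_neg hx]
    · intro x
      by_cases hx : ∀ w ∈ V, w x = w y
      · right
        simp [hx v hv]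
      · left; unfold pt; rw [if_neg hx]
  · intro φ hφ ψ hψ ih1 ih2
    have e : (φ + ψ) - ((φ + ψ) y) • 1 = (φ - (φ y) • 1) + (ψ - (ψ y) • 1) := by
      rw [Pi.add_apply, add_smul]; abel
    rw [e]
    refine ⟨Submodule.add_mem _ ih1.1 ih2.1, ?_⟩
    intro b hb
    rw [hG.Z_add _ ih1.1 _ ih2.1]
    exact (ih1.2 b hb).mul_left (ih2.2 b hb)

lemma Nz_Z_E (hG : Good B c V Z P) (h1 : (1 : Ω → F) ∈ V)
    (hτ : ∀ s : F, ∀ b ∈ B, Z (s • 1) * b * (Z (s • 1))⁻¹ ∈ B) :
    Nz {x | ∃ φ ∈ V * V, x = Z φ} (Subgroup.closure (TE B V P)) := by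
  have hZ : HomOn ((V * V : Submodule F (Ω → F)) : Set (Ω → F)) Z := fun a ha b hb =>
    hG.Z_add a ha b hb
  have h11 : (1 : Ω → F) ∈ V * V := by
    have := Submodule.mul_mem_mul h1 h1
    rwa [mul_one] at this
  refine Nz.of_gen ?_ ?_
  · rintro x ⟨φ, hφ, rfl⟩
    exact ⟨-φ, (V * V).neg_mem hφ, (hZ.neg hφ).symm⟩
  rintro x ⟨φ, hφ, rfl⟩ _ ⟨b, hb, y, r, rfl⟩
  obtain ⟨m, hm⟩ := phase_point hG h1 y r hφ
  have m2 : (φ y) • (1 : Ω → F) ∈ V * V := Submodule.smul_mem _ _ h11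
  have e : Z φ = Z ((φ y) • 1) * Z (φ - (φ y) • 1) := by
    rw [← hG.Z_add _ m2 _ m]
    congr 1
    abel
  have e2 : Z φ * ⁅b, P (pt V y r)⁆ * (Z φ)⁻¹ =
      Z ((φ y) • 1) * ⁅b, P (pt V y r)⁆ * (Z ((φ y) • 1))⁻¹ := by
    rw [e]
    calc Z ((φ y) • 1) * Z (φ - (φ y) • 1) * ⁅b, P (pt V y r)⁆ * (Z ((φ y) • 1) * Z (φ - (φ y) • 1))⁻¹
        = Z ((φ y) • 1) * (Z (φ - (φ y) • 1) * ⁅b, P (pt V y r)⁆ * (Z (φ - (φ y) • 1))⁻¹) *
          (Z ((φ y) • 1))⁻¹ := by group
      _ = _ := by rw [conj_of_commute (hm b hb)]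
  have e3 : Z ((φ y) • 1) * ⁅b, P (pt V y r)⁆ * (Z ((φ y) • 1))⁻¹ =
      ⁅Z ((φ y) • 1) * b * (Z ((φ y) • 1))⁻¹, P (pt V y (ze (φ y) * r))⁆ := by
    have e4 : P (pt V y (ze (φ y) * r)) = Z ((φ y) • 1) * P (pt V y r) * (Z ((φ y) • 1))⁻¹ := by
      rw [hG.act _ m2 _ (pt_dep _ _ _)]
      congr 1
      funext x
      unfold pt
      simp only [Pi.smul_apply, Pi.one_apply, smul_eq_mul, mul_one, mul_ite, mul_zero]
    rw [e4]
    simp only [commutatorElement_def]; group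
  rw [e2, e3]
  exact Subgroup.subset_closure ⟨_, hτ _ b hb, y, _, rfl⟩

lemma TE_subset : TE B V P ⊆ TN B V P := by
  rintro x ⟨b, hb, y, r, rfl⟩
  exact ⟨b, hb, _, pt_dep _ _ _, rfl⟩

/-- the uniform bound for the derived length of the level groups -/
theorem level_bound (hG : Good B c V Z P) (hV : (V : Set (Ω → F)).Finite) (h1 : (1 : Ω → F) ∈ V)
    (hB : ∀ b ∈ B, b ∈ Subgroup.closure {g : G | ∃ b' ∈ B, ∃ k : ℕ, g = ⁅b', c ^ k⁆})
    (hτ : ∀ s : F, ∀ b ∈ B, Z (s • 1) * b * (Z (s • 1))⁻¹ ∈ B)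
    (hc : ∀ b ∈ B, c * b * c⁻¹ ∈ B) {δ : ℕ} (hδ : DS B δ = ⊥) :
    DS (LvG B V Z P) (2 + (δ + 1)) = ⊥ := by
  classical
  have hP := hG.psi
  have hZ : HomOn ((V * V : Submodule F (Ω → F)) : Set (Ω → F)) Z := fun a ha b hb =>
    hG.Z_add a ha b hb
  set N : Subgroup G := Subgroup.closure (TN B V P) with hN
  have hNE : N = Subgroup.closure (TE B V P) :=
    le_antisymm (TN_le hG hV) (Subgroup.closure_mono TE_subset)
  have hBN : B ≤ N := B_le_N hP hB
  let C : Set G := {x | ∃ f, Dep V f ∧ x = P f}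
  let Zs : Set G := {x | ∃ φ ∈ V * V, x = Z φ}
  have nB : Nz (B : Set G) N := (Nz.self N).mono hBN
  have nC : Nz C N := Nz_P_N hP
  have nZ : Nz Zs N := by rw [hNE]; exact Nz_Z_E hG h1 hτ
  -- first step
  let M1 : Subgroup G := Subgroup.closure (C ∪ TN B V P)
  have hNM : N ≤ M1 := Subgroup.closure_mono Set.subset_union_right
  have hCM : C ⊆ (M1 : Set G) := fun x hx => Subgroup.subset_closure (Or.inl hx)
  have s1 : ⁅LvG B V Z P, LvG B V Z P⁆ ≤ M1 := by
    refine comm_closure_le ?_ ?_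
    · refine Nz.union (Nz.union ?_ ?_) ?_
      · exact (Nz.self M1).mono (fun x hx => hNM (hBN hx))
      · exact (Nz.self M1).mono hCM
      · refine Nz.of_gen ?_ ?_
        · rintro x ⟨φ, hφ, rfl⟩
          exact ⟨-φ, (V * V).neg_mem hφ, (hZ.neg hφ).symm⟩
        · rintro x ⟨φ, hφ, rfl⟩ y (⟨f, hf, rfl⟩ | hy)
          · rw [hG.act φ hφ f hf]
            exact hCM ⟨_, ((Dep.of_quad hφ).comp ze).comp₂ hf (· * ·), rfl⟩
          · exact hNM ((nZ _ ⟨φ, hφ, rfl⟩ y (Subgroup.subset_closure hy)).1)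
    · rintro x ((hx | ⟨f, hf, rfl⟩) | ⟨φ, hφ, rfl⟩) y ((hy | ⟨f', hf', rfl⟩) | ⟨ψ, hψ, rfl⟩)
      · rw [commutatorElement_def]
        exact hNM (N.mul_mem (N.mul_mem (N.mul_mem (hBN hx) (hBN hy)) (N.inv_mem (hBN hx)))
          (N.inv_mem (hBN hy)))
      · exact hNM (Subgroup.subset_closure ⟨x, hx, f', hf', rfl⟩)
      · rw [commutatorElement_def]
        have e : x * Z ψ * x⁻¹ * (Z ψ)⁻¹ = x * (Z ψ * x⁻¹ * (Z ψ)⁻¹) := by group
        rw [e]
        exact hNM (N.mul_mem (hBN hx) ((nZ _ ⟨ψ, hψ, rfl⟩ _ (N.inv_mem (hBN hx))).1))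
      · have := N.inv_mem (Subgroup.subset_closure ⟨y, hy, f, hf, rfl⟩ : ⁅y, P f⁆ ∈ N)
        rw [commutatorElement_inv] at this
        exact hNM this
      · rw [commutatorElement_eq_one_iff_commute.2 (hP.comm hf hf')]
        exact M1.one_mem
      · rw [commutatorElement_def]
        have e : P f * Z ψ * (P f)⁻¹ * (Z ψ)⁻¹ = P f * (Z ψ * P f * (Z ψ)⁻¹)⁻¹ := by group
        rw [e, hG.act ψ hψ f hf]
        exact M1.mul_mem (hCM ⟨f, hf, rfl⟩) (M1.inv_mem (hCM ⟨_,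
          ((Dep.of_quad hψ).comp ze).comp₂ hf (· * ·), rfl⟩))
      · rw [commutatorElement_def]
        exact hNM (N.mul_mem ((nZ _ ⟨φ, hφ, rfl⟩ _ (hBN hy)).1) (N.inv_mem (hBN hy)))
      · rw [commutatorElement_def, hG.act φ hφ f' hf']
        exact M1.mul_mem (hCM ⟨_, ((Dep.of_quad hφ).comp ze).comp₂ hf' (· * ·), rfl⟩)
          (M1.inv_mem (hCM ⟨f', hf', rfl⟩))
      · rw [commutatorElement_eq_one_iff_commute.2 (hZ.comm hφ hψ)]
        exact M1.one_mem
  have s2 : ⁅M1, M1⁆ ≤ N := by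
    refine comm_closure_le ?_ ?_
    · exact nC.union ((Nz.self N).mono Subgroup.subset_closure)
    · rintro x (⟨f, hf, rfl⟩ | hx) y (⟨f', hf', rfl⟩ | hy)
      · rw [commutatorElement_eq_one_iff_commute.2 (hP.comm hf hf')]
        exact N.one_mem
      · rw [commutatorElement_def]
        exact N.mul_mem ((nC _ ⟨f, hf, rfl⟩ _ (Subgroup.subset_closure hy)).1)
          (N.inv_mem (Subgroup.subset_closure hy))
      · rw [commutatorElement_def]
        have e : x * P f' * x⁻¹ * (P f')⁻¹ = x * (P f' * x⁻¹ * (P f')⁻¹) := by group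
        rw [e]
        exact N.mul_mem (Subgroup.subset_closure hx)
          ((nC _ ⟨f', hf', rfl⟩ _ (N.inv_mem (Subgroup.subset_closure hx))).1)
      · rw [commutatorElement_def]
        have hx' : x ∈ N := Subgroup.subset_closure hx
        have hy' : y ∈ N := Subgroup.subset_closure hy
        exact N.mul_mem (N.mul_mem (N.mul_mem hx' hy') (N.inv_mem hx')) (N.inv_mem hy')
  have s3 : DS (LvG B V Z P) 2 ≤ N := (Subgroup.commutator_mono s1 s1).trans s2
  -- the third layer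
  let Py : Ω → Subgroup G := fun y =>
    Subgroup.closure {x | ∃ b ∈ B, ∃ f ∈ {f : Ω → R | Dep V f ∧ f y = 0}, x = ⁅b, P f⁆}
  have hcpow : ∀ k : ℕ, ∀ b ∈ B, c ^ k * b * (c ^ k)⁻¹ ∈ B := by
    intro k
    induction k with
    | zero => intro b hb; simpa using hb
    | succ k ih =>
      intro b hb
      have e : c ^ (k + 1) * b * (c ^ (k + 1))⁻¹ = c ^ k * (c * b * c⁻¹) * (c ^ k)⁻¹ := by
        rw [pow_succ]; group
      rw [e]
      exact ih _ (hc b hb)
  have hNPy : ∀ y, N ≤ B ⊔ Py y := by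
    intro y
    rw [hN, Subgroup.closure_le]
    rintro x ⟨b, hb, f, hf, rfl⟩
    obtain ⟨h, hh⟩ : ∃ h : Ω → R, h = f - (fun _ => f y) := ⟨_, rfl⟩
    have hhd : Dep V h := by rw [hh]; exact hf.comp (fun s => s - f y)
    have hhy : h y = 0 := by rw [hh]; simp
    have e1 : P f = c ^ (f y).val * P h := by
      rw [← hP.const (f y), ← hP.add _ _ (Dep.const V _) hhd]
      congr 1
      rw [hh]; funext x; simp
    have e2 : ⁅b, P f⁆ = ⁅b, c ^ (f y).val⁆ * ⁅c ^ (f y).val * b * (c ^ (f y).val)⁻¹, P h⁆ := by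
      rw [e1]
      have hcm : Commute (c ^ (f y).val) (P h) := by
        rw [← hP.const (f y)]
        exact hP.comm (Dep.const V _) hhd
      have e3 : ⁅c ^ (f y).val * b * (c ^ (f y).val)⁻¹, P h⁆ =
          ⁅c ^ (f y).val * b * (c ^ (f y).val)⁻¹, c ^ (f y).val * P h * (c ^ (f y).val)⁻¹⁆ := by
        rw [conj_of_commute hcm]
      rw [e3]
      simp only [commutatorElement_def]; group
    show ⁅b, P f⁆ ∈ B ⊔ Py y
    rw [e2]
    refine Subgroup.mul_mem _ (Subgroup.mem_sup_left ?_) (Subgroup.mem_sup_right ?_)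
    · rw [commutatorElement_def]
      have e : b * c ^ (f y).val * b⁻¹ * (c ^ (f y).val)⁻¹ =
          b * (c ^ (f y).val * b⁻¹ * (c ^ (f y).val)⁻¹) := by group
      rw [e]
      exact B.mul_mem hb (hcpow _ _ (B.inv_mem hb))
    · exact Subgroup.subset_closure ⟨_, hcpow _ b hb, h, ⟨hhd, hhy⟩, rfl⟩
  have hDPy : ∀ y, DS N δ ≤ Py y := by
    intro y
    have := DS_sup (hNPy y) (Nz_B_T B P) δ
    rwa [hδ, bot_sup_eq] at this
  -- `DS N δ` is central
  have hcen : ∀ x ∈ DS N δ, ∀ z ∈ N, Commute x z := by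
    intro x hx
    rw [hNE]
    refine commute_closure ?_
    rintro _ ⟨b, hb, y, r, rfl⟩
    have hx' := hDPy y hx
    refine (commute_closure ?_ x hx').symm
    rintro _ ⟨b', hb', f, ⟨hf, hfy⟩, rfl⟩
    -- commuting of `[b, P (pt y r)]` and `[b', P f]`
    have hd : ∀ x, pt V y r x = 0 ∨ f x = 0 := by
      intro x
      by_cases hx : ∀ u ∈ V, u x = u y
      · right; rw [hf x y hx, hfy]
      · left; unfold pt; rw [if_neg hx]
    have e1 : Commute (P f) ⁅b, P (pt V y r)⁆ := hG.loc _ _ (pt_dep _ _ _) hf hd b hb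
    have e2 : Commute (P f) ⁅b'⁻¹ * b, P (pt V y r)⁆ :=
      hG.loc _ _ (pt_dep _ _ _) hf hd _ (B.mul_mem (B.inv_mem hb') hb)
    have e3 : Commute (P f) ⁅b'⁻¹, P (pt V y r)⁆ :=
      hG.loc _ _ (pt_dep _ _ _) hf hd _ (B.inv_mem hb')
    have e4 : Commute (P f) (b'⁻¹ * ⁅b, P (pt V y r)⁆ * b') := by
      have : b'⁻¹ * ⁅b, P (pt V y r)⁆ * b' = ⁅b'⁻¹ * b, P (pt V y r)⁆ * ⁅b'⁻¹, P (pt V y r)⁆⁻¹ := by
        simp only [commutatorElement_def]; group
      rw [this]
      exact e2.mul_right e3.inv_right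
    have e5 : Commute (b' * P f * b'⁻¹) ⁅b, P (pt V y r)⁆ := by
      have := commute_conj (Z := b') e4
      have e6 : b' * (b'⁻¹ * ⁅b, P (pt V y r)⁆ * b') * b'⁻¹ = ⁅b, P (pt V y r)⁆ := by group
      rwa [e6] at this
    rw [commutatorElement_def b' (P f)]
    exact (e5.mul_left e1.inv_left).symm
  have s4 : DS N (δ + 1) ≤ ⊥ := by
    show ⁅DS N δ, DS N δ⁆ ≤ ⊥
    rw [Subgroup.commutator_le]
    intro x hx z hz
    rw [Subgroup.mem_bot, commutatorElement_eq_one_iff_commute]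
    exact hcen x hx z (DS_le_self N δ hz)
  have s5 : DS (LvG B V Z P) (2 + (δ + 1)) ≤ DS N (δ + 1) := by
    rw [← DS_add]
    exact DS_mono s3 _
  exact le_bot_iff.1 (s5.trans s4)

end bound

end Pool.Agent.Helper638.CDB
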