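import Pool.Agent.Helper638.CDB.Sol

set_option autoImplicit false

open scoped commutatorElement

namespace Pool.Agent.Helper638.CDB

variable {G : Type} [Group G]

section union
variable {ι : Type} {t : ι → G} {Gn : ℕ → Subgroup G}

lemma shift (hmono : ∀ n, Gn n ≤ Gn (n + 1))
    (hsh : ∀ i n, ∀ x ∈ Gn n, (t i)⁻¹ * x * t i ∈ Gn (n + 1)) {s : G}
    (hs : s ∈ Submonoid.closure (Set.range t)) :
    ∀ n, ∃ m, ∀ k, ∀ x ∈ DS (Gn n) k, s⁻¹ * x * s ∈ DS (Gn m) k := by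
  induction hs using Submonoid.closure_induction with
  | mem s hs =>
    obtain ⟨i, rfl⟩ := hs
    intro n
    refine ⟨n + 1, fun k x hx => ?_⟩
    have h1 : (Gn n).map (MulAut.conj (t i)⁻¹).toMonoidHom ≤ Gn (n + 1) := by
      rintro _ ⟨y, hy, rfl⟩
      have := hsh i n y hy
      simpa [MulAut.conj_apply] using this
    have h2 := DS_mono h1 k
    rw [← DS_map] at h2
    have h3 := h2 ⟨x, hx, rfl⟩
    simpa [MulAut.conj_apply] using h3
  | one => intro n; exact ⟨n, fun k x hx => by simpa using hx⟩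
  | mul a b _ _ ha hb =>
    intro n
    obtain ⟨m, hm⟩ := ha n
    obtain ⟨m', hm'⟩ := hb m
    refine ⟨m', fun k x hx => ?_⟩
    have e : (a * b)⁻¹ * x * (a * b) = b⁻¹ * (a⁻¹ * x * a) * b := by group
    rw [e]
    exact hm' k _ (hm k x hx)

/-- union of the conjugates of the derived series of the `Gn n` -/
def KC (t : ι → G) (Gn : ℕ → Subgroup G) (k : ℕ) (x : G) : Prop :=
  ∃ s ∈ Submonoid.closure (Set.range t), ∃ n, s⁻¹ * x * s ∈ DS (Gn n) k

lemma comm_T (htt : ∀ i j, Commute (t i) (t j)) {s s' : G}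
    (hs : s ∈ Submonoid.closure (Set.range t)) (hs' : s' ∈ Submonoid.closure (Set.range t)) :
    Commute s s' := by
  have h1 : ∀ i, ∀ s' ∈ Submonoid.closure (Set.range t), Commute (t i) s' := by
    intro i s' hs'
    induction hs' using Submonoid.closure_induction with
    | mem s hs => obtain ⟨j, rfl⟩ := hs; exact htt i j
    | one => exact Commute.one_right _
    | mul a b _ _ ha hb => exact ha.mul_right hb
  induction hs using Submonoid.closure_induction with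
  | mem s hs => obtain ⟨j, rfl⟩ := hs; exact h1 j s' hs'
  | one => exact Commute.one_left _
  | mul a b _ _ ha hb => exact ha.mul_left hb

lemma Gn_mono (hmono : ∀ n, Gn n ≤ Gn (n + 1)) {n m : ℕ} (h : n ≤ m) : Gn n ≤ Gn m :=
  monotone_nat_of_le_succ hmono h

lemma KC_common (hmono : ∀ n, Gn n ≤ Gn (n + 1))
    (hsh : ∀ i n, ∀ x ∈ Gn n, (t i)⁻¹ * x * t i ∈ Gn (n + 1)) (htt : ∀ i j, Commute (t i) (t j))
    {k : ℕ} {x y : G} (hx : KC t Gn k x) (hy : KC t Gn k y) :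
    ∃ s ∈ Submonoid.closure (Set.range t), ∃ n, s⁻¹ * x * s ∈ DS (Gn n) k ∧
      s⁻¹ * y * s ∈ DS (Gn n) k := by
  obtain ⟨s, hs, n, hn⟩ := hx
  obtain ⟨s', hs', n', hn'⟩ := hy
  obtain ⟨m, hm⟩ := shift hmono hsh hs' n
  obtain ⟨m', hm'⟩ := shift hmono hsh hs n'
  refine ⟨s * s', Submonoid.mul_mem _ hs hs', max m m', ?_, ?_⟩
  · have e : (s * s')⁻¹ * x * (s * s') = s'⁻¹ * (s⁻¹ * x * s) * s' := by group
    rw [e]
    exact DS_mono (Gn_mono hmono (le_max_left _ _)) k (hm k _ hn)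
  · have e : (s * s')⁻¹ * y * (s * s') = s⁻¹ * (s'⁻¹ * y * s') * s := by
      rw [(comm_T htt hs hs').eq]; group
    rw [e]
    exact DS_mono (Gn_mono hmono (le_max_right _ _)) k (hm' k _ hn')

/-- the subgroup -/
def KS (hmono : ∀ n, Gn n ≤ Gn (n + 1))
    (hsh : ∀ i n, ∀ x ∈ Gn n, (t i)⁻¹ * x * t i ∈ Gn (n + 1)) (htt : ∀ i j, Commute (t i) (t j))
    (k : ℕ) : Subgroup G where
  carrier := {x | KC t Gn k x}
  one_mem' := ⟨1, Submonoid.one_mem _, 0, by simp⟩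
  mul_mem' := by
    intro x y hx hy
    obtain ⟨s, hs, n, h1, h2⟩ := KC_common hmono hsh htt hx hy
    refine ⟨s, hs, n, ?_⟩
    have e : s⁻¹ * (x * y) * s = (s⁻¹ * x * s) * (s⁻¹ * y * s) := by group
    rw [e]
    exact Subgroup.mul_mem _ h1 h2
  inv_mem' := by
    rintro x ⟨s, hs, n, hn⟩
    refine ⟨s, hs, n, ?_⟩
    have e : s⁻¹ * x⁻¹ * s = (s⁻¹ * x * s)⁻¹ := by group
    rw [e]
    exact Subgroup.inv_mem _ hn

lemma KS_comm (hmono : ∀ n, Gn n ≤ Gn (n + 1))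
    (hsh : ∀ i n, ∀ x ∈ Gn n, (t i)⁻¹ * x * t i ∈ Gn (n + 1)) (htt : ∀ i j, Commute (t i) (t j))
    (k : ℕ) : ⁅KS hmono hsh htt k, KS hmono hsh htt k⁆ ≤ KS hmono hsh htt (k + 1) := by
  rw [Subgroup.commutator_le]
  intro x hx y hy
  obtain ⟨s, hs, n, h1, h2⟩ := KC_common hmono hsh htt hx hy
  refine ⟨s, hs, n, ?_⟩
  have e : s⁻¹ * ⁅x, y⁆ * s = ⁅s⁻¹ * x * s, s⁻¹ * y * s⁆ := by
    simp only [commutatorElement_def]; group
  rw [e]
  exact Subgroup.commutator_mem_commutator h1 h2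

lemma KS_DS (hmono : ∀ n, Gn n ≤ Gn (n + 1))
    (hsh : ∀ i n, ∀ x ∈ Gn n, (t i)⁻¹ * x * t i ∈ Gn (n + 1)) (htt : ∀ i j, Commute (t i) (t j)) :
    ∀ k, DS (KS hmono hsh htt 0) k ≤ KS hmono hsh htt k
  | 0 => le_rfl
  | k + 1 => (Subgroup.commutator_mono (KS_DS hmono hsh htt k) (KS_DS hmono hsh htt k)).trans
      (KS_comm hmono hsh htt k)

theorem union_solvable (hmono : ∀ n, Gn n ≤ Gn (n + 1))
    (hsh : ∀ i n, ∀ x ∈ Gn n, (t i)⁻¹ * x * t i ∈ Gn (n + 1)) (htt : ∀ i j, Commute (t i) (t j))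
    (hgen : Subgroup.closure ((Gn 0 : Set G) ∪ Set.range t) = ⊤) {k : ℕ}
    (hk : ∀ n, DS (Gn n) k = ⊥) : Group.IsSolvable G := by
  set K := KS hmono hsh htt 0 with hK
  have h0K : Gn 0 ≤ K := by
    intro x hx
    exact ⟨1, Submonoid.one_mem _, 0, by simpa [DS] using hx⟩
  have nt : Nz (Set.range t) K := by
    rintro _ ⟨i, rfl⟩ x hx
    have hi : t i ∈ Submonoid.closure (Set.range t) := Submonoid.subset_closure ⟨i, rfl⟩
    obtain ⟨s, hs, n, hn⟩ := hx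
    constructor
    · refine ⟨t i * s, Submonoid.mul_mem _ hi hs, n, ?_⟩
      have e : (t i * s)⁻¹ * (t i * x * (t i)⁻¹) * (t i * s) = s⁻¹ * x * s := by group
      rw [e]; exact hn
    · obtain ⟨m, hm⟩ := shift hmono hsh hi n
      refine ⟨s, hs, m, ?_⟩
      have e : s⁻¹ * ((t i)⁻¹ * x * t i) * s = (t i)⁻¹ * (s⁻¹ * x * s) * t i := by
        have := (comm_T htt hi hs).eq
        calc s⁻¹ * ((t i)⁻¹ * x * t i) * s = (t i * s)⁻¹ * x * (t i * s) := by group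
          _ = (s * t i)⁻¹ * x * (s * t i) := by rw [this]
          _ = _ := by group
      rw [e]
      exact hm 0 _ hn
  have n0 : Nz (Gn 0 : Set G) K := (Nz.self K).mono h0K
  have h1 : ⁅(⊤ : Subgroup G), ⊤⁆ ≤ K := by
    rw [← hgen]
    refine comm_closure_le (n0.union nt) ?_
    rintro x (hx | ⟨i, rfl⟩) y (hy | ⟨j, rfl⟩)
    · rw [commutatorElement_def]
      exact K.mul_mem (K.mul_mem (K.mul_mem (h0K hx) (h0K hy)) (K.inv_mem (h0K hx)))
        (K.inv_mem (h0K hy))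
    · rw [commutatorElement_def]
      have e : x * t j * x⁻¹ * (t j)⁻¹ = x * (t j * x⁻¹ * (t j)⁻¹) := by group
      rw [e]
      exact K.mul_mem (h0K hx) (nt _ ⟨j, rfl⟩ _ (K.inv_mem (h0K hx))).1
    · rw [commutatorElement_def]
      exact K.mul_mem (nt _ ⟨i, rfl⟩ _ (h0K hy)).1 (K.inv_mem (h0K hy))
    · rw [commutatorElement_eq_one_iff_commute.2 (htt i j)]
      exact K.one_mem
  have h2 : DS (⊤ : Subgroup G) (1 + k) ≤ ⊥ := by
    rw [← DS_add]
    refine (DS_mono (K := K) h1 k).trans ((KS_DS hmono hsh htt k).trans ?_)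
    rintro x ⟨s, hs, n, hn⟩
    rw [hk n, Subgroup.mem_bot] at hn
    rw [Subgroup.mem_bot]
    have : x = s * (s⁻¹ * x * s) * s⁻¹ := by group
    rw [this, hn]; group
  refine ⟨⟨1 + k, ?_⟩⟩
  rw [← DS_top]
  exact le_bot_iff.1 h2

end union

end Pool.Agent.Helper638.CDB
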